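import Mathlib
import Pool.Agent.Shared.NP.Defs

/-!
The class #P, randomised approximation schemes, AP-reductions and the problem #PolyaOrbits.
-/

set_option autoImplicit false

namespace Pool.Agent.Lib.MP_3a8d2e_lc

open Pool.Agent.Shared.PolyTime Pool.Agent.Shared.NP

/-- `f` is in #P: `f x` is the number of certificates of length `p |x|` that a polynomial-time
Turing machine accepts together with `x`. -/
def InSharpP (f : List Bool → ℕ) : Prop :=
  ∃ (V : List Bool × List Bool → Bool) (p : Polynomial ℕ),
    PolyComputable (fun xy : List Bool × List Bool => encPair xy.1 xy.2) (fun b : Bool => [b]) V ∧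
    ∀ x, f x = {y : List Bool | y.length = p.eval x.length ∧ V (x, y) = true}.ncard

/-- `A x ε` is the distribution of the output on input `(x, ε)`; `A` is a randomised approximation
scheme for `f` on the set `D` of instances. -/
def IsRAS (D : Set (List Bool)) (f : List Bool → ℕ) (A : List Bool → ℝ → PMF ℚ) : Prop :=
  ∀ x ∈ D, ∀ ε : ℝ, 0 < ε → ε < 1 →
    3 / 4 ≤ (A x ε).toOuterMeasure
      {Z : ℚ | Real.exp (-ε) * f x ≤ (Z : ℝ) ∧ (Z : ℝ) ≤ Real.exp ε * f x}

/-- A string together with a number written in unary. -/
def encIn (a : List Bool × ℕ) : List Bool := encPair a.1 (encNat a.2)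

/-- `f` has a deterministic AP-reduction with one oracle call to `g`, whose instances form the set
`D`. On input `(x, ε)` the machine has `x` and `n = ⌈1/ε⌉` in unary. In polynomial time it writes
an instance `w` of `g` and a number `d`, asks the oracle the query `(w, 1/d)`, reads at most
`r (|x| + n)` binary digits of the integer part of the answer, and prints a natural number in
binary, again in polynomial time. It is a randomised approximation scheme for `f` whenever the
oracle is one for `g`. -/
def APRed (f : List Bool → ℕ) (D : Set (List Bool)) (g : List Bool → ℕ) : Prop :=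
  ∃ (query : List Bool × ℕ → List Bool × ℕ) (post : (List Bool × ℕ) × List Bool → ℕ)
    (r : Polynomial ℕ),
    PolyComputable encIn encIn query ∧
    PolyComputable (fun a : (List Bool × ℕ) × List Bool => encPair (encIn a.1) a.2) Nat.bits post ∧
    (∀ a, (query a).1 ∈ D ∧ 2 ≤ (query a).2 ∧ (query a).2 ≤ r.eval (a.1.length + a.2)) ∧
    ∀ O : List Bool → ℝ → PMF ℚ, IsRAS D g O → IsRAS Set.univ f fun x ε =>
      (O (query (x, ⌈1 / ε⌉₊)).1 (1 / ((query (x, ⌈1 / ε⌉₊)).2 : ℝ))).map fun z =>
        (post ((x, ⌈1 / ε⌉₊), (Nat.bits ⌊z⌋₊).take (r.eval (x.length + ⌈1 / ε⌉₊))) : ℚ)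

/-- The number of cycles of a permutation, fixed points counted as cycles of length one. -/
def cyc {m : ℕ} (g : Equiv.Perm (Fin m)) : ℕ :=
  Multiset.card g.cycleType + (Finset.univ.filter fun i => g i = i).card

/-- A list of permutations of `Fin m`. -/
structure Inst : Type where
  /-- the degree -/
  m : ℕ
  /-- the generators -/
  gens : List (Equiv.Perm (Fin m))

/-- The bit string of an instance: `m` and, for each generator, the list of its values. -/
def Inst.code (I : Inst) : List Bool :=
  encPair (encNat I.m)
    (encList (encList encNat) (I.gens.map fun σ => List.ofFn fun i => (σ i : ℕ)))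

open Classical in
/-- The sum of `k ^ c(g)` over the group generated by the permutations of the instance. -/
noncomputable def Inst.val (k : ℕ) (I : Inst) : ℕ :=
  ∑ g ∈ Finset.univ.filter (fun g => g ∈ Subgroup.closure {σ | σ ∈ I.gens}), k ^ cyc g

/-- The codes of the instances with at most `C * m` generators. -/
def instances (C : ℕ) : Set (List Bool) := {w | ∃ I : Inst, I.gens.length ≤ C * I.m ∧ I.code = w}

end Pool.Agent.Lib.MP_3a8d2e_lc
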