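import Mathlib
import Pool.Agent.Lib.MP_3a8d2e_lc.Defs

-- part Pool.Agent.Lib.MP_3a8d2e_lc.Fix
section

/-!
The number of words fixed by a permutation.
-/

set_option autoImplicit false

namespace Pool.Agent.Lib.MP_3a8d2e_lc

open Equiv Equiv.Perm

theorem word_sameCycle {α β : Type} [Fintype α] [DecidableEq α] (g : Perm α) (w : α → β)
    (hw : ∀ i, w (g i) = w i) {i j : α} (h : SameCycle g i j) : w i = w j := by
  obtain ⟨n, -, rfl⟩ := h.exists_pow_eq'
  induction n with
  | zero => rfl
  | succ n ih =>
    rw [pow_succ', Perm.mul_apply, hw]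
    exact ih ⟨n, by simp⟩

theorem card_fixed (k : ℕ) {m : ℕ} (g : Equiv.Perm (Fin m)) :
    (Finset.univ.filter fun w : Fin m → Fin k => ∀ i, w (g i) = w i).card = k ^ cyc g := by
  classical
  let L : Type := {c // c ∈ g.cycleFactorsFinset} ⊕ {i // g i = i}
  let lab : Fin m → L := fun i =>
    if h : g i = i then Sum.inr ⟨i, h⟩
    else Sum.inl ⟨g.cycleOf i, cycleOf_mem_cycleFactorsFinset_iff.2 (mem_support.2 h)⟩
  have hsurj : Function.Surjective lab := by
    rintro (⟨c, hc⟩ | ⟨i, hi⟩)
    · obtain ⟨i, hi⟩ := (mem_cycleFactorsFinset_iff.1 hc).1.nonempty_support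
      have h1 : g i ≠ i := by
        rw [← (mem_cycleFactorsFinset_iff.1 hc).2 i hi]
        exact mem_support.1 hi
      refine ⟨i, ?_⟩
      simp only [lab, dif_neg h1]
      congr 2
      exact (cycle_is_cycleOf hi hc).symm
    · exact ⟨i, by simp only [lab, dif_pos hi]⟩
  have hstep : ∀ i, lab (g i) = lab i := by
    intro i
    by_cases h : g i = i
    · rw [h]
    · have h' : g (g i) ≠ g i := fun e => h (g.injective e)
      simp only [lab, dif_neg h, dif_neg h', cycleOf_self_apply]
  have hsame : ∀ i j, lab i = lab j → SameCycle g i j := by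
    intro i j h
    by_cases hi : g i = i <;> by_cases hj : g j = j
    · simp only [lab, dif_pos hi, dif_pos hj] at h
      have : i = j := congrArg Subtype.val (Sum.inr.inj h)
      rw [this]
    · simp [lab, dif_pos hi, dif_neg hj] at h
    · simp [lab, dif_neg hi, dif_pos hj] at h
    · simp only [lab, dif_neg hi, dif_neg hj] at h
      have h1 : g.cycleOf i = g.cycleOf j := congrArg Subtype.val (Sum.inl.inj h)
      have h2 : j ∈ (g.cycleOf i).support := by
        rw [h1, mem_support_cycleOf_iff]
        exact ⟨SameCycle.refl _ _, mem_support.2 hj⟩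
      exact (mem_support_cycleOf_iff.1 h2).1
  have hL : Fintype.card L = cyc g := by
    simp only [L, Fintype.card_sum, cyc, cycleType_def, Multiset.card_map,
      Finset.card_val, Fintype.card_subtype, Finset.filter_mem_eq_inter, Finset.univ_inter]
  have hc : k ^ cyc g = (Finset.univ : Finset (L → Fin k)).card := by
    rw [Finset.card_univ, Fintype.card_fun, Fintype.card_fin, hL]
  rw [hc]
  symm
  refine Finset.card_bij (fun u _ => u ∘ lab) (fun u _ => ?_) (fun u _ v _ h => ?_) fun w hw => ?_
  · simp [hstep]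
  · exact hsurj.injective_comp_right h
  · have hw' : ∀ i, w (g i) = w i := by simpa using hw
    refine ⟨fun l => w (Function.surjInv hsurj l), Finset.mem_univ _, ?_⟩
    funext i
    exact word_sameCycle g w hw' (hsame _ _ (Function.surjInv_eq hsurj _))

end Pool.Agent.Lib.MP_3a8d2e_lc
end

-- part Pool.Agent.Lib.MP_3a8d2e_lc.MemSims
section

/-!
Membership test for permutation groups (Sims table), written once for a structure of operations,
and its correctness for permutations of `Fin m`.
-/

set_option autoImplicit false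

namespace Pool.Agent.Lib.MP_3a8d2e_lc.Mem

/-- operations on a representation of permutations -/
structure Ops (G : Type) where
  /-- product -/
  mul : G → G → G
  /-- `t⁻¹ * g` -/
  ldiv : G → G → G
  /-- identity -/
  one : G
  /-- value at a point -/
  app : G → ℕ → ℕ

section alg
variable {G : Type} (O : Ops G)

def fixes (g : G) (i : ℕ) : Bool := (List.range i).all fun j => O.app g j == j

def look (T : List G) (i v : ℕ) : G :=
  cond (v == i) O.one ((T.filter fun t => fixes O t i && O.app t i == v).headD O.one)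

def step (T : List G) (g : G) (i : ℕ) : G :=
  cond (fixes O g i) (O.ldiv (look O T i (O.app g i)) g) g

def sift (m : ℕ) (T : List G) (g : G) : G := (List.range m).foldl (step O T) g

def cands (gens T : List G) : List G := gens ++ T.flatMap fun a => T.map fun b => O.mul a b

def round (m : ℕ) (gens T : List G) : List G :=
  T ++ (((cands O gens T).map (sift O m T)).filter fun r => !fixes O r m).take 1

def table (m : ℕ) (gens : List G) : List G := (round O m gens)^[m * m + 1] [O.one]

def member (m : ℕ) (gens : List G) (g : G) : Bool := fixes O (sift O m (table O m gens) g) m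

end alg

section nat
variable {G G' : Type} {O : Ops G} {O' : Ops G'} {φ : G → G'}

/-- `φ` preserves the operations -/
structure Hom (O : Ops G) (O' : Ops G') (φ : G → G') : Prop where
  mul : ∀ a b, O'.mul (φ a) (φ b) = φ (O.mul a b)
  ldiv : ∀ a b, O'.ldiv (φ a) (φ b) = φ (O.ldiv a b)
  one : O'.one = φ O.one
  app : ∀ a i, O'.app (φ a) i = O.app a i

theorem Hom.fixes (h : Hom O O' φ) (g : G) (i : ℕ) : fixes O' (φ g) i = fixes O g i := by
  simp only [Mem.fixes, h.app]

theorem Hom.look (h : Hom O O' φ) (T : List G) (i v : ℕ) :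
    look O' (T.map φ) i v = φ (look O T i v) := by
  unfold Mem.look
  cases v == i
  · simp only [cond_false, List.filter_map, h.one]
    have : ((fun t => Mem.fixes O' t i && O'.app t i == v) ∘ φ) =
        fun t => Mem.fixes O t i && O.app t i == v := by
      funext t; simp only [Function.comp, h.fixes, h.app]
    rw [this]
    cases T.filter fun t => Mem.fixes O t i && O.app t i == v <;> rfl
  · exact h.one

theorem Hom.step (h : Hom O O' φ) (T : List G) (g : G) (i : ℕ) :
    step O' (T.map φ) (φ g) i = φ (step O T g i) := by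
  unfold Mem.step
  rw [h.fixes, h.app, h.look, h.ldiv]
  cases Mem.fixes O g i <;> rfl

theorem Hom.sift (h : Hom O O' φ) (m : ℕ) (T : List G) (g : G) :
    sift O' m (T.map φ) (φ g) = φ (sift O m T g) := by
  unfold Mem.sift
  induction List.range m generalizing g with
  | nil => rfl
  | cons i l ih => simp only [List.foldl_cons, h.step, ih]

theorem Hom.cands (h : Hom O O' φ) (gens T : List G) :
    cands O' (gens.map φ) (T.map φ) = (cands O gens T).map φ := by
  unfold Mem.cands
  simp only [List.map_append, List.flatMap_map, List.map_flatMap, List.map_map]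
  congr 2
  funext a
  apply List.map_congr_left
  intro b _
  exact h.mul a b

theorem Hom.round (h : Hom O O' φ) (m : ℕ) (gens T : List G) :
    round O' m (gens.map φ) (T.map φ) = (round O m gens T).map φ := by
  unfold Mem.round
  rw [h.cands, List.map_append, List.map_take, List.map_map]
  congr 2
  have : (Mem.sift O' m (T.map φ)) ∘ φ = φ ∘ Mem.sift O m T := funext fun g => h.sift m T g
  rw [this, ← List.map_map, List.filter_map]
  congr 2
  funext r
  simp only [Function.comp, h.fixes]

theorem Hom.member (h : Hom O O' φ) (m : ℕ) (gens : List G) (g : G) :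
    member O' m (gens.map φ) (φ g) = member O m gens g := by
  have : table O' m (gens.map φ) = (table O m gens).map φ := by
    unfold table
    rw [h.one]
    induction m * m + 1 with
    | zero => rfl
    | succ k ih => rw [Function.iterate_succ_apply', Function.iterate_succ_apply', ih, h.round]
  unfold Mem.member
  rw [this, h.sift, h.fixes]

end nat

section perm
variable {m : ℕ}

/-- value of a permutation at a natural number -/
def ap (g : Equiv.Perm (Fin m)) (i : ℕ) : ℕ := if h : i < m then (g ⟨i, h⟩ : ℕ) else 0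

/-- the operations on genuine permutations -/
def PO (m : ℕ) : Ops (Equiv.Perm (Fin m)) := ⟨fun a b => a * b, fun t g => t⁻¹ * g, 1, ap⟩

/-- fixes all points below `i` -/
def Fx (g : Equiv.Perm (Fin m)) (i : ℕ) : Prop := ∀ j : Fin m, (j : ℕ) < i → g j = j

theorem ap_fin (g : Equiv.Perm (Fin m)) (j : Fin m) : ap g j = g j := by simp [ap]

theorem fixes_iff {g : Equiv.Perm (Fin m)} {i : ℕ} (hi : i ≤ m) :
    fixes (PO m) g i = true ↔ Fx g i := by
  simp only [fixes, List.all_eq_true, List.mem_range, beq_iff_eq, PO, Fx]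
  constructor
  · intro h j hj
    have := h j hj
    rw [ap_fin] at this
    exact Fin.ext this
  · intro h j hj
    have := h ⟨j, by omega⟩ hj
    have h2 := ap_fin g ⟨j, by omega⟩
    rw [this] at h2
    exact h2

theorem fx_all {g : Equiv.Perm (Fin m)} : Fx g m ↔ g = 1 :=
  ⟨fun h => Equiv.ext fun j => h j j.2, fun h j _ => by rw [h]; rfl⟩

theorem Fx.mono {g : Equiv.Perm (Fin m)} {i j : ℕ} (h : Fx g i) (hj : j ≤ i) : Fx g j :=
  fun a ha => h a (by omega)

theorem Fx.mul {a b : Equiv.Perm (Fin m)} {i : ℕ} (ha : Fx a i) (hb : Fx b i) : Fx (a * b) i :=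
  fun j hj => by rw [Equiv.Perm.mul_apply, hb j hj, ha j hj]

theorem Fx.inv {a : Equiv.Perm (Fin m)} {i : ℕ} (ha : Fx a i) : Fx a⁻¹ i :=
  fun j hj => by rw [Equiv.Perm.inv_eq_iff_eq, ha j hj]

theorem fx_one (i : ℕ) : Fx (1 : Equiv.Perm (Fin m)) i := fun _ _ => rfl

theorem look_spec (T : List (Equiv.Perm (Fin m))) (i v : Fin m) :
    (look (PO m) T i v = 1 ∧ (v = i ∨ ∀ t ∈ T, Fx t i → t i ≠ v)) ∨
      (look (PO m) T i v ∈ T ∧ Fx (look (PO m) T i v) i ∧ look (PO m) T i v i = v) := by
  unfold look
  by_cases h : v = i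
  · left; subst h; simp [PO]
  · have : ((v : ℕ) == i) = false := by simpa [Fin.ext_iff] using h
    rw [this, cond_false]
    rcases hl : T.filter fun t => fixes (PO m) t i && (PO m).app t i == v with _ | ⟨b, l⟩
    · left
      refine ⟨rfl, Or.inr fun t ht h1 h2 => ?_⟩
      have := List.filter_eq_nil_iff.1 hl t ht
      apply this
      rw [Bool.and_eq_true, fixes_iff i.2.le, beq_iff_eq]
      exact ⟨h1, by simp only [PO]; rw [ap_fin, h2]⟩
    · right
      have : b ∈ T.filter fun t => fixes (PO m) t i && (PO m).app t i == v := by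
        rw [hl]; exact List.mem_cons_self
      rw [List.mem_filter, Bool.and_eq_true, fixes_iff i.2.le, beq_iff_eq] at this
      refine ⟨this.1, this.2.1, Fin.ext ?_⟩
      have h3 := this.2.2
      simp only [PO] at h3
      rw [ap_fin] at h3
      exact h3

theorem step_pos {T : List (Equiv.Perm (Fin m))} {g : Equiv.Perm (Fin m)} {i : Fin m}
    (h : Fx g i) : step (PO m) T g i = (look (PO m) T i (g i))⁻¹ * g := by
  unfold step
  rw [(fixes_iff i.2.le).2 h, cond_true]
  simp only [PO, ap_fin]

theorem step_neg {T : List (Equiv.Perm (Fin m))} {g : Equiv.Perm (Fin m)} {i : ℕ} (hi : i ≤ m)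
    (h : ¬ Fx g i) : step (PO m) T g i = g := by
  unfold step
  have : fixes (PO m) g i = false := by
    rw [Bool.eq_false_iff]; exact fun h' => h ((fixes_iff hi).1 h')
  rw [this, cond_false]

/-- sifting from level `i` through `k` levels -/
def sf (T : List (Equiv.Perm (Fin m))) (i k : ℕ) (g : Equiv.Perm (Fin m)) : Equiv.Perm (Fin m) :=
  (List.range' i k).foldl (step (PO m) T) g

theorem sf_succ (T : List (Equiv.Perm (Fin m))) (i k : ℕ) (g : Equiv.Perm (Fin m)) :
    sf T i (k + 1) g = sf T (i + 1) k (step (PO m) T g i) := rfl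

theorem sift_eq (T : List (Equiv.Perm (Fin m))) (g : Equiv.Perm (Fin m)) :
    sift (PO m) m T g = sf T 0 m g := by
  unfold sift sf; rw [List.range_eq_range']

theorem sf_stuck (T : List (Equiv.Perm (Fin m))) {k i : ℕ} (hk : i + k ≤ m)
    {g : Equiv.Perm (Fin m)} (h : ¬ Fx g i) : sf T i k g = g := by
  induction k generalizing i with
  | zero => rfl
  | succ k ih =>
    rw [sf_succ, step_neg (by omega) h]
    exact ih (by omega) fun h' => h (h'.mono (by omega))

theorem look_mem {T : List (Equiv.Perm (Fin m))} (h1 : 1 ∈ T) (i v : Fin m) :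
    look (PO m) T i v ∈ T ∧ Fx (look (PO m) T i v) i := by
  rcases look_spec T i v with h | h
  · rw [h.1]; exact ⟨h1, fx_one _⟩
  · exact ⟨h.1, h.2.1⟩

theorem sf_mem {T : List (Equiv.Perm (Fin m))} {K : Subgroup (Equiv.Perm (Fin m))}
    (hT : ∀ t ∈ T, t ∈ K) {k i : ℕ} (hk : i + k ≤ m) (g : Equiv.Perm (Fin m)) :
    sf T i k g ∈ K ↔ g ∈ K := by
  induction k generalizing i g with
  | zero => rfl
  | succ k ih =>
    rw [sf_succ, ih (by omega)]
    by_cases h : Fx g i
    · rw [step_pos (i := ⟨i, by omega⟩) h]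
      apply K.mul_mem_cancel_left
      apply K.inv_mem
      rcases look_spec T ⟨i, by omega⟩ (g ⟨i, by omega⟩) with h | h
      · rw [h.1]; exact K.one_mem
      · exact hT _ h.1
    · rw [step_neg (by omega) h]

theorem fx_succ {g : Equiv.Perm (Fin m)} {i : Fin m} : Fx g (i + 1) ↔ Fx g i ∧ g i = i := by
  refine ⟨fun h => ⟨h.mono (by omega), h i (by omega)⟩, fun h j hj => ?_⟩
  rcases Nat.lt_succ_iff_lt_or_eq.1 hj with h' | h'
  · exact h.1 j h'
  · rw [Fin.ext h']; exact h.2

/-- a non-trivial residue uncovers a new pair -/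
theorem sf_new (T : List (Equiv.Perm (Fin m))) {k i : ℕ} (hk : i + k = m)
    {g : Equiv.Perm (Fin m)} (h : Fx g i) (hne : sf T i k g ≠ 1) :
    ∃ j : Fin m, Fx (sf T i k g) j ∧ sf T i k g j ≠ j ∧ ∀ t ∈ T, Fx t j → t j ≠ sf T i k g j := by
  induction k generalizing i g with
  | zero => exact absurd (fx_all.1 (h.mono (by omega))) hne
  | succ k ih =>
    obtain ⟨i, rfl⟩ : ∃ j : Fin m, (j : ℕ) = i := ⟨⟨i, by omega⟩, rfl⟩
    rw [sf_succ] at hne ⊢
    by_cases h2 : Fx (step (PO m) T g i) (i + 1)
    · exact ih (by omega) h2 hne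
    · rw [sf_stuck T (by omega) h2]
      rw [step_pos h] at h2 ⊢
      rcases look_spec T i (g i) with ⟨h3, h4⟩ | ⟨-, h3, h4⟩
      · rw [h3, inv_one, one_mul] at h2 ⊢
        have h5 : g i ≠ i := fun h' => h2 (fx_succ.2 ⟨h, h'⟩)
        exact ⟨i, h, h5, h4.resolve_left h5⟩
      · exfalso
        apply h2
        refine fx_succ.2 ⟨h3.inv.mul h, ?_⟩
        rw [Equiv.Perm.mul_apply, Equiv.Perm.inv_eq_iff_eq, h4]

theorem sf_skip (T : List (Equiv.Perm (Fin m))) {i : ℕ} (hi : i ≤ m) {g : Equiv.Perm (Fin m)}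
    (h : Fx g i) : sf T 0 m g = sf T i (m - i) g := by
  induction i with
  | zero => rfl
  | succ i ih =>
    obtain ⟨i, rfl⟩ : ∃ j : Fin m, (j : ℕ) = i := ⟨⟨i, by omega⟩, rfl⟩
    have h' := fx_succ.1 h
    rw [ih (by omega) h'.1, show m - i = m - (i + 1) + 1 by omega, sf_succ, step_pos h'.1, h'.2]
    rcases look_spec T i i with h3 | h3
    · rw [h3.1, inv_one, one_mul]
    · have : look (PO m) T i i = 1 := by simp [look, PO]
      rw [this, inv_one, one_mul]

/-- elements fixing the points below `i` that sift to the identity -/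
def HH (T : List (Equiv.Perm (Fin m))) (i : ℕ) (g : Equiv.Perm (Fin m)) : Prop :=
  Fx g i ∧ sf T i (m - i) g = 1

theorem HH.split {T : List (Equiv.Perm (Fin m))} {i : Fin m} {g : Equiv.Perm (Fin m)}
    (h : HH T i g) : HH T (i + 1) ((look (PO m) T i (g i))⁻¹ * g) := by
  obtain ⟨a, b⟩ := h
  rw [show m - i = m - (i + 1) + 1 by omega, sf_succ, step_pos a] at b
  refine ⟨?_, b⟩
  by_contra hn
  rw [sf_stuck T (by omega) hn] at b
  rw [b] at hn
  exact hn (fx_one _)

theorem closed_left {T : List (Equiv.Perm (Fin m))} (h1 : 1 ∈ T) {i : ℕ}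
    (C : ∀ t ∈ T, Fx t i → ∀ x, HH T i x → HH T i (t * x)) {k j : ℕ} (hj : j + k = m) (hij : i ≤ j)
    (y x : Equiv.Perm (Fin m)) (hy : HH T j y) (hx : HH T i x) : HH T i (y * x) := by
  induction k generalizing j y with
  | zero =>
    have : y = 1 := fx_all.1 (hy.1.mono (by omega))
    rw [this, one_mul]; exact hx
  | succ k ih =>
    obtain ⟨j, rfl⟩ : ∃ a : Fin m, (a : ℕ) = j := ⟨⟨j, by omega⟩, rfl⟩
    have a := ih (j := j + 1) (by omega) (by omega) _ hy.split
    have b := look_mem h1 j (y j)
    have := C _ b.1 (b.2.mono hij) _ a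
    rwa [← mul_assoc, mul_inv_cancel_left] at this

theorem closed_entry {T : List (Equiv.Perm (Fin m))} (h1 : 1 ∈ T)
    (hs : ∀ a ∈ T, ∀ b ∈ T, sf T 0 m (a * b) = 1) {k i : ℕ} (hi : i + k = m) :
    ∀ t ∈ T, Fx t i → ∀ x, HH T i x → HH T i (t * x) := by
  induction k generalizing i with
  | zero =>
    intro t _ ht x hx
    have : t = 1 := fx_all.1 (ht.mono (by omega))
    rw [this, one_mul]; exact hx
  | succ k ih =>
    obtain ⟨i, rfl⟩ : ∃ a : Fin m, (a : ℕ) = i := ⟨⟨i, by omega⟩, rfl⟩
    intro t ht hf x hx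
    have C := ih (i := i + 1) (by omega)
    have b := look_mem h1 i (x i)
    have x' := hx.split
    set β := look (PO m) T i (x i) with hβ
    have tb : HH T i (t * β) := ⟨hf.mul b.2, by
      rw [← sf_skip T i.2.le (hf.mul b.2)]; exact hs t ht β b.1⟩
    have y := tb.split
    have z := closed_left h1 C (k := k) (j := i + 1) (by omega) le_rfl _ _ y x'
    have e1 : (t * x) i = (t * β) i := by
      have := (fx_succ.1 x'.1).2
      rw [Equiv.Perm.mul_apply, Equiv.Perm.inv_eq_iff_eq] at this
      rw [Equiv.Perm.mul_apply, Equiv.Perm.mul_apply, this]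
    refine ⟨hf.mul hx.1, ?_⟩
    rw [show m - i = m - (i + 1) + 1 by omega, sf_succ, step_pos (hf.mul hx.1), e1]
    have := z.2
    rwa [mul_assoc, mul_assoc, mul_inv_cancel_left] at this

theorem sf_one (T : List (Equiv.Perm (Fin m))) : sf T 0 m 1 = 1 := by
  rw [sf_skip T le_rfl (fx_one _), Nat.sub_self]; rfl

theorem stable_complete {T gens : List (Equiv.Perm (Fin m))} (h1 : 1 ∈ T)
    (hs : ∀ c ∈ cands (PO m) gens T, sf T 0 m c = 1) {g : Equiv.Perm (Fin m)}
    (hg : g ∈ Subgroup.closure {σ | σ ∈ gens}) : sf T 0 m g = 1 := by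
  have hs' : ∀ a ∈ T, ∀ b ∈ T, sf T 0 m (a * b) = 1 := fun a ha b hb => hs _ (by
    simp only [cands, List.mem_append, List.mem_flatMap, List.mem_map]
    exact Or.inr ⟨a, ha, b, hb, rfl⟩)
  have f0 : ∀ g : Equiv.Perm (Fin m), Fx g 0 := fun g j hj => by omega
  have mul : ∀ a b, sf T 0 m a = 1 → sf T 0 m b = 1 → sf T 0 m (a * b) = 1 := fun a b ha hb =>
    (closed_left h1 (closed_entry h1 hs' (k := m) (i := 0) (by omega)) (k := m) (j := 0)
      (by omega) le_rfl a b ⟨f0 a, ha⟩ ⟨f0 b, hb⟩).2
  have pw : ∀ a (n : ℕ), sf T 0 m a = 1 → sf T 0 m (a ^ n) = 1 := by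
    intro a n ha
    induction n with
    | zero => exact sf_one T
    | succ n ih => rw [pow_succ]; exact mul _ _ ih ha
  induction hg using Subgroup.closure_induction with
  | mem x hx => exact hs x (List.mem_append_left _ hx)
  | one => exact sf_one T
  | mul x y _ _ hx hy => exact mul _ _ hx hy
  | inv x _ hx =>
    have : x⁻¹ = x ^ (orderOf x - 1) := by
      rw [inv_eq_iff_mul_eq_one, ← pow_succ', Nat.sub_add_cancel (orderOf_pos x),
        pow_orderOf_eq_one]
    rw [this]; exact pw _ _ hx

open Classical in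
/-- covered pairs -/
noncomputable def cov (T : List (Equiv.Perm (Fin m))) : Finset (Fin m × Fin m) :=
  Finset.univ.filter fun p => ∃ t ∈ T, Fx t p.1 ∧ t p.1 = p.2 ∧ p.2 ≠ p.1

theorem round_cases (gens T : List (Equiv.Perm (Fin m))) :
    (round (PO m) m gens T = T ∧ ∀ c ∈ cands (PO m) gens T, sf T 0 m c = 1) ∨
      ∃ c ∈ cands (PO m) gens T, sf T 0 m c ≠ 1 ∧ round (PO m) m gens T = T ++ [sf T 0 m c] := by
  unfold round
  rcases hl : ((cands (PO m) gens T).map (sift (PO m) m T)).filter
    fun r => !fixes (PO m) r m with _ | ⟨r, l⟩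
  · left
    refine ⟨by simp, fun c hc => ?_⟩
    have := List.filter_eq_nil_iff.1 hl _ (List.mem_map_of_mem hc)
    rw [sift_eq] at this
    exact fx_all.1 ((fixes_iff le_rfl).1 (by simpa using this))
  · right
    have : r ∈ ((cands (PO m) gens T).map (sift (PO m) m T)).filter
        fun r => !fixes (PO m) r m := by rw [hl]; exact List.mem_cons_self
    rw [List.mem_filter, List.mem_map] at this
    obtain ⟨⟨c, hc, rfl⟩, h2⟩ := this
    rw [sift_eq] at *
    refine ⟨c, hc, fun h => ?_, rfl⟩
    rw [(fixes_iff le_rfl).2 (fx_all.2 h)] at h2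
    simp at h2

theorem member_iff (gens : List (Equiv.Perm (Fin m))) (g : Equiv.Perm (Fin m)) :
    member (PO m) m gens g = true ↔ g ∈ Subgroup.closure {σ | σ ∈ gens} := by
  set K := Subgroup.closure {σ | σ ∈ gens} with hK
  have inv : ∀ k, 1 ∈ (round (PO m) m gens)^[k] [1] ∧ (∀ t ∈ (round (PO m) m gens)^[k] [1], t ∈ K) ∧
      ((∀ c ∈ cands (PO m) gens ((round (PO m) m gens)^[k] [1]),
        sf ((round (PO m) m gens)^[k] [1]) 0 m c = 1) ∨
        k ≤ (cov ((round (PO m) m gens)^[k] [1])).card) := by
    intro k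
    induction k with
    | zero => exact ⟨by simp, by simp, Or.inr (Nat.zero_le _)⟩
    | succ k ih =>
      rw [Function.iterate_succ_apply']
      generalize (round (PO m) m gens)^[k] [1] = T at *
      obtain ⟨i1, i2, i3⟩ := ih
      rcases round_cases gens T with ⟨h1, h2⟩ | ⟨c, hc, h1, h2⟩
      · rw [h1]; exact ⟨i1, i2, Or.inl h2⟩
      · rw [h2]
        refine ⟨List.mem_append_left _ i1, fun t ht => ?_, Or.inr ?_⟩
        · rcases List.mem_append.1 ht with h | h
          · exact i2 t h
          · rw [List.mem_singleton.1 h, sf_mem i2 (by omega)]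
            simp only [cands, List.mem_append, List.mem_flatMap, List.mem_map] at hc
            rcases hc with h | ⟨a, ha, b, hb, rfl⟩
            · exact Subgroup.subset_closure h
            · exact K.mul_mem (i2 a ha) (i2 b hb)
        · have i4 := i3.resolve_left fun h => h1 (h c hc)
          obtain ⟨j, j1, j2, j3⟩ := sf_new T (k := m) (i := 0) (by omega) (fun j hj => by omega) h1
          refine Nat.succ_le_of_lt (lt_of_le_of_lt i4 (Finset.card_lt_card ⟨?_, fun hsub => ?_⟩))
          · intro p hp
            simp only [cov, Finset.mem_filter, Finset.mem_univ, true_and] at hp ⊢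
            obtain ⟨t, ht, h⟩ := hp
            exact ⟨t, List.mem_append_left _ ht, h⟩
          · have : (j, sf T 0 m c j) ∈ cov T := hsub (by
              simp only [cov, Finset.mem_filter, Finset.mem_univ, true_and]
              exact ⟨_, by simp, j1, rfl, j2⟩)
            simp only [cov, Finset.mem_filter, Finset.mem_univ, true_and] at this
            obtain ⟨t, ht, a, b, -⟩ := this
            exact j3 t ht a b
  obtain ⟨i1, i2, i3⟩ := inv (m * m + 1)
  have i4 := i3.resolve_right fun h => by
    have := Finset.card_le_univ (cov ((round (PO m) m gens)^[m * m + 1] [1]))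
    simp only [Fintype.card_prod, Fintype.card_fin] at this
    omega
  unfold member
  rw [fixes_iff le_rfl, fx_all, sift_eq]
  refine ⟨fun h => ?_, stable_complete i1 i4⟩
  exact (sf_mem i2 (k := m) (i := 0) (by omega) g).1 (by
    have : sf ((round (PO m) m gens)^[m * m + 1] [1]) 0 m g = 1 := h
    rw [this]; exact K.one_mem)

end perm

end Pool.Agent.Lib.MP_3a8d2e_lc.Mem
end
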