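import Mathlib
import Pool.Agent.Shared.PolyTime.Graph
import Pool.Agent.Lib.MP_3a8d2e_lc.MemSims

/-!
Preimages of binary linear codes in a power of the dihedral group of order eight.
-/

set_option autoImplicit false

namespace Pool.Agent.Lib.MP_3a8d2e_lc

open Equiv Finset Pool.Agent.Shared.PolyTime

/-- The action of the dihedral group on four points, on numbers. -/
def img (σ s g : Bool) (c : ℕ) : ℕ :=
  2 * ((c / 2 + cond σ 1 0) % 2) + (c + cond g 1 0 + cond s 1 0 * (c / 2)) % 2

/-- The action of the dihedral group on four points. -/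
def d4f (σ s g : ZMod 2) (c : Fin 4) : Fin 4 :=
  ⟨img (σ == 1) (s == 1) (g == 1) c, by unfold img; omega⟩

/-- The elements of the dihedral group. -/
def d4 (σ s g : ZMod 2) : Perm (Fin 4) where
  toFun := d4f σ s g
  invFun := d4f σ s (g + s * σ)
  left_inv := by revert σ s g; decide
  right_inv := by revert σ s g; decide

theorem d4_mul (σ s g σ' s' g' : ZMod 2) (c : Fin 4) :
    d4 σ s g (d4 σ' s' g' c) = d4 (σ + σ') (s + s') (g + g' + s * σ') c := by
  revert σ s g σ' s' g' c; decide

theorem d4_zero (c : Fin 4) : d4 0 0 0 c = c := by revert c; decide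

theorem d4_inj (σ s g σ' s' g' : ZMod 2) (h : ∀ c, d4 σ s g c = d4 σ' s' g' c) :
    σ = σ' ∧ s = s' ∧ g = g' := by
  revert σ s g σ' s' g'; decide

/-- A bit as an element of the field with two elements. -/
def bz (b : Bool) : ZMod 2 := if b then 1 else 0

theorem d4_bz (σ s g : Bool) (c : Fin 4) : (d4 (bz σ) (bz s) (bz g) c : ℕ) = img σ s g c := by
  revert σ s g c; decide

/-- The weight of a coset of the centre. -/
def wF (k : ℕ) (σ s : ZMod 2) : ℕ :=
  if σ = 0 then (if s = 0 then k ^ 4 + k ^ 2 else 2 * k ^ 3) else (if s = 0 then 2 * k ^ 2 else 2 * k)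

theorem sum_zmod2 {M : Type} [AddCommMonoid M] (f : ZMod 2 → M) : ∑ x, f x = f 0 + f 1 :=
  Fin.sum_univ_two f

theorem zmod2_cases (x : ZMod 2) : x = 0 ∨ x = 1 := by revert x; decide

theorem cyc_d4 : cyc (d4 0 0 0) = 4 ∧ cyc (d4 0 0 1) = 2 ∧ cyc (d4 0 1 0) = 3 ∧
    cyc (d4 0 1 1) = 3 ∧ cyc (d4 1 0 0) = 2 ∧ cyc (d4 1 0 1) = 2 ∧ cyc (d4 1 1 0) = 1 ∧
    cyc (d4 1 1 1) = 1 := by
  decide +kernel

theorem sum_d4 (k : ℕ) (σ s : ZMod 2) : ∑ g, k ^ cyc (d4 σ s g) = wF k σ s := by
  obtain ⟨h1, h2, h3, h4, h5, h6, h7, h8⟩ := cyc_d4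
  rw [sum_zmod2]
  rcases zmod2_cases σ with rfl | rfl <;> rcases zmod2_cases s with rfl | rfl <;>
    simp [wF, *, two_mul]

/-- The permutation acting on each block of four points by an element of the dihedral group. -/
def blk {nb : ℕ} (σ s g : Fin nb → ZMod 2) : Perm (Fin (nb * 4)) :=
  finProdFinEquiv.permCongr (prodCongrRight fun b => d4 (σ b) (s b) (g b))

theorem blk_apply {nb : ℕ} (σ s g : Fin nb → ZMod 2) (b : Fin nb) (c : Fin 4) :
    blk σ s g (finProdFinEquiv (b, c)) = finProdFinEquiv (b, d4 (σ b) (s b) (g b) c) := by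
  simp [blk]

theorem blk_mul {nb : ℕ} (σ s g σ' s' g' : Fin nb → ZMod 2) :
    blk σ s g * blk σ' s' g' = blk (σ + σ') (s + s') (g + g' + s * σ') := by
  refine Equiv.ext fun p => ?_
  obtain ⟨⟨b, c⟩, rfl⟩ := finProdFinEquiv.surjective p
  rw [Perm.mul_apply, blk_apply, blk_apply, blk_apply, d4_mul]
  rfl

theorem blk_zero {nb : ℕ} : blk (0 : Fin nb → ZMod 2) 0 0 = 1 := by
  refine Equiv.ext fun p => ?_
  obtain ⟨⟨b, c⟩, rfl⟩ := finProdFinEquiv.surjective p
  rw [blk_apply]
  simp [d4_zero]

theorem blk_inj {nb : ℕ} {σ s g σ' s' g' : Fin nb → ZMod 2} (h : blk σ s g = blk σ' s' g') :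
    σ = σ' ∧ s = s' ∧ g = g' := by
  have key : ∀ b, σ b = σ' b ∧ s b = s' b ∧ g b = g' b := fun b => d4_inj _ _ _ _ _ _ fun c => by
    have := congrArg (fun τ : Perm (Fin (nb * 4)) => τ (finProdFinEquiv (b, c))) h
    simp only [blk_apply] at this
    exact (Prod.ext_iff.1 (finProdFinEquiv.injective this)).2
  exact ⟨funext fun b => (key b).1, funext fun b => (key b).2.1, funext fun b => (key b).2.2⟩

theorem cyc_blk (k : ℕ) {nb : ℕ} (σ s g : Fin nb → ZMod 2) :
    k ^ cyc (blk σ s g) = ∏ b, k ^ cyc (d4 (σ b) (s b) (g b)) := by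
  simp only [← card_fixed]
  rw [← Fintype.card_piFinset]
  refine card_nbij' (fun w b c => w (finProdFinEquiv (b, c)))
    (fun u p => u (finProdFinEquiv.symm p).1 (finProdFinEquiv.symm p).2) ?_ ?_ ?_ ?_
  · intro w hw
    simp only [coe_filter, mem_univ, true_and, Set.mem_ofPred_eq, mem_coe, Fintype.mem_piFinset,
      mem_filter] at hw ⊢
    intro b c
    rw [← blk_apply, hw]
  · intro u hu
    simp only [coe_filter, mem_univ, true_and, Set.mem_ofPred_eq, mem_coe, Fintype.mem_piFinset,
      mem_filter] at hu ⊢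
    intro p
    obtain ⟨⟨b, c⟩, rfl⟩ := finProdFinEquiv.surjective p
    rw [blk_apply]
    simp only [Equiv.symm_apply_apply]
    exact hu b c
  · intro w _
    funext p
    simp only [Prod.mk.eta, Equiv.apply_symm_apply]
  · intro u _
    funext b c
    simp only [Equiv.symm_apply_apply]

theorem pi_induction {ι : Type} [Fintype ι] [DecidableEq ι] (Q : (ι → ZMod 2) → Prop) (h0 : Q 0)
    (h1 : ∀ i, Q (Pi.single i 1)) (ha : ∀ x y, Q x → Q y → Q (x + y)) (x : ι → ZMod 2) : Q x := by
  rw [← univ_sum_single x]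
  refine sum_induction _ Q ha h0 fun i _ => ?_
  rcases zmod2_cases (x i) with h | h <;> rw [h]
  · simpa using h0
  · exact h1 i

/-- The linear forms given by a Boolean table. -/
def form {nb N : ℕ} (a : ℕ → ℕ → Bool) (x : Fin N → ZMod 2) (b : Fin nb) : ZMod 2 :=
  ∑ i : Fin N, if a b i then x i else 0

theorem form_add {nb N : ℕ} (a : ℕ → ℕ → Bool) (x y : Fin N → ZMod 2) :
    (form a (x + y) : Fin nb → ZMod 2) = form a x + form a y := by
  funext b
  simp only [form, Pi.add_apply, ← sum_add_distrib]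
  exact sum_congr rfl fun i _ => by split_ifs <;> simp

theorem form_zero {nb N : ℕ} (a : ℕ → ℕ → Bool) :
    (form a (0 : Fin N → ZMod 2) : Fin nb → ZMod 2) = 0 := by
  funext b
  simp [form]

theorem form_single {nb N : ℕ} (a : ℕ → ℕ → Bool) (i : Fin N) :
    (form a (Pi.single i 1 : Fin N → ZMod 2) : Fin nb → ZMod 2) = fun b : Fin nb => bz (a b i) := by
  funext b
  rw [form, sum_eq_single i]
  · simp [bz]
  · intro j _ hj
    simp [hj]
  · simp

/-- The generators defined by two tables. -/
def gensP (nb N : ℕ) (al be : ℕ → ℕ → Bool) : List (Perm (Fin (nb * 4))) :=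
  (List.finRange N).map (fun i : Fin N => blk (fun b : Fin nb => bz (al b i))
      (fun b : Fin nb => bz (be b i)) 0) ++
    (List.finRange nb).map fun b : Fin nb => blk 0 0 (Pi.single b 1)

/-- The instance defined by two tables. -/
def mkInst (nb N : ℕ) (al be : ℕ → ℕ → Bool) : Inst := ⟨nb * 4, gensP nb N al be⟩

/-- The generators as lists of numbers. -/
def gensL (nb N : ℕ) (al be : ℕ → ℕ → Bool) : List (List ℕ) :=
  (List.range N).map (fun i => (List.range (nb * 4)).map fun p =>
      img (al (p / 4) i) (be (p / 4) i) false (p % 4) + 4 * (p / 4)) ++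
    (List.range nb).map fun b => (List.range (nb * 4)).map fun p =>
      img false false (p / 4 == b) (p % 4) + 4 * (p / 4)

theorem ofFn_blk {nb : ℕ} (σ s g : ℕ → Bool) :
    (List.ofFn fun p => (blk (fun b : Fin nb => bz (σ b)) (fun b : Fin nb => bz (s b))
      (fun b : Fin nb => bz (g b)) p : ℕ)) = (List.range (nb * 4)).map fun p =>
      img (σ (p / 4)) (s (p / 4)) (g (p / 4)) (p % 4) + 4 * (p / 4) := by
  rw [← map_finRange, List.ofFn_eq_map]
  refine List.map_congr_left fun p _ => ?_
  obtain ⟨⟨b, c⟩, rfl⟩ := finProdFinEquiv.surjective p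
  rw [blk_apply]
  have hc := c.2
  have e1 : ((c : ℕ) + 4 * b) / 4 = b := by omega
  have e2 : ((c : ℕ) + 4 * b) % 4 = c := by omega
  simp only [finProdFinEquiv_apply_val, e1, e2, d4_bz]

theorem mkInst_code (nb N : ℕ) (al be : ℕ → ℕ → Bool) :
    (mkInst nb N al be).code = Enc.enc (nb * 4, gensL nb N al be) := by
  have : ((gensP nb N al be).map fun σ => List.ofFn fun i => (σ i : ℕ)) =
      gensL nb N al be := by
    simp only [gensP, gensL, List.map_append, List.map_map]
    congr 1
    · rw [← map_finRange]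
      refine List.map_congr_left fun i _ => ?_
      exact ofFn_blk (fun b => al b i) (fun b => be b i) (fun _ => false)
    · rw [← map_finRange]
      refine List.map_congr_left fun i _ => ?_
      have := ofFn_blk (nb := nb) (fun _ => false) (fun _ => false) (fun b => b == i)
      refine Eq.trans ?_ this
      have e : (Pi.single i 1 : Fin nb → ZMod 2) = fun b : Fin nb => bz ((b : ℕ) == i) := by
        funext b
        by_cases h : b = i
        · subst h; simp [bz]
        · have : (b : ℕ) ≠ i := fun e => h (Fin.ext e)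
          simp [bz, h, this]
      simp only [Function.comp_apply, e]
      rfl
  rw [← this]
  rfl

theorem mem_closure_mkInst (nb N : ℕ) (al be : ℕ → ℕ → Bool) (τ : Perm (Fin (nb * 4))) :
    τ ∈ Subgroup.closure {σ | σ ∈ gensP nb N al be} ↔
      ∃ (x : Fin N → ZMod 2) (g : Fin nb → ZMod 2), blk (form al x) (form be x) g = τ := by
  constructor
  · intro h
    induction h using Subgroup.closure_induction with
    | mem σ hσ =>
      simp only [gensP, List.mem_append, List.mem_map, List.mem_finRange, true_and,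
        Set.mem_ofPred_eq] at hσ
      rcases hσ with ⟨i, rfl⟩ | ⟨b, rfl⟩
      · exact ⟨Pi.single i 1, 0, by rw [form_single, form_single]⟩
      · exact ⟨0, _, by rw [form_zero, form_zero]⟩
    | one => exact ⟨0, 0, by rw [form_zero, form_zero, blk_zero]⟩
    | mul σ σ' _ _ h1 h2 =>
      obtain ⟨x, g, rfl⟩ := h1
      obtain ⟨x', g', rfl⟩ := h2
      exact ⟨x + x', _, by rw [form_add, form_add, blk_mul]⟩
    | inv σ _ h1 =>
      obtain ⟨x, g, rfl⟩ := h1
      refine ⟨x, g + form be x * form al x, eq_inv_of_mul_eq_one_right ?_⟩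
      rw [blk_mul, ← blk_zero]
      congr 1 <;> funext b <;> simp only [Pi.add_apply, Pi.mul_apply, Pi.zero_apply]
      · exact CharTwo.add_self_eq_zero _
      · exact CharTwo.add_self_eq_zero _
      · generalize g b = u, form be x b = v, form al x b = w
        revert u v w; decide
  · rintro ⟨x, g, rfl⟩
    have hc : ∀ g : Fin nb → ZMod 2, blk 0 0 g ∈
        Subgroup.closure {σ | σ ∈ gensP nb N al be} := by
      refine pi_induction _ (by rw [blk_zero]; exact one_mem _) (fun b => ?_) fun g g' h h' => ?_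
      · exact Subgroup.subset_closure (by simp [gensP])
      · have := mul_mem h h'
        rw [blk_mul] at this
        simpa using this
    have hx : ∀ x : Fin N → ZMod 2, ∃ g : Fin nb → ZMod 2, blk (form al x) (form be x) g ∈
        Subgroup.closure {σ | σ ∈ gensP nb N al be} := by
      refine pi_induction _ ⟨0, by rw [form_zero, form_zero]; exact hc 0⟩ (fun i => ⟨0, ?_⟩)
        fun x y h h' => ?_
      · rw [form_single, form_single]
        exact Subgroup.subset_closure (by simp [gensP])
      · obtain ⟨g, h⟩ := h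
        obtain ⟨g', h'⟩ := h'
        have := mul_mem h h'
        rw [blk_mul, ← form_add, ← form_add] at this
        exact ⟨_, this⟩
    obtain ⟨g', h⟩ := hx x
    have := mul_mem (hc (g - g')) h
    rw [blk_mul] at this
    simpa using this

theorem mkInst_val (k nb N : ℕ) (al be : ℕ → ℕ → Bool)
    (hinj : ∀ x : Fin N → ZMod 2, (form al x : Fin nb → ZMod 2) = 0 →
      (form be x : Fin nb → ZMod 2) = 0 → x = 0) :
    (mkInst nb N al be).gens.length ≤ nb * 4 ∧
    (mkInst nb N al be).val k =
      ∑ x : Fin N → ZMod 2, ∏ b : Fin nb, wF k (form al x b) (form be x b) := by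
  classical
  have inj : ∀ x y : Fin N → ZMod 2, (form al x : Fin nb → ZMod 2) = form al y →
      (form be x : Fin nb → ZMod 2) = form be y → x = y := by
    intro x y h1 h2
    have := hinj (x + y) (by rw [form_add, h1]; exact funext fun _ => CharTwo.add_self_eq_zero _)
      (by rw [form_add, h2]; exact funext fun _ => CharTwo.add_self_eq_zero _)
    exact funext fun i => CharTwo.add_eq_zero.1 (congrFun this i)
  constructor
  · have h := Fintype.card_le_of_injective (fun x : Fin N → ZMod 2 =>
      ((form al x : Fin nb → ZMod 2), (form be x : Fin nb → ZMod 2)))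
      fun x y h => inj x y (Prod.ext_iff.1 h).1 (Prod.ext_iff.1 h).2
    simp only [Fintype.card_pi, ZMod.card, prod_const, card_univ, Fintype.card_fin,
      Fintype.card_prod, ← pow_add] at h
    have := (Nat.pow_le_pow_iff_right (by norm_num)).1 h
    simp only [mkInst, gensP, List.length_append, List.length_map, List.length_finRange]
    omega
  · have e : ∀ x : Fin N → ZMod 2, ∏ b : Fin nb, wF k (form al x b) (form be x b) =
        ∑ g : Fin nb → ZMod 2, k ^ cyc (blk (form al x) (form be x) g) := by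
      intro x
      simp only [cyc_blk, ← sum_d4]
      rw [prod_univ_sum, Fintype.piFinset_univ]
    simp only [e]
    rw [← Fintype.sum_prod_type']
    unfold Inst.val
    symm
    refine sum_nbij (fun z => blk (form al z.1) (form be z.1) z.2) (fun z _ => ?_)
      (fun z _ z' _ h => ?_) (fun τ hτ => ?_) fun z _ => rfl
    · exact mem_filter.2 ⟨mem_univ _, (mem_closure_mkInst _ _ _ _ _).2 ⟨_, _, rfl⟩⟩
    · obtain ⟨h1, h2, h3⟩ := blk_inj h
      exact Prod.ext (inj _ _ h1 h2) h3
    · obtain ⟨x, g, h⟩ := (mem_closure_mkInst _ _ _ _ _).1 (mem_filter.1 hτ).2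
      exact ⟨(x, g), by simp, h⟩

theorem exists_enum {T C : Type} [Fintype T] [DecidableEq C] (cd : T → C)
    (hc : Function.Injective cd) (L : List C) (hm : ∀ t, cd t ∈ L)
    (hl : L.length = Fintype.card T) (d : C) :
    ∃ e : T ≃ Fin L.length, ∀ t, L.getD (e t) d = cd t := by
  have h1 : ∀ t, L.getD (L.idxOf (cd t)) d = cd t := fun t => by
    rw [List.getD_eq_getElem _ _ (List.idxOf_lt_length_of_mem (hm t)), List.getElem_idxOf]
  refine ⟨Equiv.ofBijective (fun t => ⟨L.idxOf (cd t), List.idxOf_lt_length_of_mem (hm t)⟩)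
    ((Fintype.bijective_iff_injective_and_card _).2 ⟨fun t t' h => hc ?_, by simp [hl]⟩), h1⟩
  rw [← h1 t, ← h1 t', Fin.mk.inj h]

/-- The group layer for structured sets of variables and blocks. -/
theorem group_layer (k : ℕ) {V B C : Type} [Fintype V] [Fintype B] [DecidableEq V]
    [DecidableEq C] (cv : V → C) (cb : B → C) (hv : Function.Injective cv)
    (hb : Function.Injective cb) (LV LB : List C) (mv : ∀ t, cv t ∈ LV) (mb : ∀ t, cb t ∈ LB)
    (lv : LV.length = Fintype.card V) (lb : LB.length = Fintype.card B) (d : C)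
    (al be : C → C → Bool)
    (hinj : ∀ x : V → ZMod 2, (∀ b, (∑ v, if be (cb b) (cv v) then x v else 0) = 0) →
      (∀ b, (∑ v, if al (cb b) (cv v) then x v else 0) = 0) → x = 0) :
    ∃ I : Inst, I.m = LB.length * 4 ∧ I.gens.length ≤ I.m ∧
      I.code = Enc.enc (LB.length * 4, gensL LB.length LV.length
        (fun b i => al (LB.getD b d) (LV.getD i d)) (fun b i => be (LB.getD b d) (LV.getD i d))) ∧
      I.val k = ∑ x : V → ZMod 2, ∏ b : B, wF k (∑ v, if al (cb b) (cv v) then x v else 0)
        (∑ v, if be (cb b) (cv v) then x v else 0) := by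
  obtain ⟨ev, hev⟩ := exists_enum cv hv LV mv lv d
  obtain ⟨eb, heb⟩ := exists_enum cb hb LB mb lb d
  have key : ∀ (a : C → C → Bool) (x : Fin LV.length → ZMod 2) (b : B),
      form (fun b i => a (LB.getD b d) (LV.getD i d)) x (eb b) =
        ∑ v, if a (cb b) (cv v) then x (ev v) else 0 := by
    intro a x b
    rw [form, ← ev.sum_comp]
    simp only [hev, heb]
  obtain ⟨h1, h2⟩ := mkInst_val k LB.length LV.length (fun b i => al (LB.getD b d) (LV.getD i d))
    (fun b i => be (LB.getD b d) (LV.getD i d)) fun x ha hb => by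
      have := hinj (x ∘ ev) (fun b => (key be x b).symm.trans (congrFun hb (eb b)))
        (fun b => (key al x b).symm.trans (congrFun ha (eb b)))
      funext i
      simpa using congrFun this (ev.symm i)
  refine ⟨mkInst _ _ _ _, rfl, h1, mkInst_code _ _ _ _, ?_⟩
  rw [h2, ← (Equiv.arrowCongr ev (Equiv.refl (ZMod 2))).sum_comp]
  refine sum_congr rfl fun x _ => ?_
  rw [← eb.prod_comp]
  refine prod_congr rfl fun b _ => ?_
  rw [key, key]
  simp

theorem gensL_pf {α : Type} [Enc α] {nb N : α → ℕ} {al be : α → ℕ → ℕ → Bool} (h1 : PF nb)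
    (h2 : PF N) (h3 : PF fun p : α × ℕ × ℕ => al p.1 p.2.1 p.2.2)
    (h4 : PF fun p : α × ℕ × ℕ => be p.1 p.2.1 p.2.2) :
    PF fun a => gensL (nb a) (N a) (al a) (be a) := by
  have h3' : PF fun p : (α × ℕ) × ℕ => al p.1.1 (p.2 / 4) p.1.2 :=
    h3.comp (g := fun p : (α × ℕ) × ℕ => (p.1.1, p.2 / 4, p.1.2)) (by fun_prop)
  have h4' : PF fun p : (α × ℕ) × ℕ => be p.1.1 (p.2 / 4) p.1.2 :=
    h4.comp (g := fun p : (α × ℕ) × ℕ => (p.1.1, p.2 / 4, p.1.2)) (by fun_prop)
  unfold gensL img
  refine PF.append (PF.map h2.range (PF.map (by fun_prop) ?_)) (by fun_prop)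
  refine PF.add (PF.add (PF.mul (PF.const _) (PF.mod (PF.add (by fun_prop)
    (PF.cond' h3' (PF.const _) (PF.const _))) (PF.const _))) (PF.mod (PF.add (by fun_prop)
    (PF.mul (PF.cond' h4' (PF.const _) (PF.const _)) (by fun_prop))) (PF.const _))) (by fun_prop)

end Pool.Agent.Lib.MP_3a8d2e_lc
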