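import Mathlib
import Pool.Agent.Lib.MP_3a8d2e_lc.Group
import Pool.Agent.Shared.Weil.Stepanov
import Pool.Agent.Shared.NP.CookLevin
import Pool.Agent.Lib.MP_3a8d2e_lc.Defs

-- part Pool.Agent.Lib.MP_3a8d2e_lc.Core
section

/-!
The partition function of the construction: summing out hidden bits and the two-phase expansion.
-/

set_option autoImplicit false

namespace Pool.Agent.Lib.MP_3a8d2e_lc

open Finset

theorem sum_pi_prod {ι κ : Type} [Fintype ι] [DecidableEq ι] [Fintype κ] (f : ι → κ → ℝ) :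
    ∑ x : ι → κ, ∏ i, f i (x i) = ∏ i, ∑ y, f i y := by
  rw [prod_univ_sum, Fintype.piFinset_univ]

theorem series (u : ZMod 2 → ℝ) (l : ℕ) : ∀ y : ZMod 2,
    ∑ h : Fin l → ZMod 2, (∏ j, u (h j)) * u (y + ∑ j, h j) =
      ((u 0 + u 1) ^ (l + 1) + (if y = 0 then 1 else -1) * (u 0 - u 1) ^ (l + 1)) / 2 := by
  induction l with
  | zero =>
    intro y
    rcases zmod2_cases y with rfl | rfl
    · simp
    · simp; ring
  | succ l ih =>
    intro y
    rw [← (Fin.consEquiv fun _ : Fin (l + 1) => ZMod 2).sum_comp, Fintype.sum_prod_type]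
    have e : ∀ a : ZMod 2, ∑ h : Fin l → ZMod 2,
        (∏ j, u ((Fin.consEquiv fun _ : Fin (l + 1) => ZMod 2) (a, h) j)) *
          u (y + ∑ j, (Fin.consEquiv fun _ : Fin (l + 1) => ZMod 2) (a, h) j) =
        u a * ∑ h : Fin l → ZMod 2, (∏ j, u (h j)) * u (y + a + ∑ j, h j) := by
      intro a
      rw [mul_sum]
      refine sum_congr rfl fun h _ => ?_
      simp [Fin.prod_univ_succ, Fin.sum_univ_succ, Fin.consEquiv, mul_assoc, add_assoc]
    simp only [e, ih]
    rw [sum_zmod2]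
    have h11 : (1 : ZMod 2) + 1 = 0 := by decide
    rcases zmod2_cases y with rfl | rfl <;> simp [h11] <;> ring

/-- The message bits of a vertex: two kinds of terminals and the remaining bits. -/
abbrev Msg (V : Type) (R e : ℕ) : Type := (V × Fin R) ⊕ (V × Fin R) ⊕ Fin e

/-- Regrouping the message bits. -/
def msgEquiv (V : Type) (R e : ℕ) : (V → Msg V R e → ZMod 2) ≃
    ((V × V × Fin R → ZMod 2 × ZMod 2) × (V × Fin e → ZMod 2)) where
  toFun m := (fun t => (m t.1 (Sum.inl (t.2.1, t.2.2)), m t.2.1 (Sum.inr (Sum.inl (t.1, t.2.2)))),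
    fun s => m s.1 (Sum.inr (Sum.inr s.2)))
  invFun z := fun v => Sum.elim (fun t => (z.1 (v, t.1, t.2)).1)
    (Sum.elim (fun t => (z.1 (t.1, v, t.2)).2) fun j => z.2 (v, j))
  left_inv m := by
    funext v i
    rcases i with ⟨w, r⟩ | ⟨w, r⟩ | j <;> rfl
  right_inv z := rfl

/-- The weight of a bit in each of the two phases. -/
noncomputable def om (s : Prop) [Decidable s] (y : ZMod 2) : ℝ := if s ∨ y = 0 then 1 else 0

theorem core {V : Type} [Fintype V] [DecidableEq V] (R e : ℕ) (E : V → V → ZMod 2 → ZMod 2 → ℝ)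
    (A B : ℝ) :
    ∑ m : V → Msg V R e → ZMod 2, (∏ v, (B + if m v = 0 then A else 0)) *
      ∏ t : V × V × Fin R, E t.1 t.2.1 (m t.1 (Sum.inl (t.2.1, t.2.2)))
        (m t.2.1 (Sum.inr (Sum.inl (t.1, t.2.2)))) =
    ∑ S : Finset V, (B * 2 ^ e) ^ S.card * A ^ (Fintype.card V - S.card) *
      ∏ u, ∏ v, (∑ y, ∑ y', om (u ∈ S) y * om (v ∈ S) y' * E u v y y') ^ R := by
  have h1 : ∀ m : V → Msg V R e → ZMod 2, (∏ v, (B + if m v = 0 then A else 0)) =
      ∑ S : Finset V, B ^ S.card * A ^ (Fintype.card V - S.card) *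
        ∏ v, ∏ i, om (v ∈ S) (m v i) := by
    intro m
    rw [prod_add, powerset_univ]
    refine sum_congr rfl fun S _ => ?_
    rw [prod_const, mul_assoc]
    congr 1
    rw [← prod_sdiff (subset_univ S), ← card_univ_sdiff, ← prod_const]
    rw [prod_eq_one (s := S) fun v hv => prod_eq_one fun i _ => by simp [om, hv], mul_one,
      ← prod_mul_distrib]
    refine prod_congr rfl fun v hv => ?_
    have hv' : v ∉ S := (mem_sdiff.1 hv).2
    by_cases h : m v = 0
    · simp [h, om]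
    · obtain ⟨i, hi⟩ := Function.ne_iff.1 h
      rw [if_neg h, prod_eq_zero (mem_univ i) (by simpa [om, hv'] using hi), mul_zero]
  simp only [h1, sum_mul]
  rw [sum_comm]
  refine sum_congr rfl fun S _ => ?_
  simp only [mul_assoc]
  rw [← mul_sum, ← mul_sum, mul_pow, mul_assoc, mul_left_comm ((2 ^ e) ^ _)]
  congr 2
  rw [← (msgEquiv V R e).symm.sum_comp, Fintype.sum_prod_type]
  have h2 : ∀ (y : V × V × Fin R → ZMod 2 × ZMod 2) (r : V × Fin e → ZMod 2),
      (∏ v, ∏ i, om (v ∈ S) ((msgEquiv V R e).symm (y, r) v i)) *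
      ∏ t : V × V × Fin R, E t.1 t.2.1 ((msgEquiv V R e).symm (y, r) t.1 (Sum.inl (t.2.1, t.2.2)))
        ((msgEquiv V R e).symm (y, r) t.2.1 (Sum.inr (Sum.inl (t.1, t.2.2)))) =
      (∏ t : V × V × Fin R, om (t.1 ∈ S) (y t).1 * (om (t.2.1 ∈ S) (y t).2 *
        E t.1 t.2.1 (y t).1 (y t).2)) * ∏ s : V × Fin e, om (s.1 ∈ S) (r s) := by
    intro y r
    simp only [msgEquiv, Equiv.coe_fn_symm_mk, Fintype.prod_sum_type, Sum.elim_inl, Sum.elim_inr,
      prod_mul_distrib, Fintype.prod_prod_type]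
    rw [prod_comm (f := fun v w => ∏ r, om (v ∈ S) (y (w, v, r)).2)]
    ring
  simp only [h2]
  rw [← sum_mul_sum, sum_pi_prod (fun (t : V × V × Fin R) (y : ZMod 2 × ZMod 2) =>
    om (t.1 ∈ S) y.1 * (om (t.2.1 ∈ S) y.2 * E t.1 t.2.1 y.1 y.2)),
    sum_pi_prod (fun (s : V × Fin e) (y : ZMod 2) => om (s.1 ∈ S) y), mul_comm]
  congr 1
  · rw [Fintype.prod_prod_type]
    dsimp only
    rw [← prod_sdiff (subset_univ S), prod_eq_one (s := univ \ S) fun v hv => by
      have hv' : v ∉ S := (mem_sdiff.1 hv).2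
      simp [om, hv'], one_mul, ← prod_const]
    refine prod_congr rfl fun v hv => ?_
    simp [om, hv]
  · simp only [Fintype.prod_prod_type, Fintype.sum_prod_type]
    refine prod_congr rfl fun u _ => prod_congr rfl fun v _ => ?_
    rw [← Fin.prod_const]

/-- The interaction of two vertices. -/
noncomputable def inter (k : ℕ) (adj : Bool) (y y' : ZMod 2) : ℝ :=
  (wF k y (if adj then y' else 0) : ℝ) * wF k 0 (if adj then 0 else y')

/-- The weight of the centre. -/
def cA (k : ℕ) : ℕ := k ^ 4 + k ^ 2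
/-- The gain of a pair of free terminals, times the square of `cA`. -/
def cG (k : ℕ) : ℕ := (cA k + 2 * k ^ 3) * (cA k + 2 * k ^ 2)
/-- The penalty of an edge. -/
noncomputable def tau (k : ℕ) : ℝ := cA k * (cA k + 2 * k ^ 3 + 2 * k ^ 2 + 2 * k) / cG k

theorem cA_ge {k : ℕ} (hk : 2 ≤ k) : 16 ≤ cA k := by
  have : 2 ^ 4 ≤ k ^ 4 := Nat.pow_le_pow_left hk 4
  unfold cA; omega

theorem cG_pos {k : ℕ} (hk : 2 ≤ k) : 0 < cG k := by
  have := cA_ge hk
  unfold cG; positivity

theorem cG_le {k : ℕ} (hk : 2 ≤ k) : cG k ≤ 4 * cA k ^ 2 := by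
  have h1 : 2 * k ^ 3 ≤ cA k := by
    have : 2 * k ^ 3 ≤ k * k ^ 3 := Nat.mul_le_mul_right _ hk
    have e : k * k ^ 3 = k ^ 4 := by ring
    unfold cA; omega
  have h2 : k ^ 2 ≤ k ^ 3 := Nat.pow_le_pow_right (by omega) (by omega)
  calc cG k ≤ (cA k + cA k) * (cA k + cA k) := Nat.mul_le_mul (by omega) (by omega)
    _ = _ := by ring

theorem le_cG (k : ℕ) : cA k ^ 2 ≤ cG k := by
  unfold cG; rw [sq]; exact Nat.mul_le_mul (by omega) (by omega)

theorem tau_nonneg (k : ℕ) : 0 ≤ tau k := by unfold tau; positivity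

theorem tau_lt {k : ℕ} (hk : 2 ≤ k) : tau k < 1 := by
  have h : (0 : ℝ) < cG k := by exact_mod_cast cG_pos hk
  have h2 : (2 : ℝ) ≤ k := by exact_mod_cast hk
  rw [tau, div_lt_one h]
  simp only [cG, cA]
  push_cast
  have : (0 : ℝ) < k ^ 3 * (k ^ 2 - 1) := mul_pos (by positivity) (by nlinarith)
  nlinarith

theorem inter_sum {k : ℕ} (hk : 2 ≤ k) (adj : Bool) (s t : Prop) [Decidable s] [Decidable t] :
    ∑ y, ∑ y', om s y * om t y' * inter k adj y y' =
      (cA k : ℝ) ^ 2 * (if s then ((cA k : ℝ) + 2 * k ^ 2) / cA k else 1) *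
        (if t then ((cA k : ℝ) + 2 * k ^ 3) / cA k else 1) *
        if s ∧ t ∧ adj = true then tau k else 1 := by
  have h : (cA k : ℝ) ≠ 0 := by have := cA_ge hk; positivity
  have h1 : (cA k : ℝ) + 2 * k ^ 2 ≠ 0 := by have := cA_ge hk; positivity
  have h2 : (cA k : ℝ) + 2 * k ^ 3 ≠ 0 := by have := cA_ge hk; positivity
  have e : ((k : ℝ) ^ 4 + k ^ 2) = cA k := by simp [cA]
  simp only [sum_zmod2, om, inter, wF, tau, cG]
  by_cases hs : s <;> by_cases ht : t <;> cases adj <;> simp [hs, ht, e] <;> field_simp <;> ring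

/-- The penalty of a set of vertices. -/
noncomputable def pen {V : Type} [Fintype V] [DecidableEq V] (adj : V → V → Bool) (θ : ℝ)
    (S : Finset V) : ℝ :=
  ∏ u, ∏ v, if u ∈ S ∧ v ∈ S ∧ adj u v = true then θ else 1

theorem prod_ite_card {V : Type} [Fintype V] [DecidableEq V] (S : Finset V) (x : ℝ) :
    ∏ u, (if u ∈ S then x else 1) = x ^ S.card := by
  rw [prod_ite_mem, univ_inter, prod_const]

theorem core' {V : Type} [Fintype V] [DecidableEq V] {k : ℕ} (hk : 2 ≤ k) (R e : ℕ)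
    (adj : V → V → Bool) (A B : ℝ) (hA : A ≠ 0) :
    ∑ m : V → Msg V R e → ZMod 2, (∏ v, (B + if m v = 0 then A else 0)) *
      ∏ t : V × V × Fin R, inter k (adj t.1 t.2.1) (m t.1 (Sum.inl (t.2.1, t.2.2)))
        (m t.2.1 (Sum.inr (Sum.inl (t.1, t.2.2)))) =
    A ^ Fintype.card V * (cA k : ℝ) ^ (2 * (Fintype.card V * Fintype.card V * R)) *
      ∑ S : Finset V, (B * 2 ^ e * (cG k : ℝ) ^ (Fintype.card V * R) /
        (A * (cA k : ℝ) ^ (2 * (Fintype.card V * R)))) ^ S.card * pen adj (tau k ^ R) S := by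
  have h : (cA k : ℝ) ≠ 0 := by have := cA_ge hk; positivity
  rw [core R e (fun u v => inter k (adj u v)), mul_sum]
  refine sum_congr rfl fun S _ => ?_
  simp only [inter_sum hk, mul_pow, prod_mul_distrib, prod_const, card_univ, ite_pow, one_pow,
    prod_ite_card]
  unfold pen
  generalize (∏ u, ∏ v, if u ∈ S ∧ v ∈ S ∧ adj u v = true then tau k ^ R else 1) = T
  obtain ⟨j, hj⟩ := Nat.exists_eq_add_of_le (card_le_univ S)
  have eG : (cG k : ℝ) = (cA k + 2 * k ^ 3) * (cA k + 2 * k ^ 2) := by simp [cG]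
  rw [eG]
  generalize (cA k : ℝ) + 2 * k ^ 3 = X
  generalize (cA k : ℝ) + 2 * k ^ 2 = Y
  rw [hj, Nat.add_sub_cancel_left]
  generalize S.card = s
  simp only [div_pow, mul_pow, ← pow_mul]
  field_simp
  ring

theorem pen_nonneg {V : Type} [Fintype V] [DecidableEq V] (adj : V → V → Bool) {θ : ℝ}
    (h : 0 ≤ θ) (S : Finset V) : 0 ≤ pen adj θ S :=
  prod_nonneg fun _ _ => prod_nonneg fun _ _ => by split_ifs <;> positivity

theorem pen_indep {V : Type} [Fintype V] [DecidableEq V] (adj : V → V → Bool) (θ : ℝ)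
    {S : Finset V} (h : ∀ u ∈ S, ∀ v ∈ S, adj u v = false) : pen adj θ S = 1 :=
  prod_eq_one fun u _ => prod_eq_one fun v _ => if_neg fun h' => by
    have := h u h'.1 v h'.2.1
    rw [h'.2.2] at this
    exact absurd this (by simp)

theorem pen_le {V : Type} [Fintype V] [DecidableEq V] (adj : V → V → Bool) {θ : ℝ}
    (h0 : 0 ≤ θ) (h1 : θ ≤ 1) {S : Finset V} (h : ¬ ∀ u ∈ S, ∀ v ∈ S, adj u v = false) :
    pen adj θ S ≤ θ := by
  push Not at h
  obtain ⟨u, hu, v, hv, h⟩ := h
  rw [pen, ← Fintype.prod_prod_type', ← mul_prod_erase _ _ (mem_univ (u, v)),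
    if_pos ⟨hu, hv, by simpa using h⟩]
  refine mul_le_of_le_one_right h0 (prod_le_one (fun _ _ => ?_) fun _ _ => ?_) <;>
    split_ifs <;> linarith

theorem count_bound {V : Type} [Fintype V] [DecidableEq V] (adj : V → V → Bool) {θ μ : ℝ}
    (mx : ℕ) (hmx : ∀ S : Finset V, (∀ u ∈ S, ∀ v ∈ S, adj u v = false) → S.card ≤ mx)
    (h0 : 0 ≤ θ) (h1 : 2 ^ (Fintype.card V + 4) ≤ μ)
    (h2 : μ ^ Fintype.card V * θ * 2 ^ (Fintype.card V + 4) ≤ 1) :
    ((univ.filter fun S : Finset V =>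
      (∀ u ∈ S, ∀ v ∈ S, adj u v = false) ∧ S.card = mx).card : ℝ) * μ ^ mx ≤
      ∑ S : Finset V, μ ^ S.card * pen adj θ S ∧
    ∑ S : Finset V, μ ^ S.card * pen adj θ S ≤ (((univ.filter fun S : Finset V =>
      (∀ u ∈ S, ∀ v ∈ S, adj u v = false) ∧ S.card = mx).card : ℝ) + 1 / 16) * μ ^ mx := by
  have hp : (1 : ℝ) ≤ 2 ^ (Fintype.card V + 4) := one_le_pow₀ (by norm_num)
  have hμ : 1 ≤ μ := hp.trans h1
  have hθ : θ ≤ 1 := by
    have := one_le_pow₀ (n := Fintype.card V) hμ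
    have h3 : 1 * θ * 1 ≤ μ ^ Fintype.card V * θ * 2 ^ (Fintype.card V + 4) := by gcongr
    linarith
  have hm : 1 ≤ μ ^ mx := one_le_pow₀ hμ
  rw [card_filter]
  push_cast
  constructor
  · rw [sum_mul]
    refine sum_le_sum fun S _ => ?_
    split_ifs with h
    · rw [pen_indep adj θ h.1, h.2, mul_comm]
    · have := pen_nonneg adj h0 S
      rw [zero_mul]
      positivity
  · have e : (1 / 16 : ℝ) = ∑ _S : Finset V, 1 / 2 ^ (Fintype.card V + 4) := by
      rw [sum_const, card_univ, Fintype.card_finset, nsmul_eq_mul, pow_add]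
      push_cast
      field_simp
      norm_num
    rw [e, ← sum_add_distrib, sum_mul]
    refine sum_le_sum fun S _ => ?_
    split_ifs with h
    · rw [pen_indep adj θ h.1, h.2, mul_comm]
      gcongr
      exact le_add_of_nonneg_right (by positivity)
    · rw [zero_add, one_div, ← div_eq_inv_mul, le_div_iff₀ (by positivity)]
      by_cases hS : ∀ u ∈ S, ∀ v ∈ S, adj u v = false
      · have h3 : S.card + 1 ≤ mx := lt_of_le_of_ne (hmx S hS) fun e => h ⟨hS, e⟩
        rw [pen_indep adj θ hS, mul_one]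
        calc μ ^ S.card * 2 ^ (Fintype.card V + 4) ≤ μ ^ S.card * μ := by gcongr
          _ = μ ^ (S.card + 1) := (pow_succ _ _).symm
          _ ≤ μ ^ mx := pow_le_pow_right₀ hμ h3
      · refine le_trans ?_ (h2.trans hm)
        have := pen_le adj h0 hθ hS
        have := pen_nonneg adj h0 S
        have := pow_le_pow_right₀ hμ (card_le_univ S)
        gcongr

end Pool.Agent.Lib.MP_3a8d2e_lc
end

-- part Pool.Agent.Lib.MP_3a8d2e_lc.Code
section

/-!
The quadratic residue construction of a balanced binary code.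
-/

set_option autoImplicit false

namespace Pool.Agent.Lib.MP_3a8d2e_lc

open Finset Polynomial Pool.Agent.Shared.PolyTime

/-- `y` is not a square modulo `p`. -/
def nr (p y : ℕ) : Bool := !((List.range p).any fun j => j * j % p == y % p)

@[fun_prop] theorem nr_pf {α : Type} [Enc α] {p y : α → ℕ} (hp : PF p) (hy : PF y) :
    PF fun a => nr (p a) (y a) := by
  have h : PF fun z : ℕ × ℕ => nr z.1 z.2 := by unfold nr; fun_prop
  exact h.comp (hp.pair hy)

theorem nr_iff (p y : ℕ) [Fact p.Prime] : nr p y = true ↔ ¬ IsSquare (y : ZMod p) := by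
  simp only [nr, Bool.not_eq_true', ← Bool.not_eq_true, List.any_eq_true, List.mem_range,
    beq_iff_eq]
  refine not_congr ⟨?_, ?_⟩
  · rintro ⟨j, -, h⟩
    refine ⟨j, ?_⟩
    rw [← Nat.cast_mul]
    exact ((ZMod.natCast_eq_natCast_iff' _ _ _).2 h).symm
  · rintro ⟨r, h⟩
    refine ⟨r.val, r.val_lt, (ZMod.natCast_eq_natCast_iff' _ _ _).1 ?_⟩
    rw [h]
    simp

/-- The sign character. -/
def sg (y : ZMod 2) : ℤ := if y = 0 then 1 else -1

theorem sg_add (x y : ZMod 2) : sg (x + y) = sg x * sg y := by revert x y; decide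

theorem sg_sum {ι : Type} (s : Finset ι) (f : ι → ZMod 2) :
    sg (∑ i ∈ s, f i) = ∏ i ∈ s, sg (f i) := by
  classical
  induction s using Finset.induction_on with
  | empty => rfl
  | insert a s ha ih => rw [sum_insert ha, prod_insert ha, sg_add, ih]

/-- The check bit number `z`. -/
def chk {M : Type} [Fintype M] (idx : M → ℕ) (p : ℕ) (m : M → ZMod 2) (z : ℕ) : ZMod 2 :=
  ∑ i, if nr p (z + idx i) then m i else 0

/-- The weight of a code word. -/
def wt {M : Type} [Fintype M] (idx : M → ℕ) (p : ℕ) (m : M → ZMod 2) : ℕ :=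
  (univ.filter fun z : Fin p => chk idx p m z ≠ 0).card

theorem code_balanced {M : Type} [Fintype M] (idx : M → ℕ) (p : ℕ) (hp : p.Prime)
    (hi : Function.Injective idx) (hlt : ∀ i, idx i < p) (hM : Fintype.card M < p.sqrt)
    (h6 : 6 ≤ p.sqrt) (m : M → ZMod 2) (hm : m ≠ 0) :
    p ≤ 2 * wt idx p m + 16 * Fintype.card M * p.sqrt ∧
      2 * wt idx p m ≤ p + 16 * Fintype.card M * p.sqrt := by
  classical
  have : Fact p.Prime := ⟨hp⟩
  have hodd : p % 2 = 1 := by
    rcases hp.eq_two_or_odd with h | h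
    · have := Nat.sqrt_le_self p
      omega
    · exact h
  set X0 : Finset M := univ.filter fun i => m i ≠ 0 with hX
  have hX0 : 0 < X0.card := by
    obtain ⟨i, hi⟩ := Function.ne_iff.1 hm
    exact card_pos.2 ⟨i, by simpa [hX] using hi⟩
  have hX1 : X0.card ≤ Fintype.card M := card_le_univ _
  have hinj : Function.Injective fun i => ((idx i : ℕ) : ZMod p) := fun i j h => hi (by
    have := (ZMod.natCast_eq_natCast_iff' _ _ _).1 h
    rwa [Nat.mod_eq_of_lt (hlt i), Nat.mod_eq_of_lt (hlt j)] at this)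
  set f : (ZMod p)[X] := ∏ i ∈ X0, (X - C (-((idx i : ℕ) : ZMod p))) with hf
  have hsep : f.Separable := separable_prod_X_sub_C_iff'.2 fun i _ j _ h => hinj (neg_injective h)
  have hdeg : f.natDegree = X0.card := by
    rw [hf, natDegree_prod_of_monic _ _ fun i _ => monic_X_sub_C _]
    simp only [natDegree_X_sub_C, sum_const, smul_eq_mul, mul_one]
  have hW := Pool.Agent.Shared.Weil.abs_quadChar_sum_le (F := ZMod p) (q := p) (ZMod.card p) hodd
    hsep (by omega) (by omega) h6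
  have hbij : Function.Bijective fun z : Fin p => ((z : ℕ) : ZMod p) :=
    (Fintype.bijective_iff_injective_and_card _).2 ⟨fun i j h => Fin.ext (by
      have := (ZMod.natCast_eq_natCast_iff' _ _ _).1 h
      rwa [Nat.mod_eq_of_lt i.2, Nat.mod_eq_of_lt j.2] at this), by simp⟩
  rw [← hbij.sum_comp, hdeg] at hW
  have hev : ∀ z : Fin p, f.eval ((z : ℕ) : ZMod p) = ∏ i ∈ X0, (((z + idx i : ℕ)) : ZMod p) := by
    intro z
    simp [hf, eval_prod]
  have h1 : ∀ z : Fin p, |sg (chk idx p m z) - quadraticChar (ZMod p) (f.eval ((z : ℕ) : ZMod p))|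
      ≤ if f.eval ((z : ℕ) : ZMod p) = 0 then 1 else 0 := by
    intro z
    split_ifs with h
    · rw [h, quadraticChar_zero, sub_zero]
      unfold sg
      split_ifs <;> simp
    · rw [abs_nonpos_iff, sub_eq_zero, hev, map_prod, chk, sg_sum, hX, prod_filter]
      refine prod_congr rfl fun i _ => ?_
      rcases zmod2_cases (m i) with h0 | h0
      · simp [h0, sg]
      · have h2 : (((z + idx i : ℕ)) : ZMod p) ≠ 0 := by
          rw [hev] at h
          exact prod_ne_zero_iff.1 h i (by simp [hX, h0])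
        rw [h0, if_pos one_ne_zero]
        by_cases h3 : nr p (z + idx i) = true
        · rw [if_pos h3, quadraticChar_neg_one_iff_not_isSquare.2 ((nr_iff _ _).1 h3)]
          rfl
        · rw [if_neg h3, (quadraticChar_one_iff_isSquare h2).2 (by rwa [nr_iff, not_not] at h3)]
          rfl
  have h2 : (univ.filter fun z : Fin p => f.eval ((z : ℕ) : ZMod p) = 0).card ≤ X0.card := by
    rw [← hdeg]
    refine le_trans ?_ ((Multiset.toFinset_card_le _).trans (card_roots' f))
    refine card_le_card_of_injOn (fun z => ((z : ℕ) : ZMod p)) (fun z hz => ?_) hbij.1.injOn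
    simp only [coe_filter, mem_univ, true_and, Set.mem_ofPred_eq] at hz
    simp [hsep.ne_zero, hz]
  have h3 : |∑ z : Fin p, sg (chk idx p m z) -
      ∑ z : Fin p, quadraticChar (ZMod p) (f.eval ((z : ℕ) : ZMod p))| ≤ X0.card := by
    rw [← sum_sub_distrib]
    refine (abs_sum_le_sum_abs _ _).trans ((sum_le_sum fun z _ => h1 z).trans ?_)
    rw [sum_boole]
    exact_mod_cast h2
  have h4 : ∑ z : Fin p, sg (chk idx p m z) = p - 2 * wt idx p m := by
    have e : ∀ y, sg y = 1 - 2 * if y ≠ 0 then 1 else 0 := by decide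
    simp only [e, sum_sub_distrib, ← mul_sum, sum_boole, wt]
    simp
  rw [h4] at h3
  have h5 : (15 * X0.card * p.sqrt + X0.card : ℤ) ≤ 16 * Fintype.card M * p.sqrt := by
    have : 15 * X0.card * p.sqrt + X0.card ≤ 16 * Fintype.card M * p.sqrt := by nlinarith
    exact_mod_cast this
  have h6 := abs_le.1 h3
  have h7 := abs_le.1 hW
  constructor <;> zify <;> linarith [h6.1, h6.2, h7.1, h7.2]

theorem prod_wt {M : Type} [Fintype M] (idx : M → ℕ) (p : ℕ) (m : M → ZMod 2) (x y : ℝ) :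
    ∏ z : Fin p, (if chk idx p m z = 0 then x else y) = x ^ (p - wt idx p m) * y ^ wt idx p m := by
  rw [prod_ite, prod_const, prod_const, wt]
  congr 2
  have := card_filter_add_card_filter_not (s := (univ : Finset (Fin p)))
    fun z : Fin p => chk idx p m z = 0
  simp only [card_univ, Fintype.card_fin] at this
  simp only [ne_eq]
  omega

end Pool.Agent.Lib.MP_3a8d2e_lc
end

-- part Pool.Agent.Lib.MP_3a8d2e_lc.Gadget
section

/-!
The permutation group attached to a digraph and its partition function.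
-/

set_option autoImplicit false

namespace Pool.Agent.Lib.MP_3a8d2e_lc

open Finset Pool.Agent.Shared.PolyTime

/-- Codes of variables and blocks. -/
abbrev Cd : Type := ℕ × ℕ × ℕ × ℕ

/-- Equality test for codes. -/
def eq4 (X Y : Cd) : Bool :=
  X.1 == Y.1 && X.2.1 == Y.2.1 && X.2.2.1 == Y.2.2.1 && X.2.2.2 == Y.2.2.2

theorem eq4_iff (X Y : Cd) : eq4 X Y = true ↔ X = Y := by
  rcases X with ⟨a, b, c, d⟩
  rcases Y with ⟨a', b', c', d'⟩
  simp [eq4, and_assoc]

/-- The variables. -/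
abbrev Var (n R e p l : ℕ) : Type := Fin n × (Msg (Fin n) R e ⊕ (Fin p × Fin l))

instance decVar (n R e p l : ℕ) : DecidableEq (Var n R e p l) := inferInstance

/-- The blocks. -/
abbrev Blk (n R p l : ℕ) : Type :=
  ((Fin n × Fin p) × Option (Fin l)) ⊕ ((Fin n × Fin n × Fin R) × Bool)

/-- Codes of message bits. -/
def cm {n R e : ℕ} : Msg (Fin n) R e → ℕ × ℕ × ℕ
  | Sum.inl t => (0, t.1, t.2)
  | Sum.inr (Sum.inl t) => (1, t.1, t.2)
  | Sum.inr (Sum.inr j) => (2, j, 0)

/-- Codes of variables. -/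
def cv {n R e p l : ℕ} : Var n R e p l → Cd
  | (v, Sum.inl i) => (v, cm i)
  | (v, Sum.inr t) => (v, 3, t.1, t.2)

/-- Codes of blocks. -/
def cb {n R p l : ℕ} : Blk n R p l → Cd
  | Sum.inl (t, some j) => (0, t.1, t.2, j)
  | Sum.inl (t, none) => (1, t.1, t.2, 0)
  | Sum.inr (t, false) => (2, t.1, t.2.1, t.2.2)
  | Sum.inr (t, true) => (3, t.1, t.2.1, t.2.2)

theorem cv_inj {n R e p l : ℕ} : Function.Injective (cv : Var n R e p l → Cd) := by
  rintro ⟨v, (⟨a, b⟩ | ⟨a, b⟩ | a) | ⟨a, b⟩⟩ ⟨v', (⟨a', b'⟩ | ⟨a', b'⟩ | a') | ⟨a', b'⟩⟩ h <;>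
    simp_all [cv, cm, Fin.val_inj]

theorem cb_inj {n R p l : ℕ} : Function.Injective (cb : Blk n R p l → Cd) := by
  rintro (⟨⟨a, b⟩, _ | c⟩ | ⟨⟨a, b, c⟩, _ | _⟩) (⟨⟨a', b'⟩, _ | c'⟩ | ⟨⟨a', b', c'⟩, _ | _⟩) h <;>
    simp_all [cb, Fin.val_inj]

/-- The position of a message bit. -/
def idxC (n R : ℕ) (X : ℕ × ℕ × ℕ) : ℕ :=
  cond (X.1 == 2) (2 * (n * R) + X.2.1) (X.1 * (n * R) + (X.2.2 + R * X.2.1))

/-- The position of a message bit. -/
def idx {n R e : ℕ} (i : Msg (Fin n) R e) : ℕ := idxC n R (cm i)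

theorem idx_lt {n R e : ℕ} (i : Msg (Fin n) R e) : idx i < 2 * (n * R) + e := by
  rcases i with t | t | j
  · have := (finProdFinEquiv t).2
    simp [idx, idxC, cm] at this ⊢; omega
  · have := (finProdFinEquiv t).2
    simp [idx, idxC, cm] at this ⊢; omega
  · simp [idx, idxC, cm]

theorem idx_inj {n R e : ℕ} : Function.Injective (idx : Msg (Fin n) R e → ℕ) := by
  have h1 : ∀ t : Fin n × Fin R, (t.2 : ℕ) + R * t.1 < n * R := fun t => (finProdFinEquiv t).2
  have h2 : ∀ t t' : Fin n × Fin R, (t.2 : ℕ) + R * t.1 = (t'.2 : ℕ) + R * t'.1 → t = t' :=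
    fun t t' h => finProdFinEquiv.injective (Fin.ext h)
  rintro (t | t | j) (t' | t' | j') h <;> simp only [idx, idxC, cm] at h <;> simp at h
  · rw [h2 t t' h]
  · have := h1 t; omega
  · have := h1 t; omega
  · have := h1 t'; omega
  · rw [h2 t t' h]
  · have := h1 t; omega
  · have := h1 t'; omega
  · have := h1 t'; omega
  · rw [Fin.ext h]

theorem card_msg (n R e : ℕ) : Fintype.card (Msg (Fin n) R e) = 2 * (n * R) + e := by
  simp; omega

/-- The table of the first forms. -/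
def alC (B X : Cd) : Bool := B.1 == 2 && eq4 X (B.2.1, 0, B.2.2.1, B.2.2.2)

/-- The table of the second forms. -/
def beC (n R p : ℕ) (adj : ℕ → ℕ → Bool) (B X : Cd) : Bool :=
  cond (B.1 == 0) (eq4 X (B.2.1, 3, B.2.2.1, B.2.2.2))
    (cond (B.1 == 1)
      (X.1 == B.2.1 && cond (X.2.1 == 3) (X.2.2.1 == B.2.2.1) (nr p (B.2.2.1 + idxC n R X.2)))
      (((B.1 == 2) == adj B.2.1 B.2.2.1) && eq4 X (B.2.2.1, 1, B.2.1, B.2.2.2)))

/-- A rectangular list of codes. -/
def grid (v κ A B : ℕ) : List Cd :=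
  (List.range A).flatMap fun a => (List.range B).map fun b => (v, κ, a, b)

theorem mem_grid {v κ A B a b : ℕ} (ha : a < A) (hb : b < B) : (v, κ, a, b) ∈ grid v κ A B := by
  simp [grid, ha, hb]

theorem length_grid (v κ A B : ℕ) : (grid v κ A B).length = A * B := by
  simp [grid, List.length_flatMap]

/-- The list of the variables. -/
def LV (n R e p l : ℕ) : List Cd :=
  (List.range n).flatMap fun v => grid v 0 n R ++ grid v 1 n R ++ grid v 2 e 1 ++ grid v 3 p l

/-- The list of the blocks. -/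
def LB (n R p l : ℕ) : List Cd :=
  (List.range n).flatMap fun v => grid 0 v p l ++ grid 1 v p 1 ++ grid 2 v n R ++ grid 3 v n R

theorem mem_LV {n R e p l : ℕ} (t : Var n R e p l) : cv t ∈ LV n R e p l := by
  refine List.mem_flatMap.2 ⟨t.1, List.mem_range.2 t.1.2, ?_⟩
  rcases t with ⟨v, (⟨a, b⟩ | ⟨a, b⟩ | a) | ⟨a, b⟩⟩ <;>
    simp only [cv, cm, List.mem_append]
  · exact Or.inl (Or.inl (Or.inl (mem_grid a.2 b.2)))
  · exact Or.inl (Or.inl (Or.inr (mem_grid a.2 b.2)))
  · exact Or.inl (Or.inr (mem_grid a.2 Nat.one_pos))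
  · exact Or.inr (mem_grid a.2 b.2)

theorem mem_LB {n R p l : ℕ} (t : Blk n R p l) : cb t ∈ LB n R p l := by
  rcases t with ⟨⟨v, a⟩, _ | b⟩ | ⟨⟨v, a, b⟩, _ | _⟩ <;>
    refine List.mem_flatMap.2 ⟨v, List.mem_range.2 v.2, ?_⟩ <;>
    simp only [cb, List.mem_append]
  · exact Or.inl (Or.inl (Or.inr (mem_grid a.2 Nat.one_pos)))
  · exact Or.inl (Or.inl (Or.inl (mem_grid a.2 b.2)))
  · exact Or.inl (Or.inr (mem_grid a.2 b.2))
  · exact Or.inr (mem_grid a.2 b.2)

theorem length_LV (n R e p l : ℕ) : (LV n R e p l).length = Fintype.card (Var n R e p l) := by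
  simp [LV, List.length_flatMap, length_grid]
  exact Or.inl (by ring)

theorem length_LB (n R p l : ℕ) : (LB n R p l).length = Fintype.card (Blk n R p l) := by
  simp [LB, List.length_flatMap, length_grid]; ring

theorem sum_eq4 {n R e p l : ℕ} (x : Var n R e p l → ZMod 2) (t : Var n R e p l) :
    (∑ v, if eq4 (cv v) (cv t) then x v else 0) = x t := by
  simp only [eq4_iff, cv_inj.eq_iff]
  simp

section forms
variable {n R e p l : ℕ} (adj : ℕ → ℕ → Bool) (x : Var n R e p l → ZMod 2)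

theorem al_inl (t : (Fin n × Fin p) × Option (Fin l)) :
    (∑ v, if alC (cb (Sum.inl t : Blk n R p l)) (cv v) then x v else 0) = 0 := by
  rcases t with ⟨t, _ | j⟩ <;> simp [alC, cb]

theorem al_true (t : Fin n × Fin n × Fin R) :
    (∑ v, if alC (cb (Sum.inr (t, true) : Blk n R p l)) (cv v) then x v else 0) = 0 := by
  simp [alC, cb]

theorem al_false (t : Fin n × Fin n × Fin R) :
    (∑ v, if alC (cb (Sum.inr (t, false) : Blk n R p l)) (cv v) then x v else 0) =
      x (t.1, Sum.inl (Sum.inl (t.2.1, t.2.2))) :=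
  sum_eq4 x (t.1, Sum.inl (Sum.inl (t.2.1, t.2.2)))

theorem be_some (t : Fin n × Fin p) (j : Fin l) :
    (∑ v, if beC n R p adj (cb (Sum.inl (t, some j) : Blk n R p l)) (cv v) then x v else 0) =
      x (t.1, Sum.inr (t.2, j)) :=
  sum_eq4 x (t.1, Sum.inr (t.2, j))

theorem be_none (t : Fin n × Fin p) :
    (∑ v, if beC n R p adj (cb (Sum.inl (t, none) : Blk n R p l)) (cv v) then x v else 0) =
      chk idx p (fun i => x (t.1, Sum.inl i)) t.2 + ∑ j, x (t.1, Sum.inr (t.2, j)) := by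
  rw [Fintype.sum_prod_type, sum_eq_single t.1, Fintype.sum_sum_type]
  · congr 1
    · refine sum_congr rfl fun i _ => ?_
      rcases i with a | a | a <;> simp [beC, cb, cv, cm, idx]
    · rw [Fintype.sum_prod_type, sum_eq_single t.2]
      · simp [beC, cb, cv]
      · intro z _ hz
        simp [beC, cb, cv, Fin.val_inj, hz]
      · simp
  · intro v _ hv
    refine sum_eq_zero fun i _ => ?_
    rcases i with a | a <;> simp [beC, cb, cv, Fin.val_inj, hv]
  · simp

theorem be_inr (t : Fin n × Fin n × Fin R) (s : Bool) :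
    (∑ v, if beC n R p adj (cb (Sum.inr (t, s) : Blk n R p l)) (cv v) then x v else 0) =
      if adj t.1 t.2.1 = !s then x (t.2.1, Sum.inl (Sum.inr (Sum.inl (t.1, t.2.2)))) else 0 := by
  have := sum_eq4 x (t.2.1, Sum.inl (Sum.inr (Sum.inl (t.1, t.2.2))))
  cases s <;> cases h : adj t.1 t.2.1 <;> simp [beC, cb, h] <;> exact this

end forms

/-- Separating message bits and hidden bits. -/
def varEquiv (n R e p l : ℕ) : (Var n R e p l → ZMod 2) ≃
    ((Fin n → Msg (Fin n) R e → ZMod 2) × (Fin n × Fin p → Fin l → ZMod 2)) where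
  toFun x := (fun v i => x (v, Sum.inl i), fun t j => x (t.1, Sum.inr (t.2, j)))
  invFun z := fun t => Sum.elim (fun i => z.1 t.1 i) (fun s => z.2 (t.1, s.1) s.2) t.2
  left_inv x := by
    funext t
    rcases t with ⟨v, i | s⟩ <;> rfl
  right_inv z := rfl

/-- Twice the weight of a satisfied check. -/
def w0 (k l : ℕ) : ℕ := (cA k + 2 * k ^ 3) ^ (l + 1) + (cA k - 2 * k ^ 3) ^ (l + 1)

/-- Twice the weight of a violated check. -/
def w1 (k l : ℕ) : ℕ := (cA k + 2 * k ^ 3) ^ (l + 1) - (cA k - 2 * k ^ 3) ^ (l + 1)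

theorem two_cube_le {k : ℕ} (hk : 2 ≤ k) : 2 * k ^ 3 ≤ cA k := by
  have : 2 * k ^ 3 ≤ k * k ^ 3 := Nat.mul_le_mul_right _ hk
  have e : k * k ^ 3 = k ^ 4 := by ring
  unfold cA; omega

theorem w0_cast {k : ℕ} (hk : 2 ≤ k) (l : ℕ) : (w0 k l : ℝ) =
    ((cA k : ℝ) + 2 * k ^ 3) ^ (l + 1) + ((cA k : ℝ) - 2 * k ^ 3) ^ (l + 1) := by
  simp [w0, Nat.cast_sub (two_cube_le hk)]

theorem w1_cast {k : ℕ} (hk : 2 ≤ k) (l : ℕ) : (w1 k l : ℝ) =
    ((cA k : ℝ) + 2 * k ^ 3) ^ (l + 1) - ((cA k : ℝ) - 2 * k ^ 3) ^ (l + 1) := by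
  rw [w1, Nat.cast_sub (Nat.pow_le_pow_left (by omega) _)]
  simp [Nat.cast_sub (two_cube_le hk)]

theorem two_le_w1 {k : ℕ} (hk : 2 ≤ k) (l : ℕ) : 2 ≤ w1 k l := by
  have h1 : 1 ≤ k ^ 3 := Nat.one_le_pow _ _ (by omega)
  have h2 := two_cube_le hk
  have h3 : (cA k - 2 * k ^ 3 + 2) ^ (l + 1) ≤ (cA k + 2 * k ^ 3) ^ (l + 1) :=
    Nat.pow_le_pow_left (by omega) _
  have h4 := pow_add_pow_le' (Nat.zero_le (cA k - 2 * k ^ 3)) (Nat.zero_le 2) (n := l + 1)
  have h5 : (cA k - 2 * k ^ 3) ^ (l + 1) + 2 ^ (l + 1) ≤ (cA k - 2 * k ^ 3 + 2) ^ (l + 1) :=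
    pow_add_pow_le (Nat.zero_le _) (Nat.zero_le _) (by omega)
  have h6 : 2 ^ 1 ≤ 2 ^ (l + 1) := Nat.pow_le_pow_right (by omega) (by omega)
  unfold w1; omega

theorem w1_le_w0 (k l : ℕ) : w1 k l ≤ w0 k l := by unfold w0 w1; omega

/-- The list form of the instance. -/
def instL (n R e p l : ℕ) (adj : ℕ → ℕ → Bool) : ℕ × List (List ℕ) :=
  ((LB n R p l).length * 4, gensL (LB n R p l).length (LV n R e p l).length
    (fun b i => alC ((LB n R p l).getD b (0, 0, 0, 0)) ((LV n R e p l).getD i (0, 0, 0, 0)))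
    (fun b i => beC n R p adj ((LB n R p l).getD b (0, 0, 0, 0))
      ((LV n R e p l).getD i (0, 0, 0, 0))))

theorem gadget_val {k : ℕ} (hk : 2 ≤ k) (n R e p l : ℕ) (adj : ℕ → ℕ → Bool)
    (hc : ∀ m : Msg (Fin n) R e → ZMod 2, wt idx p m = 0 → m = 0) :
    ∃ I : Inst, I.gens.length ≤ I.m ∧ I.code = Enc.enc (instL n R e p l adj) ∧
      I.m = (instL n R e p l adj).1 ∧
      (I.val k : ℝ) = ∑ m : Fin n → Msg (Fin n) R e → ZMod 2,
        (∏ v, ((w0 k l : ℝ) / 2) ^ (p - wt idx p (m v)) * ((w1 k l : ℝ) / 2) ^ wt idx p (m v)) *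
        ∏ t : Fin n × Fin n × Fin R, inter k (adj t.1 t.2.1) (m t.1 (Sum.inl (t.2.1, t.2.2)))
          (m t.2.1 (Sum.inr (Sum.inl (t.1, t.2.2)))) := by
  obtain ⟨I, h1, h2, h3, h4⟩ := group_layer k (cv : Var n R e p l → Cd) (cb : Blk n R p l → Cd)
    cv_inj cb_inj (LV n R e p l) (LB n R p l) mem_LV mem_LB (length_LV ..) (length_LB ..)
    (0, 0, 0, 0) alC (beC n R p adj) fun x hb _ => by
      have h1 : ∀ v z j, x (v, Sum.inr (z, j)) = 0 := fun v z j =>
        (be_some adj x (v, z) j).symm.trans (hb _)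
      have h2 : ∀ v, (fun i => x (v, Sum.inl i)) = 0 := fun v => hc _ (by
        rw [wt, card_eq_zero, filter_eq_empty_iff]
        intro z _
        have := (be_none adj x (v, z)).symm.trans (hb _)
        simpa [h1] using this)
      funext t
      rcases t with ⟨v, i | ⟨z, j⟩⟩
      · exact congrFun (h2 v) i
      · exact h1 v z j
  refine ⟨I, h2, h3, h1, ?_⟩
  rw [h4]
  push_cast
  rw [← (varEquiv n R e p l).symm.sum_comp, Fintype.sum_prod_type]
  refine sum_congr rfl fun m _ => ?_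
  have key : ∀ h : Fin n × Fin p → Fin l → ZMod 2,
      ∏ b : Blk n R p l, (wF k
        (∑ v, if alC (cb b) (cv v) then (varEquiv n R e p l).symm (m, h) v else 0)
        (∑ v, if beC n R p adj (cb b) (cv v) then (varEquiv n R e p l).symm (m, h) v else 0) : ℝ) =
      (∏ t : Fin n × Fin p, (∏ j, (wF k 0 (h t j) : ℝ)) *
        wF k 0 (chk idx p (m t.1) t.2 + ∑ j, h t j)) *
      ∏ t : Fin n × Fin n × Fin R, inter k (adj t.1 t.2.1) (m t.1 (Sum.inl (t.2.1, t.2.2)))
          (m t.2.1 (Sum.inr (Sum.inl (t.1, t.2.2)))) := by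
    intro h
    rw [Fintype.prod_sum_type]
    congr 1
    · rw [Fintype.prod_prod_type]
      refine prod_congr rfl fun t _ => ?_
      rw [Fintype.prod_option, mul_comm]
      simp only [al_inl, be_some, be_none]
      rfl
    · rw [Fintype.prod_prod_type]
      refine prod_congr rfl fun t _ => ?_
      rw [Fintype.prod_bool, mul_comm]
      simp only [al_true, al_false, be_inr, inter]
      cases adj t.1 t.2.1 <;> rfl
  simp only [key]
  rw [← sum_mul]
  congr 1
  rw [sum_pi_prod (fun (t : Fin n × Fin p) (h : Fin l → ZMod 2) => (∏ j, (wF k 0 (h j) : ℝ)) *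
    wF k 0 (chk idx p (m t.1) t.2 + ∑ j, h j)), Fintype.prod_prod_type]
  refine prod_congr rfl fun v _ => ?_
  rw [← prod_wt]
  refine prod_congr rfl fun z _ => ?_
  rw [series (fun y => (wF k 0 y : ℝ)), w0_cast hk, w1_cast hk]
  have e0 : (wF k 0 0 : ℝ) = cA k := by simp [wF, cA]
  have e1 : (wF k 0 1 : ℝ) = 2 * k ^ 3 := by simp [wF]
  rw [e0, e1]
  split_ifs <;> ring

theorem gadget {k : ℕ} (hk : 2 ≤ k) (n R e p l H E : ℕ) (adj : ℕ → ℕ → Bool)
    (hc : ∀ m : Msg (Fin n) R e → ZMod 2, m ≠ 0 → wt idx p m ≤ H ∧ H ≤ wt idx p m + E)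
    (hE : E < H) (hH : H ≤ p) (A B Z : ℝ)
    (hB : B = ((w0 k l : ℝ) / 2) ^ (p - H) * ((w1 k l : ℝ) / 2) ^ H)
    (hA : A = ((w0 k l : ℝ) / 2) ^ p - B) (hA0 : 0 < A)
    (hZ : Z = A ^ n * (cA k : ℝ) ^ (2 * (n * n * R)) *
      ∑ S : Finset (Fin n), (B * 2 ^ e * (cG k : ℝ) ^ (n * R) /
        (A * (cA k : ℝ) ^ (2 * (n * R)))) ^ S.card *
          pen (fun u v : Fin n => adj u v) (tau k ^ R) S) :
    ∃ I : Inst, I.gens.length ≤ I.m ∧ I.code = Enc.enc (instL n R e p l adj) ∧
      I.m = (instL n R e p l adj).1 ∧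
      Z ≤ I.val k ∧ (I.val k : ℝ) ≤ (((w0 k l : ℝ) / w1 k l) ^ E) ^ n * Z := by
  obtain ⟨I, h1, h2, h3, h4⟩ := gadget_val hk n R e p l adj fun m hm => by
    by_contra h
    have := hc m h
    omega
  refine ⟨I, h1, h2, h3, ?_⟩
  have hc' := core' hk R e (fun u v : Fin n => adj u v) A B hA0.ne'
  rw [Fintype.card_fin, ← hZ] at hc'
  rw [h4, ← hc']
  have hY : (0 : ℝ) < w1 k l := by have := two_le_w1 hk l; positivity
  have hr : (1 : ℝ) ≤ (w0 k l : ℝ) / w1 k l := by
    rw [one_le_div hY]; exact_mod_cast w1_le_w0 k l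
  have hX : (w0 k l : ℝ) / 2 = (w0 k l : ℝ) / w1 k l * ((w1 k l : ℝ) / 2) := by field_simp
  generalize (w0 k l : ℝ) / w1 k l = r at hr hX ⊢
  have hY' : (0 : ℝ) < (w1 k l : ℝ) / 2 := by positivity
  rw [hX] at hA hB ⊢
  generalize (w1 k l : ℝ) / 2 = Y at hY' hA hB ⊢
  have hB0 : 0 ≤ B := by rw [hB]; positivity
  have hw : ∀ j, j ≤ p → (r * Y) ^ (p - j) * Y ^ j = r ^ (p - j) * Y ^ p := by
    intro j hj
    rw [mul_pow, mul_assoc, ← pow_add, Nat.sub_add_cancel hj]
  have hs : ∀ m : Msg (Fin n) R e → ZMod 2,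
      (B + if m = 0 then A else 0) ≤ (r * Y) ^ (p - wt idx p m) * Y ^ wt idx p m ∧
      (r * Y) ^ (p - wt idx p m) * Y ^ wt idx p m ≤ r ^ E * (B + if m = 0 then A else 0) := by
    intro m
    split_ifs with h
    · have e : wt idx p m = 0 := by simp [h, wt, chk]
      rw [e, hA, add_sub_cancel, Nat.sub_zero, pow_zero, mul_one]
      exact ⟨le_rfl, le_mul_of_one_le_left (by positivity) (one_le_pow₀ hr)⟩
    · obtain ⟨h5, h6⟩ := hc m h
      rw [add_zero, hB, hw _ hH, hw _ (h5.trans hH), ← mul_assoc, ← pow_add]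
      constructor
      · gcongr
      · gcongr
        omega
  have hi : ∀ a y y', 0 ≤ inter k a y y' := fun a y y' => by unfold inter; positivity
  have h0 : ∀ m : Msg (Fin n) R e → ZMod 2, 0 ≤ (B + if m = 0 then A else 0) := fun m => by
    split_ifs <;> positivity
  constructor
  · refine sum_le_sum fun m _ => mul_le_mul_of_nonneg_right ?_ (prod_nonneg fun _ _ => hi ..)
    exact prod_le_prod (fun v _ => h0 _) fun v _ => (hs _).1
  · rw [mul_sum]
    refine sum_le_sum fun m _ => ?_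
    rw [← mul_assoc]
    refine mul_le_mul_of_nonneg_right ?_ (prod_nonneg fun _ _ => hi ..)
    rw [← Fin.prod_const, ← prod_mul_distrib]
    exact prod_le_prod (fun v _ => by positivity) fun v _ => (hs _).2

theorem instL_pf {α : Type} [Enc α] {n R e p l : α → ℕ} {adj : α → ℕ → ℕ → Bool} (hn : PF n)
    (hR : PF R) (he : PF e) (hp : PF p) (hl : PF l)
    (ha : PF fun z : α × ℕ × ℕ => adj z.1 z.2.1 z.2.2) :
    PF fun a => instL (n a) (R a) (e a) (p a) (l a) (adj a) := by
  have hV : PF fun a => LV (n a) (R a) (e a) (p a) (l a) := by unfold LV grid; fun_prop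
  have hB : PF fun a => LB (n a) (R a) (p a) (l a) := by unfold LB grid; fun_prop
  have h1 : PF fun z : Cd × Cd => alC z.1 z.2 := by unfold alC eq4; fun_prop
  have h2 : PF fun z : α × Cd × Cd => beC (n z.1) (R z.1) (p z.1) (adj z.1) z.2.1 z.2.2 := by
    have h3 : PF fun z : α × Cd × Cd => adj z.1 z.2.1.2.1 z.2.1.2.2.1 :=
      ha.comp (g := fun z : α × Cd × Cd => (z.1, z.2.1.2.1, z.2.1.2.2.1)) (by fun_prop)
    unfold beC eq4 idxC
    exact PF.cond' (by fun_prop) (by fun_prop) (PF.cond' (by fun_prop) (by fun_prop)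
      (PF.and' (PF.beqBool (by fun_prop) h3) (by fun_prop)))
  have h4 : PF fun z : α × ℕ × ℕ =>
      (LB (n z.1) (R z.1) (p z.1) (l z.1)).getD z.2.1 (0, 0, 0, 0) :=
    PF.getD (hB.comp (PF.fst PF.id')) (by fun_prop) (PF.const _)
  have h5 : PF fun z : α × ℕ × ℕ =>
      (LV (n z.1) (R z.1) (e z.1) (p z.1) (l z.1)).getD z.2.2 (0, 0, 0, 0) :=
    PF.getD (hV.comp (PF.fst PF.id')) (by fun_prop) (PF.const _)
  exact PF.pair (PF.mul hB.length (PF.const _)) (gensL_pf hB.length hV.length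
    (h1.comp (h4.pair h5)) (h2.comp ((PF.fst PF.id').pair (h4.pair h5))))

end Pool.Agent.Lib.MP_3a8d2e_lc
end

-- part Pool.Agent.Lib.MP_3a8d2e_lc.Tab
section

/-!
Parsimonious Cook-Levin theorem into maximum independent sets of a digraph.
-/

set_option autoImplicit false

namespace Pool.Agent.Lib.MP_3a8d2e_lc.Tab

open Finset Function Pool.Agent.Shared.PolyTime Pool.Agent.Shared.NP

/-- The conflict digraph of a binary constraint system with domain size `d`. -/
def adjOf (d : ℕ) (B : ℕ → ℕ → ℕ → ℕ → Bool) (u v : ℕ) : Bool :=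
  (u / d == v / d && !(u == v)) || B (u / d) (u % d) (v / d) (v % d)

theorem indep_inj {G d : ℕ} {B : ℕ → ℕ → ℕ → ℕ → Bool} {S : Finset (Fin (G * d))}
    (h : ∀ u ∈ S, ∀ v ∈ S, adjOf d B u v = false) : Set.InjOn Fin.divNat (S : Set (Fin (G * d))) := by
  intro u hu v hv e
  have h1 := h u hu v hv
  have e' : (u : ℕ) / d = v / d := congrArg Fin.val e
  simp only [adjOf, e', beq_self_eq_true, Bool.true_and, Bool.or_eq_false_iff,
    Bool.not_eq_false', beq_iff_eq] at h1
  exact Fin.ext h1.1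

theorem indep_le {G d : ℕ} {B : ℕ → ℕ → ℕ → ℕ → Bool} (S : Finset (Fin (G * d)))
    (h : ∀ u ∈ S, ∀ v ∈ S, adjOf d B u v = false) : S.card ≤ G := by
  simpa using card_le_card_of_injOn (t := univ) Fin.divNat (fun _ _ => by simp) (indep_inj h)

theorem card_indep (G d : ℕ) (B : ℕ → ℕ → ℕ → ℕ → Bool) :
    #{f : Fin G → Fin d | ∀ g g' : Fin G, B g (f g) g' (f g') = false} =
      #{S : Finset (Fin (G * d)) | (∀ u ∈ S, ∀ v ∈ S, adjOf d B u v = false) ∧ S.card = G} := by
  have e1 : ∀ (g : Fin G) (a : Fin d), ((finProdFinEquiv (g, a) : Fin (G * d)) : ℕ) / d = g :=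
    fun g a => congrArg (fun p : Fin G × Fin d => (p.1 : ℕ)) (finProdFinEquiv.symm_apply_apply (g, a))
  have e2 : ∀ (g : Fin G) (a : Fin d), ((finProdFinEquiv (g, a) : Fin (G * d)) : ℕ) % d = a :=
    fun g a => congrArg (fun p : Fin G × Fin d => (p.2 : ℕ)) (finProdFinEquiv.symm_apply_apply (g, a))
  refine card_bij (fun f _ => univ.image fun g => finProdFinEquiv (g, f g)) (fun f hf => ?_)
    (fun f _ f' _ e => ?_) fun S hS => ?_
  · simp only [mem_filter, mem_univ, true_and] at hf ⊢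
    constructor
    · intro u hu v hv
      obtain ⟨g, -, rfl⟩ := mem_image.1 hu
      obtain ⟨g', -, rfl⟩ := mem_image.1 hv
      rw [adjOf, e1, e1, e2, e2, hf, Bool.or_false]
      by_cases k : g = g'
      · simp [k]
      · simp [Fin.val_ne_of_ne k]
    · rw [card_image_of_injective _ fun a b k => (Prod.ext_iff.1 (finProdFinEquiv.injective k)).1]
      simp
  · funext g
    have : finProdFinEquiv (g, f g) ∈ univ.image fun g => finProdFinEquiv (g, f' g) :=
      e ▸ mem_image_of_mem _ (mem_univ g)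
    obtain ⟨g', -, k⟩ := mem_image.1 this
    obtain ⟨k1, k2⟩ := Prod.ext_iff.1 (finProdFinEquiv.injective k)
    simp only at k1 k2
    rw [← k2, k1]
  · obtain ⟨h1, h2⟩ := (mem_filter.1 hS).2
    have hs := surjOn_of_injOn_of_card_le (t := univ) Fin.divNat (fun _ _ => by simp) (indep_inj h1)
      (by simp [h2])
    choose s s1 s2 using fun g : Fin G => hs (mem_coe.2 (mem_univ g))
    have s3 : ∀ g, finProdFinEquiv (g, (s g).modNat) = s g := fun g => by
      have := finProdFinEquiv.apply_symm_apply (s g)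
      rwa [finProdFinEquiv_symm_apply, s2] at this
    refine ⟨fun g => (s g).modNat, ?_, ?_⟩
    · simp only [mem_filter, mem_univ, true_and]
      intro g g'
      have := h1 _ (s1 g) _ (s1 g')
      rw [← s3 g, ← s3 g', adjOf, e1, e1, e2, e2] at this
      exact (Bool.or_eq_false_iff.1 this).2
    · simp only [s3]
      refine eq_of_subset_of_card_le (fun u hu => ?_) ?_
      · obtain ⟨g, -, rfl⟩ := mem_image.1 hu
        exact s1 g
      · rw [h2, card_image_of_injective _ fun a b k => by rw [← s2 a, k, s2]]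
        simp

/-- Relations on a finite type, depending on an input, that are decided at polynomial cost. -/
def Dec {α C : Type} [Enc α] {d : ℕ} (e : Fin d → C) (Q : α → C → C → Prop) : Prop :=
  ∃ b : α → ℕ → ℕ → Bool, PF (fun p : α × ℕ × ℕ => b p.1 p.2.1 p.2.2) ∧
    ∀ a (i j : Fin d), b a i j = true ↔ Q a (e i) (e j)

theorem Dec.and {α C : Type} [Enc α] {d : ℕ} {e : Fin d → C} {Q R : α → C → C → Prop}
    (h : Dec e Q) (h' : Dec e R) : Dec e fun a c c' => Q a c c' ∧ R a c c' := by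
  obtain ⟨b, h1, h2⟩ := h
  obtain ⟨b', h3, h4⟩ := h'
  exact ⟨fun a i j => b a i j && b' a i j, h1.and' h3, fun a i j => by simp [h2, h4]⟩

theorem Dec.imp {α C : Type} [Enc α] {d : ℕ} (e : Fin d → C) {c : α → Bool} (hc : PF c)
    (R : C → C → Prop) : Dec e fun a x y => c a = true → R x y := by
  classical
  refine ⟨fun a i j => !(c a) || ((List.ofFn fun i : Fin d => List.ofFn fun j : Fin d =>
    decide (R (e i) (e j))).getD i []).getD j false, by fun_prop, fun a i j => ?_⟩
  cases h : c a <;> simp [List.getD_eq_getElem?_getD, h]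

section
variable {Z K A : Type} [DecidableEq K] (M : AM Z K A) (z₀ : Z) (k₀ k₁ : K) (ι : Bool → A)
  (Bad : Option A → Prop)

/-- The cell at position `j` of a configuration. -/
def cell (c : Z × (K → List A)) (j : ℕ) : Z × (K → Option A) := (c.1, fun k => (c.2 k)[j]?)

/-- The constraints between the cell `c` at `(t, j)` and the cell `c'` at `(t', j')`. -/
def Ok (x : List Bool) (P T t j t' j' : ℕ) (c c' : Z × (K → Option A)) : Prop :=
  ((t' == t + 1 && j == 0) = true → c'.1 = M.δ c.1 (c.2 (M.kk c.1))) ∧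
  ((t' == t + 1 && j' == j) = true → ∀ k, k ≠ M.kk c.1 ∨ M.op c.1 = none → c'.2 k = c.2 k) ∧
  ((t' == t + 1 && j == j' + 1) = true →
    M.op c.1 = some none → c'.2 (M.kk c.1) = c.2 (M.kk c.1)) ∧
  ((t' == t + 1 && j' == j + 1) = true →
    ∀ b, M.op c.1 = some (some b) → c'.2 (M.kk c.1) = c.2 (M.kk c.1)) ∧
  ((t' == t + 1 && j' == 0) = true → ∀ b, M.op c.1 = some (some b) → c'.2 (M.kk c.1) = some b) ∧
  ((j == x.length + P + T) = true → ∀ k, c.2 k = none) ∧
  ((t == 0) = true → c.1 = z₀ ∧ ∀ k, k ≠ k₀ → c.2 k = none) ∧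
  ((t == 0 && (Nat.blt j x.length && x.getD j false)) = true → c.2 k₀ = some (ι true)) ∧
  ((t == 0 && (Nat.blt j x.length && !(x.getD j false))) = true → c.2 k₀ = some (ι false)) ∧
  ((t == 0 && Nat.blt j (x.length + P)) = true → ∃ b, c.2 k₀ = some (ι b)) ∧
  ((t == 0 && Nat.ble (x.length + P) j) = true → c.2 k₀ = none) ∧
  ((t == T && j == 0) = true → ¬ Bad (c.2 k₁))

omit [DecidableEq K] in
theorem dec_Ok {d : ℕ} (e : Fin d → Z × (K → Option A)) :
    Dec e fun a : (List Bool × ℕ × ℕ) × (ℕ × ℕ) × ℕ × ℕ =>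
      Ok M z₀ k₀ k₁ ι Bad a.1.1 a.1.2.1 a.1.2.2 a.2.1.1 a.2.1.2 a.2.2.1 a.2.2.2 := by
  unfold Ok
  refine (Dec.imp e ?_ _).and ((Dec.imp e ?_ _).and ((Dec.imp e ?_ _).and ((Dec.imp e ?_ _).and
    ((Dec.imp e ?_ _).and ((Dec.imp e ?_ _).and ((Dec.imp e ?_ _).and ((Dec.imp e ?_ _).and
    ((Dec.imp e ?_ _).and ((Dec.imp e ?_ _).and ((Dec.imp e ?_ _).and (Dec.imp e ?_ _)))))))))))
  all_goals fun_prop

theorem len_run (w : List Bool) (t : ℕ) (k : K) :
    ((M.step^[t] (initC z₀ k₀ ι w)).2 k).length ≤ w.length + t := by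
  induction t generalizing k with
  | zero => by_cases h : k = k₀ <;> simp [initC, h]
  | succ t ih =>
    rw [iterate_succ_apply']
    have := ih k
    generalize M.step^[t] (initC z₀ k₀ ι w) = c at *
    simp only [AM.step, AM.upd]
    rcases M.op c.1 with _ | _ | b <;> by_cases h : k = M.kk c.1 <;>
      simp only [h, update_self, update_of_ne, ne_eq, not_false_eq_true, List.length_tail,
        List.length_cons] at this ⊢ <;> omega

theorem ok_run (x y : List Bool) {T t t' : ℕ} (ht : t ≤ T) (j j' : ℕ)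
    (hb : ¬ Bad (((M.step^[T] (initC z₀ k₀ ι (x ++ y))).2 k₁)[0]?)) :
    Ok M z₀ k₀ k₁ ι Bad x y.length T t j t' j' (cell (M.step^[t] (initC z₀ k₀ ι (x ++ y))) j)
      (cell (M.step^[t'] (initC z₀ k₀ ι (x ++ y))) j') := by
  simp only [Ok, Bool.and_eq_true, beq_iff_eq, Nat.blt_eq, Nat.ble_eq, and_imp, Bool.not_eq_true']
  refine ⟨?_, ?_, ?_, ?_, ?_, ?_, ?_, ?_, ?_, ?_, ?_, ?_⟩
  · rintro rfl rfl
    simp [iterate_succ_apply', cell, AM.step, List.head?_eq_getElem?]
  · rintro rfl rfl k hk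
    rw [iterate_succ_apply']
    simp only [cell, AM.step, AM.upd] at hk ⊢
    rcases hk with hk | hk
    · rcases M.op _ with _ | _ | b <;> simp [update_of_ne hk]
    · simp [hk]
  · rintro rfl rfl hk
    rw [iterate_succ_apply']
    simp only [cell, AM.step, AM.upd] at hk ⊢
    simp [hk]
  · rintro rfl rfl b hk
    rw [iterate_succ_apply']
    simp only [cell, AM.step, AM.upd] at hk ⊢
    simp [hk]
  · rintro rfl rfl b hk
    rw [iterate_succ_apply']
    simp only [cell, AM.step, AM.upd] at hk ⊢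
    simp [hk]
  · rintro rfl k
    have := len_run M z₀ k₀ ι (x ++ y) t k
    exact List.getElem?_eq_none (by simp only [List.length_append] at this; omega)
  · rintro rfl
    exact ⟨rfl, fun k hk => by simp [cell, initC, hk]⟩
  · rintro rfl h1 h2
    simp only [List.getD_eq_getElem?_getD, List.getElem?_eq_getElem h1, Option.getD_some] at h2
    simp [cell, initC, List.getElem?_append_left, h1, h2]
  · rintro rfl h1 h2
    simp only [List.getD_eq_getElem?_getD, List.getElem?_eq_getElem h1, Option.getD_some] at h2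
    simp [cell, initC, List.getElem?_append_left, h1, h2]
  · rintro rfl h1
    have : j < (x ++ y).length := by simpa using h1
    exact ⟨(x ++ y)[j], by
      simp only [cell, initC, iterate_zero, id, if_true, List.getElem?_map,
        List.getElem?_eq_getElem this, Option.map_some]⟩
  · rintro rfl h1
    simp only [cell, initC, iterate_zero, id, if_true]
    exact List.getElem?_eq_none (by simpa using h1)
  · rintro rfl rfl
    exact hb

theorem run_of_ok (x : List Bool) (P T : ℕ) (F : ℕ → ℕ → Z × (K → Option A))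
    (h : ∀ t ≤ T, ∀ j ≤ x.length + P + T, ∀ t' ≤ T, ∀ j' ≤ x.length + P + T,
      Ok M z₀ k₀ k₁ ι Bad x P T t j t' j' (F t j) (F t' j')) :
    ∃ y : List Bool, y.length = P ∧ ¬ Bad (((M.step^[T] (initC z₀ k₀ ι (x ++ y))).2 k₁)[0]?) ∧
      ∀ t ≤ T, ∀ j ≤ x.length + P + T, F t j = cell (M.step^[t] (initC z₀ k₀ ι (x ++ y))) j := by
  simp only [Ok, Bool.and_eq_true, beq_iff_eq, Nat.blt_eq, Nat.ble_eq, and_imp,
    Bool.not_eq_true'] at h
  have h0 := fun j hj => (h 0 (Nat.zero_le _) j hj 0 (Nat.zero_le _) 0 (Nat.zero_le _)).2.2.2.2.2.2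
  choose y hy using fun i : Fin P => (h0 (x.length + i) (by omega)).2.2.2.1 rfl (by omega)
  have key : ∀ t ≤ T, ∀ j ≤ x.length + P + T,
      F t j = cell (M.step^[t] (initC z₀ k₀ ι (x ++ List.ofFn y))) j := by
    intro t
    induction t with
    | zero =>
      intro _ j hj
      obtain ⟨a1, a2, a3, -, a5, -⟩ := h0 j hj
      refine Prod.ext (a1 rfl).1 (funext fun k => ?_)
      by_cases hk : k = k₀
      · subst hk
        simp only [cell, initC, iterate_zero, id, if_true, List.getElem?_map]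
        by_cases h1 : j < x.length
        · rw [List.getElem?_append_left h1, List.getElem?_eq_getElem h1]
          simp only [List.getD_eq_getElem?_getD, List.getElem?_eq_getElem h1,
            Option.getD_some] at a2 a3
          cases hb : x[j]
          · exact a3 trivial h1 hb
          · exact a2 trivial h1 hb
        · by_cases h2 : j < x.length + P
          · obtain ⟨i, rfl⟩ := Nat.exists_eq_add_of_le (not_lt.1 h1)
            have h3 : i < P := by omega
            rw [hy ⟨i, h3⟩, List.getElem?_append_right (by omega)]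
            simp [h3]
          · rw [a5 rfl (by omega), List.getElem?_eq_none (by simp; omega)]
            rfl
      · rw [(a1 rfl).2 k hk]; simp [cell, initC, hk]
    | succ t ih =>
      intro ht j hj
      have ih := ih (by omega)
      have hl := len_run M z₀ k₀ ι (x ++ List.ofFn y) t
      rw [iterate_succ_apply']
      generalize M.step^[t] (initC z₀ k₀ ι (x ++ List.ofFn y)) = c at *
      have g := fun i hi => h t (by omega) i hi (t + 1) ht j hj
      have g0 := g 0 (Nat.zero_le _)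
      rw [ih 0 (Nat.zero_le _)] at g0
      refine Prod.ext ((g0.1 rfl rfl).trans ?_) (funext fun k => ?_)
      · simp [cell, AM.step, List.head?_eq_getElem?]
      have gj := (g j hj).2.1 rfl rfl k
      rw [ih j hj] at gj
      simp only [cell, AM.step, AM.upd] at gj g0 ⊢
      by_cases hk : k = M.kk c.1
      · subst hk
        rcases hop : M.op c.1 with _ | _ | b
        · exact gj (Or.inr hop)
        · simp only [update_self, List.getElem?_tail]
          by_cases hW : j = x.length + P + T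
          · rw [(h (t + 1) ht j hj 0 (Nat.zero_le _) 0 (Nat.zero_le _)).2.2.2.2.2.1 hW,
              List.getElem?_eq_none]
            have := hl (M.kk c.1)
            simp only [List.length_append, List.length_ofFn] at this
            omega
          · have := (g (j + 1) (by omega)).2.2.1 rfl rfl
            rw [ih _ (by omega)] at this
            exact this hop
        · simp only [update_self]
          rcases j with _ | j
          · exact g0.2.2.2.2.1 trivial rfl b hop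
          · have := (g j (by omega)).2.2.2.1 rfl rfl b
            rw [ih _ (by omega)] at this
            exact this hop
      · rw [gj (Or.inl hk)]
        rcases M.op c.1 with _ | _ | b <;> simp [update_of_ne hk]
  refine ⟨List.ofFn y, by simp, ?_, key⟩
  have := (h T le_rfl 0 (Nat.zero_le _) 0 (Nat.zero_le _) 0
    (Nat.zero_le _)).2.2.2.2.2.2.2.2.2.2.2 rfl rfl
  rwa [key T le_rfl 0 (Nat.zero_le _)] at this

theorem tab_count [Fintype Z] [Fintype K] [Fintype A] (hι : Injective ι) :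
    ∃ (d : ℕ) (B : List Bool × ℕ × ℕ → ℕ → ℕ → ℕ → ℕ → Bool),
      PF (fun p : (List Bool × ℕ × ℕ) × (ℕ × ℕ) × ℕ × ℕ =>
        B p.1 p.2.1.1 p.2.1.2 p.2.2.1 p.2.2.2) ∧ ∀ (x : List Bool) (P T : ℕ),
      {y : List Bool | y.length = P ∧
        ¬ Bad (((M.step^[T] (initC z₀ k₀ ι (x ++ y))).2 k₁)[0]?)}.ncard =
      #{f : Fin ((T + 1) * (x.length + P + T + 1)) → Fin d |
        ∀ g g' : Fin ((T + 1) * (x.length + P + T + 1)),
          B (x, P, T) g (f g) g' (f g') = false} := by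
  classical
  let e := Fintype.equivFin (Z × (K → Option A))
  obtain ⟨b, hb, sb⟩ := dec_Ok M z₀ k₀ k₁ ι Bad e.symm
  refine ⟨Fintype.card (Z × (K → Option A)), fun a g i g' i' => !b (a, (g / (a.1.length + a.2.1 + a.2.2 + 1),
    g % (a.1.length + a.2.1 + a.2.2 + 1)), (g' / (a.1.length + a.2.1 + a.2.2 + 1),
    g' % (a.1.length + a.2.1 + a.2.2 + 1))) i i', ?_, fun x P T => ?_⟩
  · exact (hb.comp (g := fun p : (List Bool × ℕ × ℕ) × (ℕ × ℕ) × ℕ × ℕ =>
      ((p.1, (p.2.1.1 / (p.1.1.length + p.1.2.1 + p.1.2.2 + 1),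
        p.2.1.1 % (p.1.1.length + p.1.2.1 + p.1.2.2 + 1)),
        (p.2.2.1 / (p.1.1.length + p.1.2.1 + p.1.2.2 + 1),
        p.2.2.1 % (p.1.1.length + p.1.2.1 + p.1.2.2 + 1))), p.2.1.2, p.2.2.2)) (by fun_prop)).not'
  simp only [Bool.not_eq_false', sb]
  obtain ⟨V, hV⟩ : ∃ V, V = x.length + P + T + 1 := ⟨_, rfl⟩
  rw [← hV]
  have hV0 : 0 < V := by omega
  have d1 : ∀ g : Fin ((T + 1) * V), (g : ℕ) / V ≤ T := fun g =>
    Nat.lt_succ_iff.1 ((Nat.div_lt_iff_lt_mul hV0).2 g.2)
  have d2 : ∀ g : ℕ, g % V ≤ x.length + P + T := fun g => by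
    have := Nat.mod_lt g hV0; omega
  have d3 : ∀ t ≤ T, ∀ j ≤ x.length + P + T, j + V * t < (T + 1) * V := fun t ht j hj => by
    have := Nat.mul_le_mul_left V ht
    rw [Nat.add_mul, Nat.mul_comm T]; omega
  have d4 : ∀ t, ∀ j ≤ x.length + P + T, (j + V * t) / V = t ∧ (j + V * t) % V = j :=
    fun t j hj => by
    rw [Nat.add_mul_div_left _ _ hV0, Nat.add_mul_mod_self_left, Nat.div_eq_of_lt (by omega),
      Nat.mod_eq_of_lt (by omega)]
    simp
  rw [← Set.ncard_coe_finset]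
  refine Set.ncard_congr (fun y _ g => e (cell (M.step^[g / V] (initC z₀ k₀ ι (x ++ y))) (g % V)))
    (fun y hy => ?_) (fun y y' hy hy' k => ?_) fun f hf => ?_
  · obtain ⟨rfl, h2⟩ := hy
    simp only [coe_filter, mem_univ, true_and, Set.mem_ofPred_eq, Equiv.symm_apply_apply]
    exact fun g g' => ok_run M z₀ k₀ k₁ ι Bad x y (d1 g) _ _ h2
  · refine List.append_cancel_left (as := x) (List.map_injective_iff.2 hι
      (List.ext_getElem? fun j => ?_))
    by_cases hj : j ≤ x.length + P + T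
    · have := congrFun (congrArg Prod.snd (e.injective (congrFun k ⟨_, d3 0 (Nat.zero_le _) j hj⟩))) k₀
      simpa only [(d4 0 j hj).1, (d4 0 j hj).2, cell, initC, iterate_zero, id, if_true] using this
    · have a1 := hy.1
      have a2 := hy'.1
      rw [List.getElem?_eq_none (by simp; omega), List.getElem?_eq_none (by simp; omega)]
  · simp only [coe_filter, mem_univ, true_and, Set.mem_ofPred_eq] at hf
    obtain ⟨y, a1, a2, a3⟩ := run_of_ok M z₀ k₀ k₁ ι Bad x P T (fun t j =>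
      if h : j + V * t < (T + 1) * V then e.symm (f ⟨_, h⟩) else (z₀, fun _ => none))
      fun t ht j hj t' ht' j' hj' => by
        have := hf ⟨_, d3 t ht j hj⟩ ⟨_, d3 t' ht' j' hj'⟩
        simp only [(d4 t j hj).1, (d4 t j hj).2, (d4 t' j' hj').1, (d4 t' j' hj').2] at this
        simpa only [dif_pos (d3 t ht j hj), dif_pos (d3 t' ht' j' hj')] using this
    refine ⟨y, ⟨a1, a2⟩, funext fun g => ?_⟩
    rw [← a3 _ (d1 g) _ (d2 g)]
    simp only [Nat.mod_add_div, g.2, dif_pos, Fin.eta, Equiv.apply_symm_apply]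

end

end Pool.Agent.Lib.MP_3a8d2e_lc.Tab

namespace Pool.Agent.Lib.MP_3a8d2e_lc

open Function Turing Turing.TM2 Pool.Agent.Shared.PolyTime Pool.Agent.Shared.NP Tab

theorem exists_graph (h : List Bool → ℕ) (hh : InSharpP h) :
    ∃ (nv mx : List Bool → ℕ) (adj : List Bool → ℕ → ℕ → Bool),
      PF nv ∧ PF mx ∧ PF (fun p : List Bool × ℕ × ℕ => adj p.1 p.2.1 p.2.2) ∧
      ∀ x, (∀ S : Finset (Fin (nv x)), (∀ u ∈ S, ∀ v ∈ S, adj x u v = false) → S.card ≤ mx x) ∧
        h x = (Finset.univ.filter fun S : Finset (Fin (nv x)) =>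
          (∀ u ∈ S, ∀ v ∈ S, adj x u v = false) ∧ S.card = mx x).card := by
  classical
  obtain ⟨V, p, ⟨hV⟩, hY⟩ := hh
  let _ := hV.tm.kFin
  let _ := hV.tm.ΛFin
  let _ := hV.tm.σFin
  let m := hV.tm.m
  let inp : Bool → hV.tm.Γ hV.tm.k₀ := hV.inputAlphabet.symm
  let D : ℕ := Finset.univ.sup fun l => depth (m l)
  have hD : ∀ l, depth (m l) ≤ D := fun l =>
    Finset.le_sup (f := fun l => depth (m l)) (Finset.mem_univ l)
  obtain ⟨d, B, hB, hs⟩ := tab_count (simM m hV.tm.k₀ inp)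
    (mkSt m (some (m hV.tm.main)), hV.tm.initialState) hV.tm.k₀ hV.tm.k₁ Sum.inl
    (fun o => o.bind (val m hV.tm.k₀ inp) = some ⟨hV.tm.k₁, hV.outputAlphabet.symm false⟩)
    Sum.inl_injective
  let a : List Bool → List Bool × ℕ × ℕ := fun x => (List.replicate x.length true ++ false :: x,
    p.eval x.length, D * hV.time.eval (2 * x.length + 1 + p.eval x.length))
  have ha : PF a := by
    have h1 : PF (fun x : List Bool => p.eval x.length) := PF_poly (by fun_prop) p
    have h2 : PF (fun x : List Bool => hV.time.eval (2 * x.length + 1 + p.eval x.length)) :=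
      PF_poly (PF.add (by fun_prop) h1) _
    exact PF.pair (by fun_prop) (PF.pair h1 (PF.mul (PF.const _) h2))
  have hm : PF fun x => ((a x).2.2 + 1) * ((a x).1.length + (a x).2.1 + (a x).2.2 + 1) := by
    fun_prop
  refine ⟨_, _, fun x => adjOf d (B (a x)), hm.mul (PF.const d), hm, ?_,
    fun x => ⟨indep_le, ?_⟩⟩
  · exact PF.or' (by fun_prop) (hB.comp (g := fun q : List Bool × ℕ × ℕ =>
      (a q.1, (q.2.1 / d, q.2.1 % d), q.2.2 / d, q.2.2 % d)) (by fun_prop))
  rw [hY, ← card_indep, ← hs]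
  congr 1
  refine Set.ext fun y => and_congr_right fun hy => ?_
  obtain ⟨⟨s, hs1⟩, hs2⟩ := hV.outputsFun (x, y)
  have e1 : (List.replicate x.length true ++ false :: x) ++ y = encPair x y := by
    simp [encPair]
  simp only [a]
  rw [e1]
  have h0 : Sim m hV.tm.k₀ inp (initList hV.tm ((encPair x y).map hV.inputAlphabet.invFun))
      (initC (mkSt m (some (m hV.tm.main)), hV.tm.initialState) hV.tm.k₀ Sum.inl
        (encPair x y)) := by
    refine ⟨mkSt_val m (m_mem_stmts m _), rfl, fun k => ?_⟩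
    by_cases hk : k = hV.tm.k₀
    · subst hk
      simp [initC, initList, val, inp]
    · simp [initC, initList, hk]
  obtain ⟨n, hn, h1⟩ := sim_run m hV.tm.k₀ inp D hD _ _ h0 s _ hs1
  have hlen : (encPair x y).length ≤ 2 * x.length + 1 + p.eval x.length := by
    rw [length_encPair]; omega
  have hT : n ≤ D * hV.time.eval (2 * x.length + 1 + p.eval x.length) :=
    hn.trans (Nat.mul_le_mul_left D (hs2.trans (eval_mono _ hlen)))
  obtain ⟨r, hr⟩ := Nat.exists_eq_add_of_le' hT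
  rw [hr, iterate_add_apply, sim_idle m hV.tm.k₀ inp h1 rfl]
  have h2 := h1.2.2 hV.tm.k₁
  simp only [haltList, dite_true, List.map_cons, List.map_nil] at h2
  obtain ⟨a, l, h3, h4, -⟩ := List.map_eq_cons_iff.1 h2
  rw [h3]
  simp only [List.getElem?_cons_zero, Option.bind_some, h4, Option.some.injEq]
  cases hb : V (x, y)
  · simp
  · simp only [true_iff]
    intro h5
    have := hV.outputAlphabet.symm.injective (sigma_mk_injective h5)
    exact absurd this (by simp)

end Pool.Agent.Lib.MP_3a8d2e_lc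
end
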