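import Mathlib
import Pool.Agent.Shared.PolyTime.Big
import Pool.Agent.Lib.MP_3a8d2e_lc.Tab

-- part Pool.Agent.Lib.MP_3a8d2e_lc.Param
section

/-!
The choice of the parameters.
-/

set_option autoImplicit false

namespace Pool.Agent.Lib.MP_3a8d2e_lc

open Finset Pool.Agent.Shared.PolyTime

/-- The first number below `L` with a property. -/
def first (L : ℕ) (good : ℕ → Bool) : ℕ := ((List.range L).filter good).headD 0

theorem first_spec {L : ℕ} {good : ℕ → Bool} (h : ∃ j, j < L ∧ good j = true) :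
    first L good < L ∧ good (first L good) = true ∧ ∀ j, j < first L good → good j = false := by
  obtain ⟨j, hj, hg⟩ := h
  have hs : ((List.range L).filter good).Pairwise (· < ·) := List.pairwise_lt_range.filter _
  have hm : ∀ i, i ∈ (List.range L).filter good ↔ i < L ∧ good i = true := by simp
  unfold first
  rcases hl : (List.range L).filter good with _ | ⟨a, t⟩
  · have := (hm j).2 ⟨hj, hg⟩
    rw [hl] at this
    simp at this
  · rw [hl] at hs hm
    obtain ⟨h1, h2⟩ := (hm a).1 (by simp)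
    refine ⟨h1, h2, fun i hi => ?_⟩
    by_contra hc
    have hi' : i < a := hi
    rcases List.mem_cons.1 ((hm i).2 ⟨by omega, by simpa using hc⟩) with h | h
    · omega
    · have := (List.pairwise_cons.1 hs).1 i h
      omega

theorem first_pf {α : Type} [Enc α] {L : α → ℕ} {good : α → ℕ → Bool} (hL : PF L)
    (hg : PF fun z : α × ℕ => good z.1 z.2) : PF fun a => first (L a) (good a) :=
  PF.headD (PF.filter hL.range hg) (PF.const 0)

/-- Primality test. -/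
def isPrime (p : ℕ) : Bool :=
  Nat.ble 2 p && (List.range p).all fun d => Nat.blt d 2 || !(p % d == 0)

theorem isPrime_iff (p : ℕ) : isPrime p = true ↔ p.Prime := by
  rw [Nat.prime_def_lt']
  simp only [isPrime, Bool.and_eq_true, Nat.ble_eq, List.all_eq_true, List.mem_range,
    Bool.or_eq_true, Nat.blt_eq, Bool.not_eq_true', beq_eq_false_iff_ne, ne_eq,
    Nat.dvd_iff_mod_eq_zero]
  refine and_congr_right fun _ => forall_congr' fun d => ?_
  omega

@[fun_prop] theorem isPrime_pf {α : Type} [Enc α] {p : α → ℕ} (hp : PF p) :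
    PF fun a => isPrime (p a) := by
  have h : PF isPrime := by unfold isPrime; fun_prop
  exact h.comp hp

/-- The ratio of the weights of a check. -/
noncomputable def rr (k l : ℕ) : ℝ := (w0 k l : ℝ) / w1 k l

/-- The constants that depend on the alphabet size only. -/
structure Cst : Type where
  /-- alphabet size -/
  k : ℕ
  /-- first constant -/
  c1 : ℕ
  /-- second constant -/
  c2 : ℕ
  /-- third constant -/
  c3 : ℕ

/-- The properties of the constants. -/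
structure Cst.Good (c : Cst) : Prop where
  hk : 2 ≤ c.k
  h1 : tau c.k ^ c.c1 ≤ 1 / 2
  h2 : ∀ l, rr c.k l ≤ rr c.k (l + 1) ^ c.c2
  h2' : 2 ≤ rr c.k 0 ^ c.c2
  h3 : ∀ H, ∃ l, l < c.c3 * (H + 3) ∧ rr c.k l ^ H ≤ 2

theorem one_add_pow_le_two {y : ℝ} (H : ℕ) (h0 : 0 ≤ y) (h1 : y ≤ 1) (h : H * y ≤ 1 / 2) :
    (1 + y) ^ H ≤ 2 := by
  have h2 : 1 + H * (-y) ≤ (1 + -y) ^ H := one_add_mul_le_pow (by linarith) H
  have h3 : (1 + y) ^ H * (1 + -y) ^ H ≤ 1 := by
    rw [← mul_pow]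
    exact pow_le_one₀ (by nlinarith) (by nlinarith)
  have h4 : 0 ≤ (1 + y) ^ H := by positivity
  nlinarith

theorem exists_good {k : ℕ} (hk : 2 ≤ k) : ∃ c : Cst, c.k = k ∧ c.Good := by
  obtain ⟨c1, h1⟩ := exists_pow_lt_of_lt_one (by norm_num : (0 : ℝ) < 1 / 2) (tau_lt hk)
  have hk' : (2 : ℝ) ≤ k := by exact_mod_cast hk
  have hP : (0 : ℝ) < (cA k : ℝ) + 2 * k ^ 3 := by positivity
  set ρ : ℝ := ((cA k : ℝ) - 2 * k ^ 3) / ((cA k : ℝ) + 2 * k ^ 3) with hρ
  have hρ0 : 0 < ρ := by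
    refine div_pos ?_ hP
    have : (cA k : ℝ) - 2 * k ^ 3 = k ^ 2 * (k - 1) ^ 2 := by simp [cA]; ring
    rw [this]
    have : (0 : ℝ) < k - 1 := by linarith
    positivity
  have hρ1 : ρ < 1 := by
    rw [hρ, div_lt_one hP]
    have : (0 : ℝ) < 2 * k ^ 3 := by positivity
    linarith
  have hx1 : ∀ l, ρ ^ (l + 1) ≤ ρ := fun l => pow_le_of_le_one hρ0.le hρ1.le (by omega)
  have hr : ∀ l, rr k l = 1 + 2 * ρ ^ (l + 1) / (1 - ρ ^ (l + 1)) := by
    intro l
    have h0 : 1 - ρ ^ (l + 1) ≠ 0 := by have := hx1 l; linarith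
    have e : (cA k : ℝ) - 2 * k ^ 3 = ρ * ((cA k : ℝ) + 2 * k ^ 3) := by rw [hρ]; field_simp
    rw [rr, w0_cast hk, w1_cast hk, e, mul_pow]
    have h1 : ((cA k : ℝ) + 2 * k ^ 3) ^ (l + 1) ≠ 0 := by positivity
    generalize ((cA k : ℝ) + 2 * k ^ 3) ^ (l + 1) = P at h1
    have h2 : P - ρ ^ (l + 1) * P ≠ 0 := by
      rw [show P - ρ ^ (l + 1) * P = (1 - ρ ^ (l + 1)) * P by ring]
      exact mul_ne_zero h0 h1
    field_simp
    ring
  have hlow : ∀ l, 1 + 2 * ρ ^ (l + 1) ≤ rr k l := by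
    intro l
    have := hx1 l
    have h0 : 0 < ρ ^ (l + 1) := by positivity
    rw [hr, add_le_add_iff_left, le_div_iff₀ (by linarith)]
    nlinarith
  obtain ⟨c2, h2⟩ := exists_nat_ge (1 / (ρ * (1 - ρ)))
  have hρ2 : 0 < 1 - ρ := by linarith
  rw [div_le_iff₀ (by positivity)] at h2
  have hbern : ∀ l, 1 + c2 * (2 * ρ ^ (l + 1)) ≤ rr k l ^ c2 := fun l =>
    (one_add_mul_le_pow (by have : 0 < ρ ^ (l + 1) := by positivity
                            linarith) c2).trans (pow_le_pow_left₀ (by positivity) (hlow l) _)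
  obtain ⟨c3, h3⟩ := exists_pow_lt_of_lt_one (by norm_num : (0 : ℝ) < 1 / 2) hρ1
  have hc3 : 0 < c3 := by
    rcases Nat.eq_zero_or_pos c3 with h | h
    · rw [h] at h3; norm_num at h3
    · exact h
  refine ⟨⟨k, c1, c2, c3⟩, rfl, hk, h1.le, fun l => le_trans ?_ (hbern (l + 1)),
    le_trans ?_ (hbern 0), fun H => ⟨c3 * (H + 3) - 1, ?_, ?_⟩⟩
  · have := hx1 l
    have h0 : 0 < ρ ^ (l + 1) := by positivity
    show rr k l ≤ _
    rw [hr, add_le_add_iff_left, div_le_iff₀ (by linarith), pow_succ ρ (l + 1)]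
    have h4 : (c2 : ℝ) * (ρ * (1 - ρ)) ≤ c2 * (ρ * (1 - ρ ^ (l + 1))) := by gcongr
    nlinarith
  · have : (0 : ℝ) ≤ c2 * ρ := by positivity
    rw [zero_add, pow_one]
    nlinarith
  · have : 0 < c3 * (H + 3) := by positivity
    exact Nat.sub_lt this Nat.one_pos
  · have h4 : 0 < c3 * (H + 3) := by positivity
    show rr k _ ^ H ≤ 2
    rw [hr, Nat.sub_add_cancel h4, pow_mul]
    have h5 : (ρ ^ c3) ^ (H + 3) ≤ (1 / 2) ^ (H + 3) := pow_le_pow_left₀ (by positivity) h3.le _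
    have h6 : (H + 1 : ℝ) ≤ 2 ^ H := by exact_mod_cast Nat.lt_two_pow_self
    have h7 : (0 : ℝ) ≤ (ρ ^ c3) ^ (H + 3) := by positivity
    generalize (ρ ^ c3) ^ (H + 3) = x at h5 h7
    have h8 : x * (8 * 2 ^ H) ≤ 1 := by
      rw [one_div, inv_pow, ← one_div, le_div_iff₀ (by positivity), pow_add] at h5
      linarith
    have hH : (0 : ℝ) ≤ H := Nat.cast_nonneg H
    have h9 : x * (8 * (H + 1)) ≤ 1 := le_trans (by gcongr) h8
    have h10 : x ≤ 1 / 8 := by nlinarith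
    have h11 : 2 * x / (1 - x) ≤ 4 * x := by
      rw [div_le_iff₀ (by linarith)]
      nlinarith
    refine le_trans (pow_le_pow_left₀ ?_ (by linarith : _ ≤ 1 + 4 * x) _)
      (one_add_pow_le_two H (by linarith) (by linarith) (by nlinarith))
    have : 0 ≤ 2 * x / (1 - x) := div_nonneg (by linarith) (by linarith)
    linarith

namespace Cst

variable (c : Cst) (n q : ℕ)

/-- number of parallel interactions -/
def R : ℕ := c.c1 * (n * (n + 5) + (n + 4))
/-- logarithm of the upper bound for the weight of the zero phase -/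
def M : ℕ := c.c2 * (2 * (n * c.R n) + 1)
/-- bound for the number of message bits -/
def T : ℕ := 2 * (n * c.R n) + (n + 5 + c.M n)
/-- precision -/
def J : ℕ := 64 * (q + 1) * c.M n
/-- approximate square root of the code length -/
def s : ℕ := 64 * c.J n q * c.T n * (n + 1)
/-- code length -/
def p : ℕ := first (2 * c.s n q ^ 2 + 1) fun j => Nat.blt (c.s n q ^ 2) j && isPrime j
/-- spread of the weights -/
def E : ℕ := 32 * c.T n * c.s n q
/-- largest weight -/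
def H : ℕ := (c.p n q + c.E n q) / 2
/-- number of hidden bits of a check -/
def l : ℕ := first (c.c3 * (c.H n q + 3)) fun j =>
  bble (w0 c.k j ^ c.H n q) (2 ^ c.M n * w1 c.k j ^ c.H n q)
/-- weight of the free phase -/
def B : ℕ := w0 c.k (c.l n q) ^ (c.p n q - c.H n q) * w1 c.k (c.l n q) ^ c.H n q
/-- weight of the zero phase -/
def A : ℕ := w0 c.k (c.l n q) ^ c.p n q - c.B n q
/-- number of additional message bits -/
def e : ℕ := Nat.size (2 ^ (n + 4) * (c.A n q * cA c.k ^ (2 * (n * c.R n))) /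
  (c.B n q * cG c.k ^ (n * c.R n)))
/-- numerator of the normalising constant -/
def num (mx : ℕ) : ℕ := c.A n q ^ n * cA c.k ^ (2 * (n * n * c.R n)) *
  (c.B n q * 2 ^ c.e n q * cG c.k ^ (n * c.R n)) ^ mx
/-- denominator of the normalising constant -/
def den (mx : ℕ) : ℕ := (2 ^ c.p n q) ^ n * (c.A n q * cA c.k ^ (2 * (n * c.R n))) ^ mx

section pf
variable {α : Type} [Enc α] {n q mx : α → ℕ}

@[fun_prop] theorem R_pf (hn : PF n) : PF fun a => c.R (n a) := by unfold R; fun_prop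
@[fun_prop] theorem M_pf (hn : PF n) : PF fun a => c.M (n a) := by unfold M; fun_prop
@[fun_prop] theorem T_pf (hn : PF n) : PF fun a => c.T (n a) := by unfold T; fun_prop
@[fun_prop] theorem J_pf (hn : PF n) (hq : PF q) : PF fun a => c.J (n a) (q a) := by
  unfold J; fun_prop
@[fun_prop] theorem s_pf (hn : PF n) (hq : PF q) : PF fun a => c.s (n a) (q a) := by
  unfold s; fun_prop
@[fun_prop] theorem p_pf (hn : PF n) (hq : PF q) : PF fun a => c.p (n a) (q a) := by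
  unfold p
  exact first_pf (by fun_prop) (by fun_prop)
@[fun_prop] theorem E_pf (hn : PF n) (hq : PF q) : PF fun a => c.E (n a) (q a) := by
  unfold E; fun_prop
@[fun_prop] theorem H_pf (hn : PF n) (hq : PF q) : PF fun a => c.H (n a) (q a) := by
  unfold H; fun_prop
@[fun_prop] theorem w0_pb {k : ℕ} (hn : PF n) : PB fun a => w0 k (n a) := by unfold w0; fun_prop
@[fun_prop] theorem w1_pb {k : ℕ} (hn : PF n) : PB fun a => w1 k (n a) := by unfold w1; fun_prop
@[fun_prop] theorem l_pf (hn : PF n) (hq : PF q) : PF fun a => c.l (n a) (q a) := by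
  unfold l
  exact first_pf (by fun_prop) (by fun_prop)
@[fun_prop] theorem B_pb (hn : PF n) (hq : PF q) : PB fun a => c.B (n a) (q a) := by
  unfold B; fun_prop
@[fun_prop] theorem A_pb (hn : PF n) (hq : PF q) : PB fun a => c.A (n a) (q a) := by
  unfold A; fun_prop
@[fun_prop] theorem e_pf (hn : PF n) (hq : PF q) : PF fun a => c.e (n a) (q a) := by
  unfold e; fun_prop
@[fun_prop] theorem num_pb (hn : PF n) (hq : PF q) (hm : PF mx) :
    PB fun a => c.num (n a) (q a) (mx a) := by unfold num; fun_prop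
@[fun_prop] theorem den_pb (hn : PF n) (hq : PF q) (hm : PF mx) :
    PB fun a => c.den (n a) (q a) (mx a) := by unfold den; fun_prop

end pf

variable {c} (hc : c.Good)
include hc

theorem M_pos : 1 ≤ c.M n := by
  have : c.c2 ≠ 0 := fun h => by have := hc.h2'; rw [h] at this; norm_num at this
  exact Nat.mul_pos (Nat.pos_of_ne_zero this) (Nat.succ_pos _)

theorem sizes : (c.p n q).Prime ∧ c.T n < (c.p n q).sqrt ∧ 6 ≤ (c.p n q).sqrt ∧
    (c.p n q).sqrt ≤ 2 * c.s n q ∧ c.E n q < c.H n q ∧ c.H n q ≤ c.p n q ∧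
    c.J n q * (c.E n q * n) ≤ c.H n q ∧ c.M n ≤ c.H n q := by
  have hM := M_pos n hc
  have hT : 5 ≤ c.T n := by unfold T; omega
  have hJ : 64 * c.M n ≤ c.J n q := by unfold J; nlinarith
  have hs : 64 * c.J n q * c.T n ≤ c.s n q := Nat.le_mul_of_pos_right _ (Nat.succ_pos _)
  have hs1 : 64 * c.T n ≤ c.s n q := by nlinarith
  obtain ⟨p, h1, h2, h3⟩ := Nat.exists_prime_lt_and_le_two_mul (c.s n q ^ 2)
    (by have : 0 < c.s n q := by omega
        positivity)
  obtain ⟨h4, h5, -⟩ := first_spec (L := 2 * c.s n q ^ 2 + 1)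
    (good := fun j => Nat.blt (c.s n q ^ 2) j && isPrime j)
    ⟨p, by omega, by simp [Nat.blt_eq, h2, isPrime_iff, h1]⟩
  change c.p n q < _ at h4
  change (Nat.blt _ (c.p n q) && isPrime (c.p n q)) = true at h5
  simp only [Bool.and_eq_true, Nat.blt_eq, isPrime_iff] at h5
  have h6 : c.s n q ≤ (c.p n q).sqrt := Nat.le_sqrt'.2 h5.1.le
  have h7 : (c.p n q).sqrt ≤ 2 * c.s n q := by
    by_contra h
    have := Nat.le_sqrt'.1 (not_le.1 h).le
    nlinarith
  have h8 : 2 * (c.J n q * (c.E n q * (n + 1))) = c.s n q ^ 2 := by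
    rw [sq]; unfold E; nth_rewrite 2 [s]; ring
  have h9 : c.J n q * (c.E n q * (n + 1)) ≤ c.H n q := by unfold H; omega
  have h10 : 0 < c.E n q := by
    have : 0 < c.s n q := by omega
    have : 0 < c.T n := by omega
    unfold E; positivity
  have h11 : c.E n q ≤ c.p n q := by unfold E; nlinarith
  have h12 : c.J n q * c.E n q ≤ c.H n q := le_trans (by nlinarith) h9
  refine ⟨h5.2, by omega, by omega, h7, by nlinarith, by unfold H; omega,
    le_trans (by nlinarith) h9, by nlinarith⟩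

theorem ratio : w0 c.k (c.l n q) ^ c.H n q ≤ 2 ^ c.M n * w1 c.k (c.l n q) ^ c.H n q ∧
    2 ^ (2 * (n * c.R n) + 1) * w1 c.k (c.l n q) ^ c.H n q ≤ w0 c.k (c.l n q) ^ c.H n q := by
  have hM := M_pos n hc
  have hw : ∀ j, (0 : ℝ) < w1 c.k j := fun j => by have := two_le_w1 hc.hk j; positivity
  have hr : ∀ j, 1 ≤ rr c.k j := fun j => by
    rw [rr, one_le_div (hw j)]; exact_mod_cast w1_le_w0 _ _
  have key : ∀ j, w0 c.k j ^ c.H n q ≤ 2 ^ c.M n * w1 c.k j ^ c.H n q ↔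
      rr c.k j ^ c.H n q ≤ 2 ^ c.M n := by
    intro j
    rw [rr, div_pow, div_le_iff₀ (pow_pos (hw j) _)]
    norm_cast
  obtain ⟨l, h1, h2⟩ := hc.h3 (c.H n q)
  obtain ⟨-, h3, h4⟩ := first_spec (L := c.c3 * (c.H n q + 3)) (good := fun j =>
    bble (w0 c.k j ^ c.H n q) (2 ^ c.M n * w1 c.k j ^ c.H n q))
    ⟨l, h1, by rw [bble_eq, key]; exact h2.trans (le_self_pow₀ (by norm_num) (by omega))⟩
  change bble (w0 c.k (c.l n q) ^ c.H n q) (2 ^ c.M n * w1 c.k (c.l n q) ^ c.H n q) = true at h3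
  change ∀ j, j < c.l n q → _ at h4
  rw [bble_eq] at h3
  refine ⟨h3, ?_⟩
  have h5 : (2 : ℝ) ^ (2 * (n * c.R n) + 1) ≤ rr c.k (c.l n q) ^ c.H n q := by
    rcases h6 : c.l n q with _ | j
    · calc (2 : ℝ) ^ (2 * (n * c.R n) + 1) ≤ (rr c.k 0 ^ c.c2) ^ (2 * (n * c.R n) + 1) :=
            pow_le_pow_left₀ (by norm_num) hc.h2' _
        _ = rr c.k 0 ^ c.M n := by rw [← pow_mul]; rfl
        _ ≤ _ := pow_le_pow_right₀ (hr 0) (sizes n q hc).2.2.2.2.2.2.2
    · have h7 := h4 j (by omega)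
      rw [← Bool.not_eq_true, bble_eq, key, not_le] at h7
      have h8 : c.c2 ≠ 0 := fun h => by have := hc.h2'; rw [h] at this; norm_num at this
      refine le_of_pow_le_pow_left₀ h8 (pow_nonneg (by linarith [hr (j + 1)]) _) ?_
      rw [← pow_mul, ← pow_mul, mul_comm _ c.c2, mul_comm _ c.c2, pow_mul (rr _ _)]
      exact h7.le.trans (pow_le_pow_left₀ (by linarith [hr j]) (hc.h2 j) _)
  rw [rr, div_pow, le_div_iff₀ (pow_pos (hw _) _)] at h5
  exact_mod_cast h5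

theorem spread : (rr c.k (c.l n q) ^ c.E n q) ^ n ≤ 1 + 1 / (64 * (q + 1)) := by
  have hM := M_pos n hc
  have hw : (0 : ℝ) < w1 c.k (c.l n q) := by have := two_le_w1 hc.hk (c.l n q); positivity
  have hr : 1 ≤ rr c.k (c.l n q) := by rw [rr, one_le_div hw]; exact_mod_cast w1_le_w0 _ _
  have h1 : rr c.k (c.l n q) ^ c.H n q ≤ 2 ^ c.M n := by
    rw [rr, div_pow, div_le_iff₀ (pow_pos hw _)]
    exact_mod_cast (ratio n q hc).1
  refine le_of_pow_le_pow_left₀ (n := c.J n q) (by unfold J; positivity) (by positivity) ?_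
  have h2 : (2 : ℝ) ≤ (1 + 1 / (64 * (q + 1))) ^ (64 * (q + 1)) := by
    refine le_trans (le_of_eq ?_) (one_add_mul_le_pow (le_trans (by norm_num)
      (by positivity : (0 : ℝ) ≤ 1 / (64 * (q + 1)))) _)
    push_cast
    field_simp
    norm_num
  calc ((rr c.k (c.l n q) ^ c.E n q) ^ n) ^ c.J n q
      = rr c.k (c.l n q) ^ (c.J n q * (c.E n q * n)) := by rw [← pow_mul, ← pow_mul]; ring_nf
    _ ≤ rr c.k (c.l n q) ^ c.H n q := pow_le_pow_right₀ hr (sizes n q hc).2.2.2.2.2.2.1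
    _ ≤ 2 ^ c.M n := h1
    _ ≤ ((1 + 1 / (64 * (q + 1))) ^ (64 * (q + 1))) ^ c.M n :=
        pow_le_pow_left₀ (by norm_num) h2 _
    _ = _ := by rw [← pow_mul]; rfl

theorem window : 2 ^ c.p n q ≤ c.B n q ∧ c.B n q ≤ c.A n q ∧
    c.B n q ≤ w0 c.k (c.l n q) ^ c.p n q ∧ c.e n q ≤ n + 5 + c.M n ∧
    2 ^ (n + 4) * (c.A n q * cA c.k ^ (2 * (n * c.R n))) ≤
      c.B n q * 2 ^ c.e n q * cG c.k ^ (n * c.R n) ∧
    c.B n q * 2 ^ c.e n q * cG c.k ^ (n * c.R n) ≤
      2 ^ (n + 5) * (c.A n q * cA c.k ^ (2 * (n * c.R n))) := by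
  obtain ⟨h1, h2⟩ := ratio n q hc
  have hH := (sizes n q hc).2.2.2.2.2.1
  have hw1 := two_le_w1 hc.hk (c.l n q)
  have hw0 := w1_le_w0 c.k (c.l n q)
  have e1 : w0 c.k (c.l n q) ^ c.p n q =
      w0 c.k (c.l n q) ^ (c.p n q - c.H n q) * w0 c.k (c.l n q) ^ c.H n q := by
    rw [← pow_add, Nat.sub_add_cancel hH]
  have b1 : 2 ^ c.p n q ≤ c.B n q := by
    rw [← Nat.sub_add_cancel hH, pow_add]
    exact Nat.mul_le_mul (Nat.pow_le_pow_left (by omega) _) (Nat.pow_le_pow_left hw1 _)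
  have b0 : 0 < c.B n q := lt_of_lt_of_le (by positivity) b1
  have b2 : 2 * (4 ^ (n * c.R n) * c.B n q) ≤ w0 c.k (c.l n q) ^ c.p n q := by
    rw [e1]
    refine le_trans (le_of_eq ?_) (Nat.mul_le_mul_left _ h2)
    rw [B, pow_succ 2, pow_mul 2 2]
    ring
  have b3 : w0 c.k (c.l n q) ^ c.p n q ≤ 2 ^ c.M n * c.B n q := by
    rw [e1]
    refine le_trans (Nat.mul_le_mul_left _ h1) (le_of_eq ?_)
    rw [B]
    ring
  have b4 : c.B n q ≤ 4 ^ (n * c.R n) * c.B n q := Nat.le_mul_of_pos_left _ (by positivity)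
  have b5 : 4 ^ (n * c.R n) * c.B n q ≤ c.A n q := by unfold A; omega
  have b6 : c.A n q ≤ 2 ^ c.M n * c.B n q := by unfold A; omega
  have g0 := cG_pos hc.hk
  have g1 : cG c.k ^ (n * c.R n) ≤ 4 ^ (n * c.R n) * cA c.k ^ (2 * (n * c.R n)) := by
    rw [pow_mul (cA _), ← mul_pow]
    exact Nat.pow_le_pow_left (cG_le hc.hk) _
  have g2 : cA c.k ^ (2 * (n * c.R n)) ≤ cG c.k ^ (n * c.R n) := by
    rw [pow_mul]
    exact Nat.pow_le_pow_left (le_cG c.k) _
  have d0 : 0 < c.B n q * cG c.k ^ (n * c.R n) := by positivity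
  have d1 : c.B n q * cG c.k ^ (n * c.R n) ≤ c.A n q * cA c.k ^ (2 * (n * c.R n)) :=
    (Nat.mul_le_mul_left _ g1).trans (by rw [← mul_assoc, mul_comm (c.B n q)]; gcongr)
  have d2 : c.A n q * cA c.k ^ (2 * (n * c.R n)) ≤ 2 ^ c.M n * (c.B n q * cG c.k ^ (n * c.R n)) :=
    (Nat.mul_le_mul b6 g2).trans (le_of_eq (mul_assoc _ _ _))
  refine ⟨b1, by omega, by omega, ?_⟩
  rw [mul_right_comm (c.B n q), e]
  generalize c.B n q * cG c.k ^ (n * c.R n) = D at d0 d1 d2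
  generalize c.A n q * cA c.k ^ (2 * (n * c.R n)) = U at d1 d2
  refine ⟨Nat.size_le.2 ((Nat.div_lt_iff_lt_mul d0).2 ?_), ?_, ?_⟩
  · have : 2 ^ (n + 4) * U ≤ 2 ^ (n + 4) * (2 ^ c.M n * D) := by gcongr
    have e : 2 ^ (n + 5 + c.M n) * D = 2 * (2 ^ (n + 4) * (2 ^ c.M n * D)) := by ring
    have : 0 < 2 ^ (n + 4) * (2 ^ c.M n * D) := by positivity
    omega
  · rw [mul_comm D]
    exact ((Nat.div_lt_iff_lt_mul d0).1 (Nat.lt_size_self _)).le
  · have x1 : 0 < 2 ^ (n + 4) * U / D :=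
      Nat.div_pos (d1.trans (Nat.le_mul_of_pos_left _ (by positivity))) d0
    have x2 := Nat.size_pos.2 x1
    have x3 := Nat.lt_size.1 (Nat.sub_lt x2 Nat.one_pos)
    have x4 := Nat.mul_div_le (2 ^ (n + 4) * U) D
    generalize (2 ^ (n + 4) * U / D).size = j at x2 x3
    obtain ⟨j, rfl⟩ : ∃ i, j = i + 1 := ⟨j - 1, by omega⟩
    rw [Nat.add_sub_cancel] at x3
    have x5 := Nat.mul_le_mul_left D x3
    have e1 : D * 2 ^ (j + 1) = 2 * (D * 2 ^ j) := by ring
    have e2 : 2 ^ (n + 5) * U = 2 * (2 ^ (n + 4) * U) := by ring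
    omega

end Cst

end Pool.Agent.Lib.MP_3a8d2e_lc
end

-- part Pool.Agent.Lib.MP_3a8d2e_lc.Main
section

/-!
The AP-reduction.
-/

set_option autoImplicit false

namespace Pool.Agent.Lib.MP_3a8d2e_lc

open Finset Pool.Agent.Shared.PolyTime Pool.Agent.Shared.NP

theorem approx {c : Cst} (hc : c.Good) (n q mx : ℕ) (adj : ℕ → ℕ → Bool)
    (hmx : ∀ S : Finset (Fin n), (∀ u ∈ S, ∀ v ∈ S, adj u v = false) → S.card ≤ mx) (N : ℕ)
    (hN : N = (univ.filter fun S : Finset (Fin n) =>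
      (∀ u ∈ S, ∀ v ∈ S, adj u v = false) ∧ S.card = mx).card) :
    ∃ I : Inst, I.gens.length ≤ I.m ∧
      I.code = Enc.enc (instL n (c.R n) (c.e n q) (c.p n q) (c.l n q) adj) ∧
      0 < c.num n q mx ∧ 0 < c.den n q mx ∧
      (1 ≤ mx → (16 : ℝ) ≤ (c.num n q mx : ℝ) / c.den n q mx) ∧
      (N : ℝ) * ((c.num n q mx : ℝ) / c.den n q mx) ≤ I.val c.k ∧
      (I.val c.k : ℝ) ≤ (1 + 1 / (64 * (q + 1))) * (N + 1 / 16) *
        ((c.num n q mx : ℝ) / c.den n q mx) := by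
  obtain ⟨s1, s2, s3, s4, s5, s6, -, -⟩ := Cst.sizes n q hc
  obtain ⟨w1', w2, w3, w4, w5, w6⟩ := Cst.window n q hc
  have hB0 : 0 < c.B n q := lt_of_lt_of_le (by positivity) w1'
  have hA0 : 0 < c.A n q := by omega
  have hcA := cA_ge hc.hk
  have hcG := cG_pos hc.hk
  have hT : 2 * (n * c.R n) + c.e n q ≤ c.T n := by unfold Cst.T; omega
  have hsq := Nat.sqrt_le_self (c.p n q)
  have hA1 : (1 : ℝ) ≤ (c.A n q : ℝ) / 2 ^ c.p n q := by
    rw [one_le_div (by positivity)]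
    exact_mod_cast w1'.trans w2
  obtain ⟨I, h1, h2, -, h3, h4⟩ := gadget hc.hk n (c.R n) (c.e n q) (c.p n q) (c.l n q) (c.H n q)
    (c.E n q) adj (fun m hm => by
      obtain ⟨a1, a2⟩ := code_balanced idx (c.p n q) s1 idx_inj
        (fun i => by have := idx_lt i; omega) (by rw [card_msg]; omega) s3 m hm
      rw [card_msg] at a1 a2
      have a3 : 16 * (2 * (n * c.R n) + c.e n q) * (c.p n q).sqrt ≤ c.E n q :=
        (Nat.mul_le_mul (Nat.mul_le_mul_left 16 hT) s4).trans (le_of_eq (by unfold Cst.E; ring))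
      unfold Cst.H
      omega) s5 s6 ((c.A n q : ℝ) / 2 ^ c.p n q) ((c.B n q : ℝ) / 2 ^ c.p n q) _
    (by
      rw [div_pow, div_pow, div_mul_div_comm, ← pow_add, Nat.sub_add_cancel s6, Cst.B]
      push_cast
      rfl)
    (by
      rw [div_pow, ← sub_div, Cst.A, Nat.cast_sub w3]
      push_cast
      rfl) (by positivity) rfl
  set μ : ℝ := (c.B n q : ℝ) / 2 ^ c.p n q * 2 ^ c.e n q * (cG c.k : ℝ) ^ (n * c.R n) /
    ((c.A n q : ℝ) / 2 ^ c.p n q * (cA c.k : ℝ) ^ (2 * (n * c.R n))) with hμ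
  have eμ : μ = ((c.B n q * 2 ^ c.e n q * cG c.k ^ (n * c.R n) : ℕ) : ℝ) /
      ((c.A n q * cA c.k ^ (2 * (n * c.R n)) : ℕ) : ℝ) := by
    rw [hμ]
    push_cast
    field_simp
  have m1 : (2 : ℝ) ^ (n + 4) ≤ μ := by
    rw [eμ, le_div_iff₀ (by positivity)]
    exact_mod_cast w5
  have m2 : μ ≤ (2 : ℝ) ^ (n + 5) := by
    rw [eμ, div_le_iff₀ (by positivity)]
    exact_mod_cast w6
  have m0 : 0 ≤ μ := le_trans (by positivity) m1
  have t0 := tau_nonneg c.k
  obtain ⟨c1, c2⟩ := count_bound (fun u v : Fin n => adj u v) (θ := tau c.k ^ c.R n) (μ := μ) mx hmx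
    (by positivity) (by rwa [Fintype.card_fin]) (by
      rw [Fintype.card_fin, Cst.R, pow_mul]
      calc μ ^ n * (tau c.k ^ c.c1) ^ (n * (n + 5) + (n + 4)) * 2 ^ (n + 4)
          ≤ (2 ^ (n + 5)) ^ n * (1 / 2) ^ (n * (n + 5) + (n + 4)) * 2 ^ (n + 4) := by
            gcongr
            exact hc.h1
        _ = 1 := by
            rw [← pow_mul, one_div, inv_pow, pow_add 2 (n * (n + 5)), mul_comm (n + 5)]
            field_simp)
  generalize hN' : Finset.card _ = N' at c1 c2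
  obtain rfl : N = N' := by rw [hN, ← hN']; congr
  set K : ℝ := ((c.A n q : ℝ) / 2 ^ c.p n q) ^ n * (cA c.k : ℝ) ^ (2 * (n * n * c.R n)) with hK
  have K1 : 1 ≤ K := one_le_mul_of_one_le_of_one_le (one_le_pow₀ hA1)
    (one_le_pow₀ (by exact_mod_cast (by omega : 1 ≤ cA c.k)))
  have eC : (c.num n q mx : ℝ) / c.den n q mx = K * μ ^ mx := by
    rw [eμ, hK, Cst.num, Cst.den]
    push_cast
    rw [div_pow, div_pow]
    field_simp
  have hcA0 : 0 < cA c.k := by omega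
  refine ⟨I, h1, h2, Nat.mul_pos (Nat.mul_pos (pow_pos hA0 _) (pow_pos hcA0 _))
    (pow_pos (Nat.mul_pos (Nat.mul_pos hB0 (pow_pos two_pos _)) (pow_pos hcG _)) _),
    Nat.mul_pos (pow_pos (pow_pos two_pos _) _) (pow_pos (Nat.mul_pos hA0 (pow_pos hcA0 _)) _),
    fun h => ?_, ?_, ?_⟩
  · rw [eC]
    have a1 : (16 : ℝ) ≤ 2 ^ (n + 4) := by
      rw [pow_add]
      have : (1 : ℝ) ≤ 2 ^ n := one_le_pow₀ (by norm_num)
      linarith
    have a2 : μ ≤ μ ^ mx := le_self_pow₀ (by linarith) (by omega)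
    nlinarith
  · rw [eC, mul_left_comm]
    exact le_trans (mul_le_mul_of_nonneg_left c1 (zero_le_one.trans K1)) h3
  · rw [eC]
    refine h4.trans ?_
    have := Cst.spread n q hc
    rw [rr] at this
    have K0 : 0 ≤ K := zero_le_one.trans K1
    have a1 : (0 : ℝ) ≤ N * μ ^ mx := mul_nonneg (Nat.cast_nonneg _) (pow_nonneg m0 _)
    refine (mul_le_mul this (mul_le_mul_of_nonneg_left c2 K0) (mul_nonneg K0 (a1.trans c1))
      (by positivity)).trans (le_of_eq ?_)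
    ring

theorem rounding (N q a b : ℕ) (Z ε : ℝ) (z : ℚ) (ha : 0 < a) (hb : 0 < b)
    (h16 : (16 : ℝ) ≤ (a : ℝ) / b) (h1 : (N : ℝ) * ((a : ℝ) / b) ≤ Z)
    (h2 : Z ≤ (1 + 1 / (64 * (q + 1))) * (N + 1 / 16) * ((a : ℝ) / b)) (hε : 0 < ε)
    (hq : 1 / ε ≤ q) (z1 : Real.exp (-(1 / (64 * (q + 1)))) * Z ≤ z)
    (z2 : (z : ℝ) ≤ Real.exp (1 / (64 * (q + 1))) * Z) :
    ⌊z⌋₊ ≤ 4 * (N + 1) * a ∧
    Real.exp (-ε) * N ≤ ((2 * ⌊z⌋₊ * b + a) / (2 * a) : ℕ) ∧
      (((2 * ⌊z⌋₊ * b + a) / (2 * a) : ℕ) : ℝ) ≤ Real.exp ε * N := by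
  have hq0 : (0 : ℝ) ≤ q := Nat.cast_nonneg q
  have hN0 : (0 : ℝ) ≤ N := Nat.cast_nonneg N
  set δ : ℝ := 1 / (64 * (q + 1)) with hδ
  have d0 : 0 < δ := by positivity
  have d1 : δ * (64 * (q + 1)) = 1 := by rw [hδ]; field_simp
  have d2 : δ ≤ 1 / 64 := by nlinarith
  have d3 : 64 * δ ≤ ε := by
    rw [div_le_iff₀ hε] at hq
    nlinarith
  set C : ℝ := (a : ℝ) / b with hC
  have C0 : 0 < C := by positivity
  have Z0 : 0 ≤ Z := le_trans (by positivity) h1
  have e1 : 1 - δ ≤ Real.exp (-δ) := by have := Real.add_one_le_exp (-δ); linarith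
  have e2 : Real.exp δ ≤ 1 + 2 * δ := by
    have h3 : Real.exp δ * Real.exp (-δ) = 1 := by rw [← Real.exp_add]; simp
    have h4 := Real.exp_pos δ
    by_contra h
    nlinarith
  have hz0 : (0 : ℝ) ≤ z := le_trans (by positivity) z1
  have hz0' : 0 ≤ z := by exact_mod_cast hz0
  have f1 : ((⌊z⌋₊ : ℕ) : ℝ) ≤ z := by exact_mod_cast Nat.floor_le hz0'
  have f2 : (z : ℝ) < (⌊z⌋₊ : ℕ) + 1 := by exact_mod_cast Nat.lt_floor_add_one z
  generalize ⌊z⌋₊ = F at f1 f2
  have u1 : (F : ℝ) ≤ (1 + 4 * δ) * (N + 1 / 16) * C := by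
    calc (F : ℝ) ≤ (1 + 2 * δ) * ((1 + δ) * (N + 1 / 16) * C) :=
          f1.trans (z2.trans (by gcongr))
      _ = ((1 + 2 * δ) * (1 + δ)) * (N + 1 / 16) * C := by ring
      _ ≤ _ := by gcongr; nlinarith
  have u2 : ((1 - δ) * N - 1 / 16) * C ≤ F := by
    have : (1 - δ) * (N * C) ≤ Real.exp (-δ) * Z := by gcongr
    nlinarith
  rw [← div_le_iff₀ C0] at u1
  rw [← le_div_iff₀ C0] at u2
  have hb' : (1 : ℝ) ≤ b := by exact_mod_cast hb
  have ha' : (0 : ℝ) < a := by exact_mod_cast ha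
  have y1 := Nat.div_add_mod (2 * F * b + a) (2 * a)
  have y2 := Nat.mod_lt (2 * F * b + a) (by omega : 0 < 2 * a)
  generalize (2 * F * b + a) / (2 * a) = Y at y1 ⊢
  have y3 : (2 * a * Y : ℝ) ≤ 2 * F * b + a := by exact_mod_cast (by omega : _ ≤ _)
  have y4 : (2 * F * b + a : ℝ) < 2 * a * Y + 2 * a := by exact_mod_cast (by omega : _ < _)
  have eF : (F : ℝ) / C * a = F * b := by rw [hC]; field_simp
  have y5 : (Y : ℝ) ≤ F / C + 1 / 2 := by
    refine le_of_mul_le_mul_right ?_ ha'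
    linarith
  have y6 : (F : ℝ) / C - 1 / 2 < Y := by
    refine lt_of_mul_lt_mul_right ?_ ha'.le
    linarith
  have x1 : 1 + ε ≤ Real.exp ε := by have := Real.add_one_le_exp ε; linarith
  have x2 : Real.exp (-ε) ≤ 1 - 32 * δ := by
    have h3 : Real.exp ε * Real.exp (-ε) = 1 := by rw [← Real.exp_add]; simp
    have h4 := Real.exp_pos (-ε)
    by_contra h
    have h5 : (1 + 64 * δ) * (1 - 32 * δ) < Real.exp ε * Real.exp (-ε) :=
      mul_lt_mul' (by linarith) (not_le.1 h) (by linarith) (Real.exp_pos _)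
    nlinarith
  refine ⟨?_, ?_⟩
  · have h3 : (F : ℝ) ≤ F / C * a := by rw [eF]; exact le_mul_of_one_le_right (by positivity) hb'
    have h4 : (F : ℝ) / C ≤ 4 * (N + 1) := u1.trans (by nlinarith)
    have h5 : (F : ℝ) ≤ 4 * (N + 1) * a := h3.trans (by gcongr)
    exact_mod_cast h5
  · generalize (F : ℝ) / C = y at u1 u2 y5 y6
    by_cases hs : (N : ℝ) * δ ≤ 1 / 16
    · have a1 : (Y : ℝ) < N + 1 := by nlinarith
      have a2 : (N : ℝ) < Y + 1 := by nlinarith
      have a3 : Y = N := by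
        have b1 : Y < N + 1 := by exact_mod_cast a1
        have b2 : N < Y + 1 := by exact_mod_cast a2
        omega
      rw [a3]
      constructor <;> nlinarith
    · rw [not_le] at hs
      have b1 := mul_le_mul_of_nonneg_right x1 hN0
      have b2 := mul_le_mul_of_nonneg_right x2 hN0
      have b3 := mul_le_mul_of_nonneg_right d3 hN0
      constructor <;> linarith

theorem hardness (k C : ℕ) (hk : 2 ≤ k) (hC : 1 ≤ C) (f : List Bool → ℕ)
    (hf : ∀ I : Inst, I.gens.length ≤ C * I.m → f I.code = I.val k) (h : List Bool → ℕ)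
    (hh : InSharpP h) : APRed h (instances C) f := by
  obtain ⟨c, rfl, hc⟩ := exists_good hk
  obtain ⟨nv, mx, adj, p1, p2, p3, hg⟩ := exists_graph h hh
  have b1 : PF fun a : Raw × ℕ => a.1.bits := by fun_prop
  have q1 : PF fun a : Raw × ℕ => nv a.1.bits := p1.comp b1
  have q2 : PF fun a : Raw × ℕ => mx a.1.bits := p2.comp b1
  have q3 : PF fun z : (Raw × ℕ) × ℕ × ℕ => adj z.1.1.bits z.2.1 z.2.2 :=
    p3.comp (g := fun z : (Raw × ℕ) × ℕ × ℕ => (z.1.1.bits, z.2.1, z.2.2)) (by fun_prop)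
  have q4 : PF fun a : Raw × ℕ => a.2 := by fun_prop
  have q5 := instL_pf (adj := fun a : Raw × ℕ => adj a.1.bits) q1 (c.R_pf q1) (c.e_pf q1 q4) (c.p_pf q1 q4) (c.l_pf q1 q4) q3
  have q6 : PB fun a : Raw × ℕ =>
      4 * (2 ^ nv a.1.bits + 1) * c.num (nv a.1.bits) a.2 (mx a.1.bits) :=
    PB.mul (PB.mul (PB.const _) (PB.add (PB.pow (PB.const _) q1) (PB.const _))) (c.num_pb q1 q4 q2)
  obtain ⟨r, hr⟩ := q6.bound
  have r1 : PF fun a : (Raw × ℕ) × Raw => a.1 := by fun_prop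
  have q7 : PB fun a : (Raw × ℕ) × Raw => cond (mx a.1.1.bits == 0) 1
      ((2 * bv a.2.bits * c.den (nv a.1.1.bits) a.1.2 (mx a.1.1.bits) +
        c.num (nv a.1.1.bits) a.1.2 (mx a.1.1.bits)) /
        (2 * c.num (nv a.1.1.bits) a.1.2 (mx a.1.1.bits))) :=
    PB.cond' (PF.isZero (q2.comp r1)) (PB.const _) (PB.div (PB.add (PB.mul (PB.mul (PB.const _)
      (PB.ofBits (by fun_prop))) ((c.den_pb q1 q4 q2).comp r1)) ((c.num_pb q1 q4 q2).comp r1))
      (PB.mul (PB.const _) ((c.num_pb q1 q4 q2).comp r1)))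
  choose I i1 i2 i3 i4 i5 i6 i7 using fun a : List Bool × ℕ =>
    approx hc (nv a.1) a.2 (mx a.1) (adj a.1) (hg a.1).1 (h a.1) (hg a.1).2
  have i8 : ∀ a, (I a).gens.length ≤ C * (I a).m := fun a =>
    (i1 a).trans (Nat.le_mul_of_pos_left _ hC)
  refine ⟨fun a => ((I a).code, 64 * (a.2 + 1)), fun a => cond (mx a.1.1 == 0) 1
      ((2 * bv a.2 * c.den (nv a.1.1) a.1.2 (mx a.1.1) + c.num (nv a.1.1) a.1.2 (mx a.1.1)) /
        (2 * c.num (nv a.1.1) a.1.2 (mx a.1.1))),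
    r.comp (2 * Polynomial.X + 1) + 64 * (Polynomial.X + 1), ?_, ?_, fun a => ⟨⟨I a, i8 a, rfl⟩,
      by dsimp only; omega, by simp; omega⟩, fun O hO x _ ε h0 h1 => ?_⟩
  · refine (q5.pair (PF.mul (PF.const 64) (PF.add q4 (PF.const 1)))).tm2 _ _ _
      (fun a => (⟨a.1⟩, a.2)) (fun _ => rfl) fun a => ?_
    unfold encIn
    rw [i2]
    rfl
  · exact q7.tm2 _ _ (fun a => ((⟨a.1.1⟩, a.1.2), ⟨a.2⟩)) (fun _ => rfl) fun _ => rfl
  · have hq : 1 / ε ≤ (⌈1 / ε⌉₊ : ℕ) := Nat.le_ceil _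
    dsimp only
    generalize ⌈1 / ε⌉₊ = q at hq ⊢
    have hq0 : (0 : ℝ) ≤ q := Nat.cast_nonneg q
    have eδ : (1 / ((64 * (q + 1) : ℕ) : ℝ)) = 1 / (64 * ((q : ℝ) + 1)) := by push_cast; rfl
    refine (hO _ ⟨I (x, q), i8 _, rfl⟩ (1 / ((64 * (q + 1) : ℕ) : ℝ)) (by positivity) (by
      rw [eδ, div_lt_one (by positivity)]; linarith)).trans ?_
    rw [PMF.toOuterMeasure_map_apply]
    refine MeasureTheory.measure_mono fun z hz => ?_
    simp only [Set.mem_ofPred_eq, Set.mem_preimage, hf _ (i8 _), eδ, Rat.cast_natCast] at hz ⊢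
    rcases Nat.eq_zero_or_pos (mx x) with hm | hm
    · have e : h x = 1 := by
        rw [(hg x).2, hm, card_eq_one]
        refine ⟨∅, ?_⟩
        ext S
        simp only [mem_filter, mem_univ, true_and, card_eq_zero, mem_singleton]
        exact ⟨fun h => h.2, fun h => by simp [h]⟩
      rw [hm, e]
      simp [h0.le]
    · obtain ⟨a1, a2⟩ := rounding (h x) q _ _ _ ε z (i3 (x, q)) (i4 (x, q)) (i5 (x, q) hm)
        (i6 (x, q)) (i7 (x, q)) h0 hq hz.1 hz.2
      have a3 : h x ≤ 2 ^ nv x := by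
        rw [(hg x).2]
        exact (card_le_univ _).trans (by simp)
      have a4 := hr (⟨x⟩, q)
      have a5 : (Enc.enc ((⟨x⟩ : Raw), q)).length ≤ 2 * (x.length + q) + 1 := by
        have : (Enc.enc (⟨x⟩ : Raw)).length = x.length := rfl
        rw [len_prod, len_nat, this]
        omega
      have a6 : Nat.size ⌊z⌋₊ ≤ r.eval (2 * (x.length + q) + 1) :=
        (Nat.size_le_size (a1.trans (by gcongr))).trans (a4.trans (eval_mono r a5))
      have a7 : (mx x == 0) = false := by simp; omega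
      rw [List.take_of_length_le (by rw [Nat.size_eq_bits_len]; simp; omega), bv_bits, a7,
        cond_false]
      exact a2

end Pool.Agent.Lib.MP_3a8d2e_lc
end
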