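import Mathlib
import Pool.Agent.Shared.NP.CookLevin
import Pool.Agent.Lib.MP_3a8d2e_lc.MemSims

-- part Pool.Agent.Lib.MP_3a8d2e_lc.MemPF
section

/-!
The membership test on lists of numbers is polynomial time; a parser for raw strings.
-/

set_option autoImplicit false

namespace Pool.Agent.Lib.MP_3a8d2e_lc.Mem

open Pool.Agent.Shared.PolyTime Pool.Agent.Shared.NP Polynomial

/-- the index below `m` at which a one-hot predicate holds -/
def hot (m : ℕ) (p : ℕ → Bool) : ℕ := ((List.range m).map fun j => cond (p j) j 0).sum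

theorem hot_eq {m v : ℕ} (hv : v < m) {p : ℕ → Bool} (h : ∀ j < m, p j = (v == j)) :
    hot m p = v := by
  have key : ∀ n, ((List.range n).map fun j => cond (v == j) j 0).sum = if v < n then v else 0 := by
    intro n
    induction n with
    | zero => simp
    | succ n ih =>
      rw [List.range_succ, List.map_append, List.sum_append, ih]
      by_cases h1 : v = n
      · subst h1; simp
      · have : (v == n) = false := by simpa using h1
        simp only [List.map_cons, List.map_nil, this, cond_false, List.sum_cons, List.sum_nil]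
        split_ifs <;> omega
  unfold hot
  rw [List.map_congr_left (g := fun j => cond (v == j) j 0)
    fun j hj => by rw [h j (List.mem_range.1 hj)], key, if_pos hv]

/-- operations on lists of values -/
def LO (m : ℕ) : Ops (List ℕ) where
  mul a b := (List.range m).map fun i => min (a.getD (b.getD i 0) 0) m
  ldiv t g := (List.range m).map fun i => min (hot m fun j => t.getD j 0 == g.getD i 0) m
  one := List.range m
  app g i := g.getD i 0

/-- the list of values of a permutation -/
def toL {m : ℕ} (g : Equiv.Perm (Fin m)) : List ℕ := List.ofFn fun i => (g i : ℕ)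

theorem getD_toL {m : ℕ} (g : Equiv.Perm (Fin m)) (i : ℕ) : (toL g).getD i 0 = ap g i := by
  unfold toL ap
  rw [List.getD_eq_getElem?_getD, List.getElem?_ofFn]
  split_ifs <;> rfl

theorem eq_toL {m : ℕ} (g : Equiv.Perm (Fin m)) (f : ℕ → ℕ) (h : ∀ i : Fin m, f i = g i) :
    (List.range m).map f = toL g := by
  apply List.ext_getElem
  · simp [toL]
  · intro i h1 h2
    simp only [toL, List.getElem_map, List.getElem_range, List.getElem_ofFn]
    exact h ⟨i, by simpa using h1⟩

theorem hom_toL (m : ℕ) : Hom (PO m) (LO m) toL where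
  mul a b := eq_toL _ _ fun i => by
    simp only [getD_toL, ap_fin, PO, Equiv.Perm.mul_apply]
    exact min_eq_left (Fin.is_lt _).le
  ldiv t g := eq_toL _ _ fun i => by
    simp only [getD_toL, ap_fin, PO, Equiv.Perm.mul_apply]
    rw [hot_eq (v := (t⁻¹ (g i) : Fin m)) (Fin.is_lt _)]
    · exact min_eq_left (Fin.is_lt _).le
    · intro j hj
      have := ap_fin t ⟨j, hj⟩
      simp only at this
      rw [this, Bool.eq_iff_iff, beq_iff_eq, beq_iff_eq, ← Fin.ext_iff]
      constructor
      · intro h; rw [← h]; simp
      · intro h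
        have h2 : t⁻¹ (g i) = ⟨j, hj⟩ := Fin.ext h
        rw [← h2]; simp
  one := by
    have := eq_toL (1 : Equiv.Perm (Fin m)) id fun i => rfl
    rw [List.map_id] at this
    exact this
  app a i := getD_toL a i

theorem member_toL {m : ℕ} (gens : List (Equiv.Perm (Fin m))) (g : Equiv.Perm (Fin m)) :
    member (LO m) m (gens.map toL) (toL g) = true ↔ g ∈ Subgroup.closure {σ | σ ∈ gens} := by
  rw [(hom_toL m).member, member_iff]

section pf
variable {α : Type} [Enc α]

@[fun_prop] theorem pf_hot {m : α → ℕ} {p : α → ℕ → Bool} (hm : PF m)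
    (hp : PF fun q : α × ℕ => p q.1 q.2) : PF fun a => hot (m a) (p a) := by
  unfold hot; fun_prop

@[fun_prop] theorem pf_mul {m : α → ℕ} {a b : α → List ℕ} (hm : PF m) (ha : PF a) (hb : PF b) :
    PF fun x => (LO (m x)).mul (a x) (b x) := by
  simp only [LO]; fun_prop

@[fun_prop] theorem pf_ldiv {m : α → ℕ} {a b : α → List ℕ} (hm : PF m) (ha : PF a) (hb : PF b) :
    PF fun x => (LO (m x)).ldiv (a x) (b x) := by
  simp only [LO]; fun_prop

theorem pf_fixes {m : α → ℕ} {g : α → List ℕ} {i : α → ℕ} (hg : PF g) (hi : PF i) :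
    PF fun x => fixes (LO (m x)) (g x) (i x) := by
  simp only [fixes, LO]; fun_prop

theorem pf_look {m : α → ℕ} {T : α → List (List ℕ)} {i v : α → ℕ} (hm : PF m) (hT : PF T)
    (hi : PF i) (hv : PF v) : PF fun x => look (LO (m x)) (T x) (i x) (v x) := by
  simp only [look, fixes, LO]; fun_prop

theorem pf_step {m : α → ℕ} {T : α → List (List ℕ)} {g : α → List ℕ} {i : α → ℕ} (hm : PF m)
    (hT : PF T) (hg : PF g) (hi : PF i) : PF fun x => step (LO (m x)) (T x) (g x) (i x) := by
  unfold step
  exact PF.cond' (pf_fixes hg hi)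
    (pf_ldiv hm (pf_look hm hT hi (PF.getD hg hi (PF.const 0))) hg) hg

theorem len_map_min (m : ℕ) (f : ℕ → ℕ) :
    (Enc.enc ((List.range m).map fun i => min (f i) m)).length ≤ m * (2 * m + 1) := by
  have := len_le_mul ((List.range m).map fun i => min (f i) m) m fun a ha => by
    obtain ⟨i, -, rfl⟩ := List.mem_map.1 ha
    simp
  simpa using this

theorem len_foldl_step (m : ℕ) (T : List (List ℕ)) (l : List ℕ) (g : List ℕ) (B : ℕ)
    (hB : m * (2 * m + 1) ≤ B) (hg : (Enc.enc g).length ≤ B) :
    (Enc.enc (l.foldl (step (LO m) T) g)).length ≤ B := by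
  induction l generalizing g with
  | nil => exact hg
  | cons i l ih =>
    apply ih
    unfold step
    cases fixes (LO m) g i
    · exact hg
    · exact (len_map_min m _).trans hB

theorem pf_sift0 : PF fun x : ℕ × List (List ℕ) × List ℕ => sift (LO x.1) x.1 x.2.1 x.2.2 := by
  unfold sift
  refine PF.foldl (st := fun (x : ℕ × List (List ℕ) × List ℕ) g i => step (LO x.1) x.2.1 g i)
    (by fun_prop) (by fun_prop) (pf_step (by fun_prop) (by fun_prop) (by fun_prop) (by fun_prop))
    ⟨X + X * (2 * X + 1), fun a j => ?_⟩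
  obtain ⟨m, T, g⟩ := a
  simp only [eval_add, eval_mul, eval_X, eval_ofNat, eval_one, len_prod, len_nat]
  apply len_foldl_step
  · refine le_trans (Nat.mul_le_mul (by omega) (by omega)) (Nat.le_add_left _ _)
  · omega

theorem pf_sift {m : α → ℕ} {T : α → List (List ℕ)} {g : α → List ℕ} (hm : PF m)
    (hT : PF T) (hg : PF g) : PF fun x => sift (LO (m x)) (m x) (T x) (g x) :=
  pf_sift0.comp (g := fun x => (m x, T x, g x)) (by fun_prop)

theorem pf_round {m : α → ℕ} {gens T : α → List (List ℕ)} (hm : PF m) (hg : PF gens)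
    (hT : PF T) : PF fun x => round (LO (m x)) (m x) (gens x) (T x) := by
  unfold round
  have h1 : PF fun x => cands (LO (m x)) (gens x) (T x) := by
    unfold cands; fun_prop
  refine PF.append hT (PF.take (PF.const 1) (PF.filter (PF.map h1 ?_) ?_))
  · exact pf_sift (by fun_prop) (by fun_prop) (by fun_prop)
  · exact PF.not' (pf_fixes (m := fun p : α × List ℕ => m p.1) (by fun_prop) (by fun_prop))

theorem len_table (m : ℕ) (gens : List (List ℕ)) (B : ℕ) (hB : m * (2 * m + 1) ≤ B)
    (hg : (Enc.enc gens).length ≤ B) (k : ℕ) :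
    ((round (LO m) m gens)^[k] [(LO m).one]).length ≤ k + 1 ∧
      ∀ t ∈ (round (LO m) m gens)^[k] [(LO m).one], (Enc.enc t).length ≤ B := by
  induction k with
  | zero =>
    refine ⟨le_rfl, fun t ht => ?_⟩
    rw [List.mem_singleton.1 ht]
    have := len_le_mul (List.range m) m fun a ha => by
      have := List.mem_range.1 ha
      simp; omega
    rw [List.length_range] at this
    exact this.trans hB
  | succ k ih =>
    rw [Function.iterate_succ_apply']
    generalize (round (LO m) m gens)^[k] [(LO m).one] = T at *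
    unfold round
    refine ⟨?_, fun t ht => ?_⟩
    · rw [List.length_append, List.length_take]; omega
    · rcases List.mem_append.1 ht with h | h
      · exact ih.2 t h
      · obtain ⟨c, hc, rfl⟩ := List.mem_map.1 (List.mem_filter.1 (List.mem_of_mem_take h)).1
        apply len_foldl_step _ _ _ _ _ hB
        simp only [cands, List.mem_append, List.mem_flatMap, List.mem_map] at hc
        rcases hc with h | ⟨a, -, b, -, rfl⟩
        · exact (len_le_of_mem h).trans hg
        · exact (len_map_min m _).trans hB

theorem pf_table0 : PF fun x : ℕ × List (List ℕ) => table (LO x.1) x.1 x.2 := by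
  unfold table
  refine PF.iterate (st := fun (x : ℕ × List (List ℕ)) T => round (LO x.1) x.1 x.2 T)
    (by fun_prop) (by simp only [LO]; fun_prop)
    (pf_round (by fun_prop) (by fun_prop) (by fun_prop))
    ⟨(X * X + 2) * (2 * (X + X * (2 * X + 1)) + 1), fun a j hj => ?_⟩
  obtain ⟨m, gens⟩ := a
  simp only [eval_add, eval_mul, eval_X, eval_ofNat, eval_one, len_prod, len_nat] at hj ⊢
  generalize hN : 2 * m + (Enc.enc gens).length + 1 = N
  have h := len_table m gens (N + N * (2 * N + 1))
    (le_trans (Nat.mul_le_mul (by omega) (by omega)) (Nat.le_add_left _ _)) (by omega) j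
  refine (len_le_mul _ _ h.2).trans (Nat.mul_le_mul_right _ (h.1.trans ?_))
  have := Nat.mul_le_mul (show m ≤ N by omega) (show m ≤ N by omega)
  omega

/-- membership in a permutation group is polynomial time -/
theorem pf_member {m : α → ℕ} {gens : α → List (List ℕ)} {g : α → List ℕ} (hm : PF m)
    (hgens : PF gens) (hg : PF g) : PF fun x => member (LO (m x)) (m x) (gens x) (g x) := by
  unfold member
  exact pf_fixes (pf_sift hm (pf_table0.comp (g := fun x => (m x, gens x)) (by fun_prop)) hg) hm

end pf

/-! The parser -/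

def lead (w : List Bool) : ℕ := (List.range w.length).countP fun j => (w.take (j + 1)).all id

def fstB (w : List Bool) : List Bool := (w.drop (lead w + 1)).take (lead w)

def sndB (w : List Bool) : List Bool := w.drop (2 * lead w + 1)

theorem lead_pair (x y : List Bool) : lead (encPair x y) = x.length := by
  have key : ∀ (n : ℕ) (r : List Bool) (j : ℕ),
      ((List.replicate n true ++ false :: r).take (j + 1)).all id = decide (j < n) := by
    intro n r
    induction n with
    | zero => intro j; simp
    | succ n ih =>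
      intro j
      cases j with
      | zero => simp [List.replicate_succ]
      | succ j => simpa [List.replicate_succ] using ih j
  unfold lead encPair
  simp only [key]
  have : ∀ n N : ℕ, (List.range N).countP (fun j => decide (j < n)) = min n N := by
    intro n N
    induction N with
    | zero => simp
    | succ N ih =>
      rw [List.range_succ, List.countP_append, ih]
      by_cases h : N < n <;> simp [h] <;> omega
  rw [this]
  simp

theorem fstB_pair (x y : List Bool) : fstB (encPair x y) = x := by
  unfold fstB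
  rw [lead_pair, ← List.drop_drop]
  simp [encPair]

theorem sndB_pair (x y : List Bool) : sndB (encPair x y) = y := by
  unfold sndB
  rw [lead_pair, show 2 * x.length + 1 = x.length + (1 + x.length) by ring, ← List.drop_drop]
  simp [encPair, add_comm 1]

def pstep (s : List (List Bool) × List Bool) : List (List Bool) × List Bool :=
  cond s.2.isEmpty s (s.1 ++ [fstB s.2], sndB s.2)

def parseL (w : List Bool) : List (List Bool) := (pstep^[w.length] ([], w)).1

theorem parseL_enc {β : Type} [Enc β] (l : List β) :
    parseL (Enc.enc l) = l.map Enc.enc := by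
  have key : ∀ (j : ℕ) (l : List β) (acc : List (List Bool)), pstep^[j] (acc, Enc.enc l) =
      (acc ++ (l.take j).map Enc.enc, Enc.enc (l.drop j)) := by
    intro j
    induction j with
    | zero => intro l acc; simp
    | succ j ih =>
      intro l acc
      rw [Function.iterate_succ_apply]
      cases l with
      | nil =>
        have : pstep (acc, Enc.enc ([] : List β)) = (acc, Enc.enc ([] : List β)) := rfl
        rw [this, ih]; simp
      | cons a l =>
        have : pstep (acc, Enc.enc (a :: l)) = (acc ++ [Enc.enc a], Enc.enc l) := by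
          have h : (Enc.enc (a :: l) : List Bool).isEmpty = false := by
            rw [enc_cons]; simp [encPair]
          unfold pstep
          simp only [h, cond_false]
          rw [enc_cons, fstB_pair, sndB_pair]
        rw [this, ih]; simp
  unfold parseL
  rw [key, List.take_of_length_le (length_le_len l)]
  simp

def parse (w : List Bool) : ℕ × List (List ℕ) :=
  ((fstB w).length, (parseL (sndB w)).map fun r => (parseL r).map List.length)

theorem parse_enc (a : ℕ × List (List ℕ)) : parse (Enc.enc a) = a := by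
  obtain ⟨m, L⟩ := a
  unfold parse
  rw [enc_prod, fstB_pair, sndB_pair, parseL_enc, len_nat, List.map_map]
  congr 1
  conv_rhs => rw [← List.map_id L]
  apply List.map_congr_left
  intro r _
  simp only [Function.comp, parseL_enc, List.map_map, id]
  conv_rhs => rw [← List.map_id r]
  apply List.map_congr_left
  intro n _
  simp

section pf2
variable {α : Type} [Enc α]

@[fun_prop] theorem pf_fstB {w : α → List Bool} (hw : PF w) : PF fun a => fstB (w a) := by
  unfold fstB lead; fun_prop

@[fun_prop] theorem pf_sndB {w : α → List Bool} (hw : PF w) : PF fun a => sndB (w a) := by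
  unfold sndB lead; fun_prop

theorem pf_parseL0 : PF parseL := by
  unfold parseL
  refine PF.fst (PF.iterate (st := fun (_ : List Bool) s => pstep s) (by fun_prop) (by fun_prop)
    (by unfold pstep; fun_prop) ⟨2 * (X * (2 * X + 1)) + X + 1, fun w j hj => ?_⟩)
  have key : ∀ j, (pstep^[j] ([], w)).1.length ≤ j ∧ (∀ r ∈ (pstep^[j] ([], w)).1, r.Sublist w) ∧
      (pstep^[j] ([], w)).2.Sublist w := by
    intro j
    induction j with
    | zero => simp
    | succ j ih =>
      rw [Function.iterate_succ_apply']
      generalize pstep^[j] ([], w) = s at *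
      unfold pstep
      cases s.2.isEmpty
      · refine ⟨by simp; omega, fun r hr => ?_, (List.drop_sublist _ _).trans ih.2.2⟩
        rcases List.mem_append.1 hr with h | h
        · exact ih.2.1 r h
        · rw [List.mem_singleton.1 h]
          exact ((List.take_sublist _ _).trans (List.drop_sublist _ _)).trans ih.2.2
      · exact ⟨ih.1.trans (Nat.le_succ _), ih.2⟩
  obtain ⟨k1, k2, k3⟩ := key j
  have h1 := len_le_mul _ _ fun r hr => len_le_of_sublist (k2 r hr)
  have h2 := len_le_of_sublist k3
  have h3 := Nat.mul_le_mul_right (2 * (Enc.enc w).length + 1)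
    (k1.trans (hj.trans (length_le_len w)))
  generalize pstep^[j] ([], w) = s at *
  obtain ⟨s1, s2⟩ := s
  simp only [eval_add, eval_mul, eval_X, eval_ofNat, eval_one, len_prod] at *
  omega

@[fun_prop] theorem pf_parseL {w : α → List Bool} (hw : PF w) : PF fun a => parseL (w a) :=
  pf_parseL0.comp hw

@[fun_prop] theorem pf_parse {w : α → List Bool} (hw : PF w) : PF fun a => parse (w a) := by
  unfold parse; fun_prop

theorem pf_enc {β : Type} [Enc β] {f : α → β} (hf : PF f) :
    PF fun a => (Enc.enc (f a) : List Bool) := by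
  have h : PF fun b : β => Raw.mk (Enc.enc b) := ⟨fun x => x, PT.var 0, fun _ => rfl⟩
  exact PF_bits (h.comp hf)

end pf2

/-- equality test for bit lists -/
def eqL (l r : List Bool) : Bool :=
  l.length == r.length && (List.range l.length).all fun i => l.getD i false == r.getD i false

theorem eqL_iff (l r : List Bool) : eqL l r = true ↔ l = r := by
  unfold eqL
  rw [Bool.and_eq_true, beq_iff_eq, List.all_eq_true]
  constructor
  · rintro ⟨h1, h2⟩
    apply List.ext_getElem h1
    intro i a b
    have := h2 i (List.mem_range.2 a)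
    rw [beq_iff_eq, List.getD_eq_getElem _ _ a, List.getD_eq_getElem _ _ b] at this
    exact this
  · rintro rfl; simp

@[fun_prop] theorem pf_eqL {α : Type} [Enc α] {l r : α → List Bool} (hl : PF l) (hr : PF r) :
    PF fun a => eqL (l a) (r a) := by
  unfold eqL; fun_prop

/-- the list is the list of values of a permutation of `Fin m` -/
def isPerm (m : ℕ) (l : List ℕ) : Bool :=
  l.length == m && (l.all fun v => Nat.blt v m) && (List.range m).all fun j => l.contains j

@[fun_prop] theorem pf_isPerm {α : Type} [Enc α] {m : α → ℕ} {l : α → List ℕ} (hm : PF m)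
    (hl : PF l) : PF fun a => isPerm (m a) (l a) := by
  unfold isPerm; fun_prop

theorem isPerm_iff (m : ℕ) (l : List ℕ) :
    isPerm m l = true ↔ ∃ g : Equiv.Perm (Fin m), toL g = l := by
  unfold isPerm
  simp only [Bool.and_eq_true, beq_iff_eq, List.all_eq_true, Nat.blt_eq, List.mem_range,
    List.contains_iff_mem]
  constructor
  · rintro ⟨⟨rfl, h2⟩, h3⟩
    let f : Fin l.length → Fin l.length := fun i => ⟨l[i], h2 _ (List.getElem_mem i.2)⟩
    have hs : Function.Surjective f := fun j => by
      obtain ⟨i, hi, e⟩ := List.getElem_of_mem (h3 j j.2)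
      exact ⟨⟨i, hi⟩, Fin.ext e⟩
    refine ⟨Equiv.ofBijective f (Finite.surjective_iff_bijective.1 hs), ?_⟩
    apply List.ext_getElem
    · simp [toL]
    · intro i a b; simp [toL, f]
  · rintro ⟨g, rfl⟩
    refine ⟨⟨by simp [toL], fun v hv => ?_⟩, fun j hj => ?_⟩
    · obtain ⟨i, rfl⟩ := List.mem_ofFn.1 hv
      exact Fin.is_lt _
    · exact List.mem_ofFn.2 ⟨g⁻¹ ⟨j, hj⟩, by simp⟩

theorem toL_inj {m : ℕ} : Function.Injective (toL (m := m)) := fun a b h => by
  have := List.ofFn_injective h
  exact Equiv.ext fun i => Fin.ext (congrFun this i)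

end Pool.Agent.Lib.MP_3a8d2e_lc.Mem
end

-- part Pool.Agent.Lib.MP_3a8d2e_lc.Mem
section

/-! The Polya sum is a counting function of polynomial-time verifiable certificates. -/

set_option autoImplicit false

namespace Pool.Agent.Lib.MP_3a8d2e_lc

open Pool.Agent.Shared.PolyTime Pool.Agent.Shared.NP Polynomial

namespace Mem

def valid (C : ℕ) (w : List Bool) : Bool :=
  eqL (Enc.enc (parse w)) w && Nat.ble (parse w).2.length (C * (parse w).1) &&
    (parse w).2.all fun l => isPerm (parse w).1 l

theorem code_eq (I : Inst) : I.code = Enc.enc (I.m, I.gens.map toL) := rfl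

theorem parse_code (I : Inst) : parse I.code = (I.m, I.gens.map toL) := by
  rw [code_eq, parse_enc]

theorem valid_iff (C : ℕ) (w : List Bool) : valid C w = true ↔ w ∈ instances C := by
  unfold valid
  simp only [Bool.and_eq_true, eqL_iff, Nat.ble_eq, List.all_eq_true, isPerm_iff]
  constructor
  · rintro ⟨⟨h1, h2⟩, h3⟩
    generalize parse w = a at *
    obtain ⟨m, L⟩ := a
    have : ∃ gens : List (Equiv.Perm (Fin m)), gens.map toL = L := by
      clear h1 h2
      induction L with
      | nil => exact ⟨[], rfl⟩
      | cons l L ih =>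
        obtain ⟨g, hg⟩ := h3 l List.mem_cons_self
        obtain ⟨gens, hgens⟩ := ih fun x hx => h3 x (List.mem_cons_of_mem _ hx)
        exact ⟨g :: gens, by rw [List.map_cons, hg, hgens]⟩
    obtain ⟨gens, rfl⟩ := this
    exact ⟨⟨m, gens⟩, by simpa using h2, h1⟩
  · rintro ⟨I, h1, rfl⟩
    rw [parse_code]
    refine ⟨⟨rfl, by simpa using h1⟩, fun l hl => ?_⟩
    obtain ⟨g, -, rfl⟩ := List.mem_map.1 hl
    exact ⟨g, rfl⟩

def decG (m : ℕ) (y : List Bool) : List ℕ :=
  (List.range m).map fun i => hot m fun j => y.getD (i * m + j) false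

def decW (m k : ℕ) (y : List Bool) : List ℕ :=
  (List.range m).map fun i => hot k fun c => y.getD (m * m + (i * k + c)) false

def encC (m k P : ℕ) (gl wl : List ℕ) : List Bool :=
  (List.range P).map fun t => cond (Nat.blt t (m * m)) (gl.getD (t / m) 0 == t % m)
    (Nat.blt t (m * m + m * k) && wl.getD ((t - m * m) / k) 0 == (t - m * m) % k)

def check (k m : ℕ) (gens : List (List ℕ)) (y : List Bool) : Bool :=
  eqL (encC m k y.length (decG m y) (decW m k y)) y && isPerm m (decG m y) &&
    ((decW m k y).all fun c => Nat.blt c k) && member (LO m) m gens (decG m y) &&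
    (List.range m).all fun i => (decW m k y).getD ((decG m y).getD i 0) 0 == (decW m k y).getD i 0

def verify (k C : ℕ) (x y : List Bool) : Bool := valid C x && check k (parse x).1 (parse x).2 y

theorem pf_verify (k C : ℕ) : PF fun p : List Bool × List Bool => verify k C p.1 p.2 := by
  have h1 : PF fun p : List Bool × List Bool => valid C p.1 := by
    have : PF fun p : List Bool × List Bool => (Enc.enc (parse p.1) : List Bool) :=
      pf_enc (by fun_prop)
    unfold valid; fun_prop
  have hG : PF fun q : ℕ × List Bool => decG q.1 q.2 := by unfold decG; fun_prop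
  have hW : PF fun q : ℕ × List Bool => decW q.1 k q.2 := by unfold decW; fun_prop
  have hE : PF fun q : ℕ × ℕ × List ℕ × List ℕ => encC q.1 k q.2.1 q.2.2.1 q.2.2.2 := by
    unfold encC; fun_prop
  have h2 : PF fun q : (ℕ × List (List ℕ)) × List Bool => check k q.1.1 q.1.2 q.2 := by
    have g1 : PF fun q : (ℕ × List (List ℕ)) × List Bool => decG q.1.1 q.2 :=
      hG.comp (g := fun q : (ℕ × List (List ℕ)) × List Bool => (q.1.1, q.2)) (by fun_prop)
    have g2 : PF fun q : (ℕ × List (List ℕ)) × List Bool => decW q.1.1 k q.2 :=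
      hW.comp (g := fun q : (ℕ × List (List ℕ)) × List Bool => (q.1.1, q.2)) (by fun_prop)
    have g3 : PF fun q : (ℕ × List (List ℕ)) × List Bool =>
        encC q.1.1 k q.2.length (decG q.1.1 q.2) (decW q.1.1 k q.2) :=
      hE.comp (g := fun q : (ℕ × List (List ℕ)) × List Bool =>
        (q.1.1, q.2.length, decG q.1.1 q.2, decW q.1.1 k q.2))
        (PF.pair (by fun_prop) (PF.pair (by fun_prop) (PF.pair g1 g2)))
    have g4 : PF fun q : (ℕ × List ℕ × List ℕ) =>
        (List.range q.1).all fun i => q.2.2.getD (q.2.1.getD i 0) 0 == q.2.2.getD i 0 := by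
      fun_prop
    unfold check
    refine PF.and' (PF.and' (PF.and' (PF.and' (pf_eqL g3 (by fun_prop))
      (pf_isPerm (by fun_prop) g1)) (PF.all g2 (by fun_prop)))
      (pf_member (by fun_prop) (by fun_prop) g1)) ?_
    exact g4.comp (g := fun q : (ℕ × List (List ℕ)) × List Bool =>
      (q.1.1, decG q.1.1 q.2, decW q.1.1 k q.2)) (PF.pair (by fun_prop) (PF.pair g1 g2))
  unfold verify
  exact PF.and' h1 (h2.comp (g := fun p : List Bool × List Bool => (parse p.1, p.2)) (by fun_prop))

/-- the list of letters of a word -/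
def toW {m k : ℕ} (w : Fin m → Fin k) : List ℕ := List.ofFn fun i => (w i : ℕ)

theorem getD_toW {m k : ℕ} (w : Fin m → Fin k) (i : Fin m) : (toW w).getD i 0 = w i := by
  simp [toW, List.getD_eq_getElem?_getD]

theorem getD_encC {m k P t : ℕ} (ht : t < P) (gl wl : List ℕ) :
    (encC m k P gl wl).getD t false = cond (Nat.blt t (m * m)) (gl.getD (t / m) 0 == t % m)
      (Nat.blt t (m * m + m * k) && wl.getD ((t - m * m) / k) 0 == (t - m * m) % k) := by
  simp [encC, List.getD_eq_getElem?_getD, ht]

theorem lt_mul_of {i j m k : ℕ} (hi : i < m) (hj : j < k) : i * k + j < m * k := by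
  have := Nat.mul_le_mul_right k (show i + 1 ≤ m by omega)
  rw [Nat.add_mul] at this; omega

theorem decG_encC {m k P : ℕ} (hP : m * m + m * k ≤ P) (g : Equiv.Perm (Fin m)) (wl : List ℕ) :
    decG m (encC m k P (toL g) wl) = toL g := by
  apply eq_toL
  intro i
  apply hot_eq (Fin.is_lt _)
  intro j hj
  have h1 := lt_mul_of i.2 hj
  have h2 : Nat.blt (i * m + j) (m * m) = true := by rw [Nat.blt_eq]; exact h1
  rw [getD_encC (by omega), h2, cond_true, Nat.mul_comm, Nat.mul_add_div (by omega),
    Nat.div_eq_of_lt hj, Nat.add_zero, Nat.mul_add_mod, Nat.mod_eq_of_lt hj, getD_toL, ap_fin]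

theorem decW_encC {m k P : ℕ} (hP : m * m + m * k ≤ P) (gl : List ℕ) (w : Fin m → Fin k) :
    decW m k (encC m k P gl (toW w)) = toW w := by
  apply List.ext_getElem
  · simp [decW, toW]
  · intro i a b
    have hi : i < m := by simpa [decW] using a
    simp only [decW, toW, List.getElem_map, List.getElem_range, List.getElem_ofFn]
    apply hot_eq (Fin.is_lt _)
    intro j hj
    have h1 := lt_mul_of hi hj
    have h2 : Nat.blt (m * m + (i * k + j)) (m * m) = false := by
      rw [Bool.eq_false_iff, Ne, Nat.blt_eq]; omega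
    have h3 : Nat.blt (m * m + (i * k + j)) (m * m + m * k) = true := by
      rw [Nat.blt_eq]; omega
    rw [getD_encC (by omega), h2, cond_false, h3, Bool.true_and, Nat.add_sub_cancel_left,
      Nat.mul_comm, Nat.mul_add_div (by omega), Nat.div_eq_of_lt hj, Nat.add_zero,
      Nat.mul_add_mod, Nat.mod_eq_of_lt hj]
    exact congrArg (· == j) (getD_toW w ⟨i, hi⟩)

theorem exists_toW {m k : ℕ} {l : List ℕ} (h1 : l.length = m) (h2 : ∀ c ∈ l, c < k) :
    ∃ w : Fin m → Fin k, toW w = l := by
  subst h1
  refine ⟨fun i => ⟨l[i], h2 _ (List.getElem_mem i.2)⟩, ?_⟩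
  apply List.ext_getElem
  · simp [toW]
  · intro i a b; simp [toW]

theorem fixed_iff {m k : ℕ} (g : Equiv.Perm (Fin m)) (w : Fin m → Fin k) :
    (∀ i ∈ List.range m, ((toW w).getD ((toL g).getD i 0) 0 == (toW w).getD i 0) = true) ↔
      ∀ i, w (g i) = w i := by
  constructor
  · intro h i
    have := h i (List.mem_range.2 i.2)
    rw [getD_toL, ap_fin, getD_toW, getD_toW, beq_iff_eq] at this
    exact Fin.ext this
  · intro h i hi
    have a := getD_toW w ⟨i, List.mem_range.1 hi⟩
    have b := ap_fin g ⟨i, List.mem_range.1 hi⟩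
    simp only at a b
    rw [getD_toL, b, getD_toW, a, h, beq_iff_eq]

theorem check_iff {m k P : ℕ} (hP : m * m + m * k ≤ P) (gens : List (Equiv.Perm (Fin m)))
    (y : List Bool) : (y.length = P ∧ check k m (gens.map toL) y = true) ↔
      ∃ p : Equiv.Perm (Fin m) × (Fin m → Fin k),
        (p.1 ∈ Subgroup.closure {σ | σ ∈ gens} ∧ ∀ i, p.2 (p.1 i) = p.2 i) ∧
          encC m k P (toL p.1) (toW p.2) = y := by
  unfold check
  simp only [Bool.and_eq_true, eqL_iff, isPerm_iff, List.all_eq_true, Nat.blt_eq]
  constructor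
  · rintro ⟨rfl, ⟨⟨⟨h1, g, hg⟩, h3⟩, h4⟩, h5⟩
    obtain ⟨w, hw⟩ := exists_toW (m := m) (by simp [decW]) h3
    rw [← hg, ← hw] at h1 h5
    rw [← hg] at h4
    exact ⟨(g, w), ⟨(member_toL _ _).1 h4, (fixed_iff g w).1 h5⟩, h1⟩
  · rintro ⟨⟨g, w⟩, ⟨h1, h2⟩, rfl⟩
    have hl : (encC m k P (toL g) (toW w)).length = P := by simp [encC]
    rw [hl, decG_encC hP, decW_encC hP]
    refine ⟨rfl, ⟨⟨⟨rfl, g, rfl⟩, fun c hc => ?_⟩, (member_toL _ _).2 h1⟩, (fixed_iff g w).2 h2⟩
    obtain ⟨i, rfl⟩ := List.mem_ofFn.1 hc
    exact Fin.is_lt _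

theorem count {m k P : ℕ} (hP : m * m + m * k ≤ P) (gens : List (Equiv.Perm (Fin m))) :
    {y : List Bool | y.length = P ∧ check k m (gens.map toL) y = true}.ncard =
      Inst.val k ⟨m, gens⟩ := by
  classical
  have e1 : {y : List Bool | y.length = P ∧ check k m (gens.map toL) y = true} =
      (fun p : Equiv.Perm (Fin m) × (Fin m → Fin k) => encC m k P (toL p.1) (toW p.2)) ''
        (Finset.univ.filter fun p : Equiv.Perm (Fin m) × (Fin m → Fin k) =>
          p.1 ∈ Subgroup.closure {σ | σ ∈ gens} ∧ ∀ i, p.2 (p.1 i) = p.2 i : Finset _) := by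
    ext y
    rw [Set.mem_ofPred_eq, check_iff hP]
    simp only [Set.mem_image, Finset.coe_filter, Finset.mem_univ, true_and, Set.mem_ofPred_eq]
  rw [e1, Set.ncard_image_of_injective, Set.ncard_coe_finset]
  · unfold Inst.val
    simp only [← card_fixed]
    rw [Finset.card_eq_sum_ones, Finset.sum_filter, Fintype.sum_prod_type, Finset.sum_filter]
    apply Finset.sum_congr rfl
    intro g _
    by_cases hg : g ∈ Subgroup.closure {σ | σ ∈ gens}
    · simp only [hg, true_and, if_true]
      rw [Finset.card_eq_sum_ones, Finset.sum_filter]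
    · simp [hg]
  · rintro ⟨g, w⟩ ⟨g', w'⟩ h
    have h1 := congrArg (decG m) h
    have h2 := congrArg (decW m k) h
    simp only [decG_encC hP, decW_encC hP] at h1 h2
    have h3 := List.ofFn_injective h2
    exact Prod.ext (toL_inj h1) (funext fun i => Fin.ext (congrFun h3 i))

end Mem

open Mem in
theorem polya_sharpP (k C : ℕ) : ∃ f : List Bool → ℕ,
    (∀ I : Inst, I.gens.length ≤ C * I.m → f I.code = I.val k) ∧
    (∀ w, w ∉ instances C → f w = 0) ∧ InSharpP f := by
  refine ⟨fun x => {y : List Bool | y.length = (X * X + X * Polynomial.C k : Polynomial ℕ).eval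
    x.length ∧ verify k C x y = true}.ncard, fun I hI => ?_, fun w hw => ?_,
    fun xy => verify k C xy.1 xy.2, X * X + X * Polynomial.C k, ?_, fun x => rfl⟩
  · have hv : valid C I.code = true := (valid_iff C _).2 ⟨I, hI, rfl⟩
    have hm : I.m ≤ I.code.length := by
      rw [code_eq, len_prod, len_nat]; omega
    simp only [verify, hv, Bool.true_and, parse_code, eval_add, eval_mul, eval_X, eval_C]
    exact count (Nat.add_le_add (Nat.mul_le_mul hm hm) (Nat.mul_le_mul_right k hm)) I.gens
  · have hv : valid C w = false := by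
      rw [Bool.eq_false_iff]; exact fun h => hw ((valid_iff C w).1 h)
    simp [verify, hv]
  · have h : PF fun q : Raw × Raw => verify k C q.1.bits q.2.bits :=
      (pf_verify k C).comp (g := fun q : Raw × Raw => (q.1.bits, q.2.bits)) (by fun_prop)
    exact h.tm2 _ _ _ (fun xy => (⟨xy.1⟩, ⟨xy.2⟩)) (fun _ => rfl) (fun _ => rfl)

end Pool.Agent.Lib.MP_3a8d2e_lc
end
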